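import Pool.Agent.N858.DS.FS

set_option autoImplicit false

/-!
Exponents of exceptional type all of whose conjugates are the weights of stable parabolic bundles have
rank two or three.
-/

open Polynomial

namespace Pool.Agent.N858.DS

open Pool.Agent.Y227.SS Pool.Agent.N858.PC Pool.Agent.N858.R4 Pool.Agent.N858.R3

/-- An integral multiple by a number prime to the denominator. -/
lemma cong_of_mul {a : ℤ} {N : ℕ} (ha : IsCoprime a (N : ℤ)) (hN : 0 < N) {u v : ℚ} {mu mv : ℤ}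
    (hu : (N : ℚ) * u = mu) (hv : (N : ℚ) * v = mv) {z : ℤ}
    (h : (a : ℝ) * ((u : ℝ) - (v : ℝ)) = z) : Cong u v := by
  have hNq : (N : ℚ) ≠ 0 := Nat.cast_ne_zero.mpr hN.ne'
  have h1 : (a : ℚ) * (u - v) = z := by exact_mod_cast h
  have h2 : a * (mu - mv) = z * N := by
    have h3 : (a : ℚ) * ((mu : ℚ) - mv) = z * N := by
      rw [← hu, ← hv, ← h1]; ring
    exact_mod_cast h3
  have h3 : (N : ℤ) ∣ a * (mu - mv) := ⟨z, by rw [h2]; ring⟩
  obtain ⟨w, hw⟩ := ha.symm.dvd_of_dvd_mul_left h3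
  refine ⟨w, ?_⟩
  have h4 : (N : ℚ) * (u - v) = N * w := by
    have h5 : ((mu - mv : ℤ) : ℚ) = ((N * w : ℤ) : ℚ) := by rw [hw]
    push_cast at h5
    rw [← h5, ← hu, ← hv]; ring
  exact mul_left_cancel₀ hNq h4

lemma int_zero {z : ℤ} {κ : ℝ} (hκ : κ < 1) (h : |(z : ℝ)| ≤ κ) : z = 0 := by
  have h1 := abs_le.mp h
  have h2 : (z : ℝ) < 1 := by linarith [h1.2]
  have h3 : (-1 : ℝ) < z := by linarith [h1.1]
  have h4 : z < 1 := by exact_mod_cast h2
  have h5 : -1 < z := by exact_mod_cast h3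
  omega

/-- Equal weights and congruent exponents at one point. -/
lemma eq_iff_cong {r : ℕ} {a : ℤ} {N : ℕ} (ha : IsCoprime a (N : ℤ)) (hN : 0 < N)
    {f : Fin r → ℚ} {mf : Fin r → ℤ} (hf : ∀ l, (N : ℚ) * f l = mf l) {t : Fin r → ℝ} {κ c : ℝ}
    (hκ : 2 * κ < 1) (hκt : ∀ l, |t l| ≤ κ) {σ : Equiv.Perm (Fin r)}
    (ht : ∀ l, ∃ m : ℤ, t l = (a : ℝ) * (f (σ l) : ℝ) + m - c) (l l' : Fin r) :
    t l = t l' ↔ Cong (f (σ l)) (f (σ l')) := by
  obtain ⟨m, hm⟩ := ht l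
  obtain ⟨m', hm'⟩ := ht l'
  constructor
  · intro h
    refine cong_of_mul ha hN (hf _) (hf _) (z := m' - m) ?_
    push_cast
    linarith
  · rintro ⟨w, hw⟩
    have hw' : (f (σ l) : ℝ) - (f (σ l') : ℝ) = w := by exact_mod_cast congrArg (fun q : ℚ => (q : ℝ)) hw
    have h1 : t l - t l' = ((a * w + m - m' : ℤ) : ℝ) := by
      push_cast
      rw [hm, hm', ← hw']
      ring
    have h2 : |((a * w + m - m' : ℤ) : ℝ)| ≤ 2 * κ := by
      rw [← h1]
      have h3 := abs_le.mp (hκt l)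
      have h4 := abs_le.mp (hκt l')
      rw [abs_le]
      constructor <;> linarith [h3.1, h3.2, h4.1, h4.2]
    have h3 := int_zero hκ h2
    rw [h3] at h1
    push_cast at h1
    linarith

lemma card_perm {r : ℕ} {f : Fin r → ℚ} {t : Fin r → ℝ} {σ : Equiv.Perm (Fin r)}
    (h : ∀ l l', t l = t l' ↔ Cong (f (σ l)) (f (σ l'))) (k : Fin r) (F : Finset (Fin r))
    (hF : ∀ l, l ∈ F ↔ t k = t l) {X : Type} {e : X → Fin r → ℚ} {x : X} (he : e x = f) :
    F.card = mult e x (σ k) := by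
  classical
  unfold mult
  refine Finset.card_bij (fun l _ => σ l) ?_ ?_ ?_
  · intro l hl
    rw [Finset.mem_filter]
    refine ⟨Finset.mem_univ _, ?_⟩
    rw [he]
    exact (h k l).mp ((hF l).mp hl)
  · intro l _ l' _ hll
    exact σ.injective hll
  · intro l hl
    rw [Finset.mem_filter, he] at hl
    refine ⟨σ.symm l, ?_, by simp⟩
    rw [hF, h]
    simpa using hl.2

theorem near_exc (hA : S_LATA) (hB : S_LATB) (hNear : S_NEAR) (hSch : S_SCH) (hSol : S_SOL)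
    (hInv : S_INV) (hAnn : S_ANN) (hGen : S_GEN) (n r : ℕ) (hr : 1 < r) :
    ∃ B : ℕ, ∀ (lam : Fin n → Fin r → ℚ) (phi : Fin r → ℚ) (N : ℕ), 0 < N →
      (∀ j l, ∃ m : ℤ, (N : ℚ) * lam j l = m) → (∀ l, ∃ m : ℤ, (N : ℚ) * phi l = m) →
      (∀ a : ℤ, IsCoprime a (N : ℤ) → StableWeights ℂ
        (fun j l => (a : ℝ) * lam j l) (fun l => (a : ℝ) * phi l)) →
      Rough B (allExp lam phi) → ExcType (allExp lam phi) → r ≤ 3 := by
  classical
  have hr0 : (0 : ℝ) < r := by exact_mod_cast (by omega : 0 < r)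
  have hr1 : (1 : ℝ) ≤ r := by exact_mod_cast (by omega : 1 ≤ r)
  have hn1 : (1 : ℝ) ≤ (n : ℝ) + 1 := by linarith [Nat.cast_nonneg (α := ℝ) n]
  obtain ⟨κ, hκdef⟩ : ∃ κ : ℝ, κ = 1 / (4 * ((n : ℝ) + 1) * r) := ⟨_, rfl⟩
  have hden : (0 : ℝ) < 4 * ((n : ℝ) + 1) * r := by positivity
  have hκ0 : 0 < κ := by rw [hκdef]; positivity
  have hκm : κ * (4 * ((n : ℝ) + 1) * r) = 1 := by
    rw [hκdef]; field_simp
  have hκ1 : ((n : ℝ) + 1) * κ * r < 1 := by nlinarith
  have hκ2 : 2 * (r : ℝ) * κ < 1 := by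
    nlinarith [mul_pos hr0 hκ0, mul_nonneg (mul_pos hr0 hκ0).le (Nat.cast_nonneg (α := ℝ) n)]
  have hκ3 : 2 * κ < 1 := by nlinarith
  obtain ⟨B, hBn⟩ := hNear (Option (Fin n)) r (κ / 4) (by positivity)
  refine ⟨B, fun lam phi N hN hNl hNp hSt hR hE => ?_⟩
  have hNe : ∀ x l, ∃ w : ℤ, (N : ℚ) * allExp lam phi x l = w := by
    rintro (_ | j) l
    · obtain ⟨w, hw⟩ := hNp l
      exact ⟨-w, by simp only [allExp]; push_cast; rw [← hw]; ring⟩
    · exact hNl j l
  choose mf hmf using hNe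
  obtain ⟨a, ha, hclose⟩ := hBn (allExp lam phi) N hN (fun x l => ⟨_, hmf x l⟩) hR
  obtain ⟨β, P, w, e, -, hP, hw, hσ, ⟨σ', hσ'⟩, hsum, -, hstab⟩ := hSt a ha
  choose σ hσ using hσ
  have hcw : ∀ j l l', ∃ z : ℤ, |w j l - w j l' - z| ≤ κ / 4 := by
    intro j l l'
    obtain ⟨m1, h1⟩ := hσ j l
    obtain ⟨m2, h2⟩ := hσ j l'
    obtain ⟨z, hz⟩ := hclose (some j) (σ j l) (σ j l')
    refine ⟨z + m1 - m2, ?_⟩
    have h3 : w j l - w j l' - ((z + m1 - m2 : ℤ) : ℝ) =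
        (a : ℝ) * ((allExp lam phi (some j) (σ j l) - allExp lam phi (some j) (σ j l') : ℚ) : ℝ) - z := by
      rw [h1, h2]
      simp only [allExp]
      push_cast
      ring
    rw [h3]
    exact hz
  have hce : ∀ l l', ∃ z : ℤ, |e l - e l' - z| ≤ κ / 4 := by
    intro l l'
    obtain ⟨m1, h1⟩ := hσ' l
    obtain ⟨m2, h2⟩ := hσ' l'
    obtain ⟨z, hz⟩ := hclose none (σ' l) (σ' l')
    refine ⟨-z + m1 - m2, ?_⟩
    have h3 : e l - e l' - ((-z + m1 - m2 : ℤ) : ℝ) =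
        -((a : ℝ) * ((allExp lam phi none (σ' l) - allExp lam phi none (σ' l') : ℚ) : ℝ) - z) := by
      rw [h1, h2]
      simp only [allExp]
      push_cast
      ring
    rw [h3, abs_neg]
    exact hz
  obtain ⟨c, c', k, m, M, Y, Z, hT⟩ := hA n r hr κ hκ0 hκ1 β P w e hP hw hsum hstab hcw hce
  obtain ⟨Q, hQ, hFS⟩ := hB n r hr κ hκ0 hκ2 β P w e c c' k m M Y Z hT hP hstab
  let t : Option (Fin n) → Fin r → ℝ := fun x l => match x with
        | some j => w j l + k j l - c j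
        | none => -(e l - m l - c')
  have hts : ∀ j l, t (some j) l = w j l + k j l - c j := fun j l => rfl
  have htn : ∀ l, t none l = -(e l - m l - c') := fun l => rfl
  have htsum : ∑ x, ∑ l, t x l = 0 := by
    rw [Fintype.sum_option]
    have h1 : ∑ l, t none l = 0 := by
      simp only [htn]
      rw [Finset.sum_neg_distrib, Finset.sum_sub_distrib, hT.mean']
      simp
    have h2 : ∀ j, ∑ l, t (some j) l = 0 := by
      intro j
      simp only [hts]
      rw [Finset.sum_sub_distrib, hT.mean j]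
      simp
    rw [h1, Finset.sum_congr rfl fun j _ => h2 j]
    simp
  have hkey : ∀ x, ∃ τ : Equiv.Perm (Fin r), ∀ l l',
      t x l = t x l' ↔ Cong (allExp lam phi x (τ l)) (allExp lam phi x (τ l')) := by
    rintro (_ | j)
    · refine ⟨σ', eq_iff_cong ha hN (hmf none) hκ3 (κ := κ) (c := -c') (fun l => ?_) fun l => ?_⟩
      · rw [htn, abs_neg]
        exact hT.close' l
      · obtain ⟨m1, h1⟩ := hσ' l
        refine ⟨m l - m1, ?_⟩
        rw [htn, h1]
        simp only [allExp]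
        push_cast
        ring
    · refine ⟨σ j, eq_iff_cong ha hN (hmf (some j)) hκ3 (κ := κ) (c := c j) (fun l => ?_)
        fun l => ?_⟩
      · rw [hts]
        exact hT.close j l
      · obtain ⟨m1, h1⟩ := hσ j l
        refine ⟨m1 + k j l, ?_⟩
        rw [hts, h1]
        simp only [allExp]
        push_cast
        ring
  choose τ hτ using hkey
  have hTT : TType t := by
    rcases hE with ⟨S, h1, h2, h3⟩ | ⟨S, h1, h2, h3⟩
    · refine Or.inl ⟨S, h1, fun x hx l l' => (hτ x l l').mpr (h2 x hx _ _), fun x hx q F hF => ?_⟩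
      rw [card_perm (hτ x) q F hF (e := allExp lam phi) rfl]
      exact h3 x hx _
    · refine Or.inr ⟨S, h1, fun x hx l l' => (hτ x l l').mpr (h2 x hx _ _), fun x hx q F hF => ?_⟩
      rw [card_perm (hτ x) q F hF (e := allExp lam phi) rfl]
      exact h3 x hx _
  exact fs hSch hSol hInv hAnn hGen (by omega) Q t hQ htsum hFS hTT

end Pool.Agent.N858.DS
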