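import Pool.Agent.N858.DS.Fin
import Pool.Agent.N858.DS.NearExc

set_option autoImplicit false

/-!
Irreducible systems and operators with index of rigidity at least zero: the exceptional types in rank at
least four are excluded if the differences have no small prime factors in their denominators.
-/

open Finset

namespace Pool.Agent.N858.DS

open Pool.Agent.N858.PC Pool.Agent.N858.R3 Pool.Agent.N858.R4
open Pool.Agent.W432.PC Pool.Agent.W432.TC Pool.Agent.Y227.SS

universe u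

/-- The statement of `near_exc`. -/
def S_EXC : Prop :=
  ∀ n r : ℕ, 1 < r → ∃ B : ℕ, ∀ (lam : Fin n → Fin r → ℚ) (phi : Fin r → ℚ) (N : ℕ), 0 < N →
      (∀ j l, ∃ m : ℤ, (N : ℚ) * lam j l = m) → (∀ l, ∃ m : ℤ, (N : ℚ) * phi l = m) →
      (∀ a : ℤ, IsCoprime a (N : ℤ) → StableWeights ℂ
        (fun j l => (a : ℝ) * lam j l) (fun l => (a : ℝ) * phi l)) →
      Rough B (allExp lam phi) → ExcType (allExp lam phi) → r ≤ 3

/-- The weights. -/
theorem all_weights3 (hX : S_EXC) (m r : ℕ) (hr : 1 < r) :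
    ∃ B : ℕ, ∀ (lam : Fin m → Fin r → ℚ) (phi : Fin r → ℚ) (N : ℕ) (F : ℤ), 0 < N →
    (∀ j l, ∃ m : ℤ, (N : ℚ) * lam j l = m) → (∀ l, ∃ m : ℤ, (N : ℚ) * phi l = m) →
    ∑ j, ∑ l, lam j l = ∑ l, phi l + F →
    (∀ a : ℤ, IsCoprime a (N : ℤ) → StableWeights ℂ
      (fun j l => (a : ℝ) * lam j l) (fun l => (a : ℝ) * phi l)) →
    ((RoughSums (2 * r) (allExp lam phi) ∨ MildDen (allExp lam phi) ∨
        Rough B (allExp lam phi)) →
      ¬ LargeMult (allExp lam phi) ∧ (IndexNonneg (allExp lam phi) → ExcType (allExp lam phi))) ∧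
    (Rough B (allExp lam phi) → Refined (allExp lam phi)) ∧
    (Rough B (allExp lam phi) → ExcType (allExp lam phi) → r ≤ 3) := by
  obtain ⟨B1, h1⟩ := all_weights m r hr
  obtain ⟨B2, h2⟩ := hX m r hr
  refine ⟨max B1 B2, fun lam phi N F hN hNl hNp hF hSt => ?_⟩
  obtain ⟨h3, h4⟩ := h1 lam phi N F hN hNl hNp hF hSt
  exact ⟨fun hor => h3 (hor.imp id (Or.imp id (rough_mono (le_max_left _ _)))),
    fun hR => h4 (rough_mono (le_max_left _ _) hR),
    fun hR => h2 lam phi N hN hNl hNp hSt (rough_mono (le_max_right _ _) hR)⟩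

/-- Systems. -/
theorem all_sys3 (hX : S_EXC) (n r : ℕ) (hr : 1 < r) :
    ∃ (ε : ℝ) (B : ℕ), 0 < ε ∧
      ∀ (R : Type u) [CommRing R] [IsDomain R] [CharZero R] [Algebra.FiniteType ℤ R]
        (α : Fin n → R) (A : Fin n → Matrix (Fin r) (Fin r) R)
        (lam : Fin n → Fin r → ℚ) (phi : Fin r → ℚ) (N : ℕ),
        (∀ i j, i ≠ j → IsUnit (α i - α j)) → AbsIrreducible α A →
        (∀ j, HasExponents (A j) (lam j)) → HasExponents (∑ j, A j) phi →
        0 < N → (∀ j l, ∃ m : ℤ, (N : ℚ) * lam j l = m) → (∀ l, ∃ m : ℤ, (N : ℚ) * phi l = m) →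
        (RoughSums (2 * r) (allExp lam phi) ∨ MildDen (allExp lam phi) ∨
          Rough B (allExp lam phi)) →
        (LargeMult (allExp lam phi) ∨ IndexNonneg (allExp lam phi)) →
        (ExcType (allExp lam phi) ∧ ¬ LargeMult (allExp lam phi) ∧
          (Rough B (allExp lam phi) → r ≤ 3 ∧ Refined (allExp lam phi)) ∧
          (NoShift (allExp lam phi) → r ≤ 3)) ∨
          ((∃ g : R, g ≠ 0 ∧ BadClasses α A N ε g) ∧ ¬ CondII α A) := by
  obtain ⟨ε, 𝒟, hε, -, huni⟩ := uniform.{u} n r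
  obtain ⟨B, hB⟩ := all_weights3 hX n r hr
  refine ⟨min ε 1, B, lt_min hε one_pos, ?_⟩
  intro R _ _ _ _ α A lam phi N hα hirr hlam hphi hN hNlam hNphi hor hI
  have hF : ∑ j, ∑ l, lam j l = ∑ l, phi l + ((0 : ℤ) : ℚ) := by
    rw [sum_exponents hlam hphi]; simp
  rcases (huni R α A lam phi N hα hlam hphi hN hNlam hNphi).2 hirr with h | ⟨⟨g, hg, hBc⟩, h4⟩
  · obtain ⟨h1, h2, h3⟩ := hB lam phi N 0 hN hNlam hNphi hF h
    obtain ⟨h5, h6⟩ := h1 hor
    have hE := h6 (hI.resolve_left h5)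
    choose m hm using hNlam
    choose m' hm' using hNphi
    rcases semi_or_bad hα hlam hphi hN hm hm' with h7 | ⟨⟨g, hg, hBc⟩, h8⟩
    · exact Or.inl ⟨hE, h5, fun hR => ⟨h3 hR hE, h2 hR⟩, fun hNS =>
        exc_small (by omega) hirr hlam hphi hN hm hm' h7 hNS hE⟩
    · exact Or.inr ⟨⟨g, hg, badClasses_mono (min_le_right _ _) hBc⟩, h8⟩
  · exact Or.inr ⟨⟨g, hg, badClasses_mono (min_le_left _ _) hBc⟩, h4⟩

/-- Systems on the thrice punctured line. -/
theorem index_thrice3 (hX : S_EXC) (r : ℕ) (hr : 1 < r) :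
    ∃ (ε : ℝ) (B : ℕ), 0 < ε ∧
      ∀ (R : Type u) [CommRing R] [IsDomain R] [CharZero R] [Algebra.FiniteType ℤ R]
        (b c : Matrix (Fin r) (Fin r) R) (lam : Fin 3 → Fin r → ℚ) (N : ℕ),
        AbsIrreducible (![0, 1] : Fin 2 → R) ![b, c] →
        HasExponents b (lam 0) → HasExponents c (lam 1) →
        HasExponents (b + c) (fun l => -lam 2 l) →
        0 < N → (∀ j l, ∃ m : ℤ, (N : ℚ) * lam j l = m) →
        (RoughSums (2 * r) lam ∨ MildDen lam ∨ Rough B lam) →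
        (LargeMult lam ∨ (IndexNonneg lam ∧
          (¬ ExcType lam ∨ (3 < r ∧ (Rough B lam ∨ NoShift lam))))) →
          (∃ g : R, g ≠ 0 ∧ BadClasses ![0, 1] ![b, c] N ε g) ∧ ¬ CondII ![0, 1] ![b, c] := by
  obtain ⟨ε, B, hε, h⟩ := all_sys3.{u} hX 2 r hr
  refine ⟨ε, B, hε, ?_⟩
  intro R _ _ _ _ b c lam N hirr h0 h1 h2 hN hNlam hR hor
  obtain ⟨p, hpdef⟩ : ∃ p : Fin 3 → Option (Fin 2), p = ![some 0, some 1, none] := ⟨_, rfl⟩
  have hp : Function.Injective p := by rw [hpdef]; decide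
  have hps : Function.Surjective p := by rw [hpdef]; decide
  have hE' : ∀ x, allExp (fun j : Fin 2 => lam j.castSucc) (fun l => -lam 2 l) (p x) = lam x :=
    fun x => by rw [hpdef]; exact thrice_aux lam x
  let φ : Fin 3 ≃ Option (Fin 2) := Equiv.ofBijective p ⟨hp, hps⟩
  have hφ : ∀ x, allExp (fun j : Fin 2 => lam j.castSucc) (fun l => -lam 2 l) (φ x) = lam x := hE'
  have hφ' : ∀ y, lam (φ.symm y) = allExp (fun j : Fin 2 => lam j.castSucc) (fun l => -lam 2 l) y :=
    fun y => by rw [← hφ (φ.symm y), Equiv.apply_symm_apply]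
  have hmr : Rough B lam →
      Rough B (allExp (fun j : Fin 2 => lam j.castSucc) (fun l => -lam 2 l)) := by
    rintro ⟨q, k1, k2, k3⟩
    refine ⟨q, k1, k2, fun y l l' => ?_⟩
    rw [← hφ' y]
    exact k3 _ l l'
  have key := h R ![0, 1] ![b, c] (fun j => lam j.castSucc) (fun l => -lam 2 l) N (by
      intro i j hij
      fin_cases i <;> fin_cases j
      · exact absurd rfl hij
      · simp
      · simp
      · exact absurd rfl hij) hirr (by
      intro j
      fin_cases j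
      · exact h0
      · exact h1) (by
      rw [Fin.sum_univ_two]
      exact h2) hN (fun j l => hNlam _ l) (fun l => by
      obtain ⟨m, hm⟩ := hNlam 2 l
      exact ⟨-m, by push_cast; rw [← hm]; ring⟩)
      (hR.imp (move_rough φ hφ) (Or.imp (move_mild φ hφ) hmr))
      (hor.imp (move_large φ hφ) fun hh => move_index φ hφ hh.1)
  rcases key with ⟨k1, k2, k3, k4⟩ | k
  · rcases hor with h3 | ⟨-, h3 | ⟨h3, h4 | h4⟩⟩
    · exact absurd (move_large φ hφ h3) k2
    · exact absurd (move_exc φ.symm hφ' k1) h3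
    · have h5 := (k3 (hmr h4)).1
      omega
    · have h5 := k4 (by
        intro y l l' hc
        rw [← hφ' y] at hc ⊢
        exact h4 _ l l' hc)
      omega
  · exact k

open Polynomial Pool.Agent.W432.WB Pool.Agent.W432.HK Pool.Agent.Y227.SO in
/-- Operators. -/
theorem all_op3 (hX : S_EXC) (m n : ℕ) (hm : 1 ≤ m) (hn : 1 < n) :
    ∃ (ε : ℝ) (B : ℕ), 0 < ε ∧ ∀ (b : Fin (n + 1) → ℤ[X]) (α : Fin m → AlgebraicClosure ℚ),
      ¬ Reducible b →
      (∀ lam phi, FuchsianWith b α lam phi →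
        (RoughSums (2 * n) (allExp lam phi) ∨ MildDen (allExp lam phi) ∨
          Rough B (allExp lam phi)) →
        (LargeMult (allExp lam phi) ∨ IndexNonneg (allExp lam phi)) →
        (ExcType (allExp lam phi) ∧ ¬ LargeMult (allExp lam phi) ∧
          (Rough B (allExp lam phi) → n ≤ 3 ∧ Refined (allExp lam phi))) ∨
        (¬ Cond b ∧ ¬ FewBad b ε ∧ ∀ N, CommonDen lam phi N → BadPrimes b N ε)) ∧
      (ZerosAmong b α → FewBad b ε → ∃ lam phi, FuchsianWith b α lam phi ∧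
        ((RoughSums (2 * n) (allExp lam phi) ∨ MildDen (allExp lam phi) ∨
          Rough B (allExp lam phi)) →
          ¬ LargeMult (allExp lam phi) ∧ (IndexNonneg (allExp lam phi) →
            ExcType (allExp lam phi) ∧
              (Rough B (allExp lam phi) → n ≤ 3 ∧ Refined (allExp lam phi))))) := by
  obtain ⟨ε, 𝒟, hε, -, hden⟩ := density m n hm (by omega)
  obtain ⟨B, hB⟩ := all_weights3 hX m n hn
  have key : ∀ (b : Fin (n + 1) → ℤ[X]) (α : Fin m → AlgebraicClosure ℚ) lam phi,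
      ¬ Reducible b → FuchsianWith b α lam phi → ∀ N, CommonDen lam phi N →
      ConjGood b lam phi N →
      ((RoughSums (2 * n) (allExp lam phi) ∨ MildDen (allExp lam phi) ∨
          Rough B (allExp lam phi)) →
        ¬ LargeMult (allExp lam phi) ∧ (IndexNonneg (allExp lam phi) → ExcType (allExp lam phi))) ∧
      (Rough B (allExp lam phi) → Refined (allExp lam phi)) ∧
      (Rough B (allExp lam phi) → ExcType (allExp lam phi) → n ≤ 3) := by
    intro b α lam phi hred hF N hN hG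
    obtain ⟨F, hFu⟩ := fuchs_int hm (by omega) hF
    exact hB lam phi N F hN.1 hN.2.1 hN.2.2 hFu fun a ha => (hG a ha).2.2 hred
  refine ⟨min (ε / 2) ε, B, lt_min (by positivity) hε, fun b α hred =>
    ⟨fun lam phi hF hR hI => ?_, fun hZ hfew => ?_⟩⟩
  · obtain ⟨N₀, hN₀⟩ := exists_commonDen lam phi
    by_cases hall : ∀ N, CommonDen lam phi N → BadPrimes b N ε
    · right
      refine ⟨not_cond hN₀.1 hε (hall N₀ hN₀), fun hfew => ?_, fun N hN => ?_⟩
      · exact (hall N₀ hN₀).dens hN₀.1 hε (hfew.mono (min_le_left _ _))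
      · exact (hall N hN).mono (min_le_right _ _)
    · left
      push Not at hall
      obtain ⟨N, hN, hbad⟩ := hall
      rcases (hden b α).1 lam phi N hF hN with h | ⟨h, -⟩
      · exact absurd h hbad
      · obtain ⟨h1, h2, h5⟩ := key b α lam phi hred hF N hN h
        obtain ⟨h3, h4⟩ := h1 hR
        have hE := h4 (hI.resolve_left h3)
        exact ⟨hE, h3, fun hRo => ⟨h5 hRo hE, h2 hRo⟩⟩
  · obtain ⟨lam, phi, hF, ⟨N, hN⟩, hG, -⟩ := (hden b α).2 hZ (hfew.mono (min_le_right _ _))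
    obtain ⟨h1, h2, h5⟩ := key b α lam phi hred hF N hN (hG N hN)
    exact ⟨lam, phi, hF, fun hR => ⟨(h1 hR).1, fun hI =>
      ⟨(h1 hR).2 hI, fun hRo => ⟨h5 hRo ((h1 hR).2 hI), h2 hRo⟩⟩⟩⟩

end Pool.Agent.N858.DS
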