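import Pool.Agent.N858.DS.Stm2

set_option autoImplicit false

/-!
DT/ANN: polynomials annihilating a block triangular matrix (helper402).
-/

open Polynomial

namespace Pool.Agent.N858.DS

/-- the row `l` of `q(M)` vanishes if `q` vanishes at the scalars of weight at least `t l` -/
lemma ann_row {r : ℕ} (t : Fin r → ℝ) (lam : Fin r → ℂ) (M : Matrix (Fin r) (Fin r) ℂ)
    (hM : ∀ l l', (M - Matrix.diagonal lam) l l' ≠ 0 → t l < t l')
    (hlam : ∀ l l', lam l = lam l' → t l = t l') :
    ∀ (n : ℕ) (l : Fin r), (Finset.univ.filter fun l' => t l < t l').card ≤ n →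
      ∀ q : ℂ[X], (∀ l', t l ≤ t l' → q.eval (lam l') = 0) → ∀ l'', (aeval M q) l l'' = 0 := by
  intro n
  induction n with
  | zero =>
    intro l hl q hq l''
    have hempty : ∀ l', ¬ t l < t l' := by
      intro l' h
      have h1 : (Finset.univ.filter fun l' => t l < t l') = ∅ := Finset.card_eq_zero.1 (by omega)
      have h2 : l' ∈ (Finset.univ.filter fun l' => t l < t l') :=
        Finset.mem_filter.2 ⟨Finset.mem_univ _, h⟩
      rw [h1] at h2
      simp at h2
    obtain ⟨q1, hq1⟩ := dvd_iff_isRoot.mpr (hq l le_rfl)
    rw [hq1, map_mul, Matrix.mul_apply]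
    refine Finset.sum_eq_zero fun l' _ => ?_
    have h3 : (aeval M (X - C (lam l)) : Matrix (Fin r) (Fin r) ℂ) l l' = 0 := by
      have h4 : (aeval M (X - C (lam l)) : Matrix (Fin r) (Fin r) ℂ) l l' =
          (M - Matrix.diagonal lam) l l' := by
        rw [map_sub, aeval_X, aeval_C, Matrix.sub_apply, Matrix.sub_apply,
          Matrix.algebraMap_matrix_apply, Matrix.diagonal_apply]
        rfl
      rw [h4]
      by_contra h5
      exact hempty l' (hM l l' h5)
    rw [h3, zero_mul]
  | succ n ih =>
    intro l hl q hq l''
    obtain ⟨q1, hq1⟩ := dvd_iff_isRoot.mpr (hq l le_rfl)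
    rw [hq1, map_mul, Matrix.mul_apply]
    refine Finset.sum_eq_zero fun l' _ => ?_
    have h4 : (aeval M (X - C (lam l)) : Matrix (Fin r) (Fin r) ℂ) l l' =
        (M - Matrix.diagonal lam) l l' := by
      rw [map_sub, aeval_X, aeval_C, Matrix.sub_apply, Matrix.sub_apply,
        Matrix.algebraMap_matrix_apply, Matrix.diagonal_apply]
      rfl
    rw [h4]
    by_cases h5 : (M - Matrix.diagonal lam) l l' = 0
    · rw [h5, zero_mul]
    · have h6 := hM l l' h5
      have h7 : (Finset.univ.filter fun k => t l' < t k).card ≤ n := by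
        have h8 : (Finset.univ.filter fun k => t l' < t k) ⊂
            (Finset.univ.filter fun k => t l < t k) := by
          refine Finset.ssubset_iff_subset_ne.2 ⟨?_, ?_⟩
          · intro k hk
            rw [Finset.mem_filter] at hk ⊢
            exact ⟨hk.1, h6.trans hk.2⟩
          · intro he
            have h9 : l' ∈ (Finset.univ.filter fun k => t l < t k) :=
              Finset.mem_filter.2 ⟨Finset.mem_univ _, h6⟩
            rw [← he, Finset.mem_filter] at h9
            exact lt_irrefl _ h9.2
        have := Finset.card_lt_card h8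
        omega
      have h10 := ih l' h7 q1 (fun k hk => by
        have h11 := hq k (h6.le.trans hk)
        rw [hq1, eval_mul, eval_sub, eval_X, eval_C] at h11
        rcases mul_eq_zero.1 h11 with h12 | h12
        · exfalso
          have h13 := hlam k l (sub_eq_zero.1 h12)
          linarith
        · exact h12) l''
      rw [h10, mul_zero]

theorem ann : S_ANN := by
  intro r t lam M hM hlam q hq
  ext l l''
  rw [Matrix.zero_apply]
  exact ann_row t lam M hM (fun l l' h => (hlam l l').2 h) _ l le_rfl q (fun l' _ => hq l') l''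

end Pool.Agent.N858.DS
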