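import Pool.Agent.N858.DS.Stm

/-!
# Burnside's theorem and Schur's lemma (helper439)
-/

set_option autoImplicit false

namespace Pool.Agent.N858.DS

universe u

theorem scal : S_SCAL.{u} := by
  intro K _ _ r ι M hM X hX
  rcases Nat.eq_zero_or_pos r with h0 | h0
  · subst h0
    exact ⟨0, Subsingleton.elim _ _⟩
  · have : Nonempty (Fin r) := ⟨⟨0, h0⟩⟩
    obtain ⟨c, hc⟩ := Module.End.exists_eigenvalue (Matrix.toLin' X)
    refine ⟨c, ?_⟩
    have hinv : ∀ i, ∀ w ∈ Module.End.eigenspace (Matrix.toLin' X) c,
        (M i).mulVec w ∈ Module.End.eigenspace (Matrix.toLin' X) c := by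
      intro i w hw
      rw [Module.End.mem_eigenspace_iff, Matrix.toLin'_apply] at hw ⊢
      rw [Matrix.mulVec_mulVec, hX, ← Matrix.mulVec_mulVec, hw, Matrix.mulVec_smul]
    rcases hM _ hinv with h | h
    · exact absurd h hc
    · apply Matrix.toLin'.injective
      refine LinearMap.ext fun v => ?_
      have hv : v ∈ Module.End.eigenspace (Matrix.toLin' X) c := by
        rw [h]
        exact Submodule.mem_top
      rw [Module.End.mem_eigenspace_iff] at hv
      rw [hv]
      simp

/-- the algebra generated by an irreducible family -/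
theorem full {K : Type u} [Field K] [IsAlgClosed K] {r : ℕ} (hr : 0 < r) {ι : Type}
    {M : ι → Matrix (Fin r) (Fin r) K} (hM : Irr M) :
    Algebra.adjoin K (Set.range fun i => Matrix.toLin' (M i)) = ⊤ := by
  set A := Algebra.adjoin K (Set.range fun i => Matrix.toLin' (M i)) with hA
  have hne : Nonempty (Fin r) := ⟨⟨0, hr⟩⟩
  have hmem : ∀ i, Matrix.toLin' (M i) ∈ A := fun i => Algebra.subset_adjoin ⟨i, rfl⟩
  have hsimple : IsSimpleModule A (Fin r → K) := by
    rw [isSimpleModule_iff]
    refine { exists_pair_ne := ⟨⊥, ⊤, bot_ne_top⟩, eq_bot_or_eq_top := fun W => ?_ }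
    have h := hM (W.restrictScalars K) (fun i w hw => by
      have h1 : (⟨Matrix.toLin' (M i), hmem i⟩ : A) • w ∈ W := W.smul_mem _ hw
      exact h1)
    rcases h with h | h
    · left
      exact (Submodule.restrictScalars_eq_bot_iff _ _ _).1 h
    · right
      exact (Submodule.restrictScalars_eq_top_iff _ _ _).1 h
  -- endomorphisms are scalars
  have hsch : ∀ φ : Module.End A (Fin r → K), ∃ c : K, ∀ v, φ v = c • v := by
    intro φ
    have hφ : ∀ (c : K) (v : Fin r → K), φ (c • v) = c • φ v := by
      intro c v
      have h1 := φ.map_smul (algebraMap K A c) v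
      exact h1
    let ψ : (Fin r → K) →ₗ[K] (Fin r → K) := { toFun := φ, map_add' := map_add φ, map_smul' := hφ }
    obtain ⟨c, hc⟩ := scal K r ι M hM (LinearMap.toMatrix' ψ) (fun i => by
      apply Matrix.toLin'.injective
      rw [Matrix.toLin'_mul, Matrix.toLin'_mul, Matrix.toLin'_toMatrix']
      refine LinearMap.ext fun v => ?_
      have h1 := φ.map_smul (⟨Matrix.toLin' (M i), hmem i⟩ : A) v
      exact h1)
    refine ⟨c, fun v => ?_⟩
    have h2 : ψ = Matrix.toLin' (c • (1 : Matrix (Fin r) (Fin r) K)) := by
      rw [← hc, Matrix.toLin'_toMatrix']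
    have h3 : φ v = ψ v := rfl
    rw [h3, h2]
    simp
  rw [eq_top_iff]
  intro g _
  let f : Module.End (Module.End A (Fin r → K)) (Fin r → K) :=
    { toFun := g
      map_add' := map_add g
      map_smul' := by
        intro φ v
        obtain ⟨c, hc⟩ := hsch φ
        change g (φ v) = φ (g v)
        rw [hc, hc, map_smul] }
  classical
  obtain ⟨a, ha⟩ := jacobson_density (R := A) (M := Fin r → K) f
    (Finset.univ.image fun i : Fin r => (Pi.single i (1 : K) : Fin r → K))
  have hga : g = (a : Module.End K (Fin r → K)) := by
    refine LinearMap.pi_ext' fun i => ?_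
    refine LinearMap.ext_ring ?_
    exact ha _ (Finset.mem_image.2 ⟨i, Finset.mem_univ _, rfl⟩)
  rw [hga]
  exact a.2

theorem burn : S_BURN.{u} := by
  intro K _ _ r m ι M hM f h1 hf
  rcases Nat.eq_zero_or_pos r with h0 | h0
  · subst h0
    simp
  · have hfull := full h0 hM
    set P := Submodule.span K (Set.range f) with hP
    have hst : ∀ i, ∀ x ∈ P, M i * x ∈ P := by
      intro i x hx
      induction hx using Submodule.span_induction with
      | mem x hx =>
        obtain ⟨j, rfl⟩ := hx
        exact hf i j
      | zero => simp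
      | add x y _ _ hx hy =>
        rw [mul_add]
        exact P.add_mem hx hy
      | smul c x _ hx =>
        rw [Matrix.mul_smul]
        exact P.smul_mem c hx
    have key : ∀ a ∈ Algebra.adjoin K (Set.range fun i => Matrix.toLin' (M i)),
        ∀ x ∈ P, LinearMap.toMatrix' a * x ∈ P := by
      intro a ha
      induction ha using Algebra.adjoin_induction with
      | mem a ha =>
        obtain ⟨i, rfl⟩ := ha
        intro x hx
        simp only [LinearMap.toMatrix'_toLin']
        exact hst i x hx
      | algebraMap c =>
        intro x hx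
        have h2 : LinearMap.toMatrix' (algebraMap K (Module.End K (Fin r → K)) c) =
            c • (1 : Matrix (Fin r) (Fin r) K) := by
          rw [Algebra.algebraMap_eq_smul_one, map_smul]
          congr 1
          exact LinearMap.toMatrix'_one
        rw [h2, Matrix.smul_mul, one_mul]
        exact P.smul_mem c hx
      | add a b _ _ ha hb =>
        intro x hx
        rw [map_add, add_mul]
        exact P.add_mem (ha x hx) (hb x hx)
      | mul a b _ _ ha hb =>
        intro x hx
        rw [LinearMap.toMatrix'_mul, mul_assoc]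
        exact ha _ (hb x hx)
    have hPtop : P = ⊤ := by
      rw [eq_top_iff]
      intro X _
      have h2 := key (Matrix.toLin' X) (by rw [hfull]; exact Algebra.mem_top) 1 h1
      rwa [LinearMap.toMatrix'_toLin', mul_one] at h2
    have h3 : Module.finrank K P ≤ m := by
      have := finrank_range_le_card (R := K) (b := f)
      rw [Fintype.card_fin] at this
      exact this
    rw [hPtop, finrank_top, Module.finrank_matrix, Fintype.card_fin, Module.finrank_self] at h3
    rw [sq]
    simpa using h3

end Pool.Agent.N858.DS
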