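import Pool.Agent.N858.R4.MDefs

set_option autoImplicit false

/-!
A condition on exponents: definition.
-/

namespace Pool.Agent.N858.DS

open Pool.Agent.N858.R4

/-- Two exponents at the same point which differ by an integer are equal. -/
def NoShift {X : Type*} {n : ℕ} (e : X → Fin n → ℚ) : Prop :=
  ∀ x l l', Cong (e x l) (e x l') → e x l = e x l'

end Pool.Agent.N858.DS
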