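import Mathlib

set_option autoImplicit false

/-!
Statements of project DS.
-/

namespace Pool.Agent.N858.DS

universe u

/-- The matrices `M i` have no common invariant subspace. -/
def Irr {K : Type*} [Field K] {r : ℕ} {ι : Type*} (M : ι → Matrix (Fin r) (Fin r) K) : Prop :=
  ∀ W : Submodule K (Fin r → K), (∀ i, ∀ w ∈ W, (M i).mulVec w ∈ W) → W = ⊥ ∨ W = ⊤

/-- Burnside's theorem: a space of matrices which contains `1` and is stable under the left
multiplication by the matrices of an irreducible family has dimension `r ^ 2`. -/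
def S_BURN : Prop :=
  ∀ (K : Type u) [Field K] [IsAlgClosed K] (r m : ℕ) (ι : Type) (M : ι → Matrix (Fin r) (Fin r) K),
    Irr M → ∀ f : Fin m → Matrix (Fin r) (Fin r) K,
      (1 : Matrix (Fin r) (Fin r) K) ∈ Submodule.span K (Set.range f) →
      (∀ i j, M i * f j ∈ Submodule.span K (Set.range f)) → r ^ 2 ≤ m

/-- Schur's lemma. -/
def S_SCAL : Prop :=
  ∀ (K : Type u) [Field K] [IsAlgClosed K] (r : ℕ) (ι : Type) (M : ι → Matrix (Fin r) (Fin r) K),
    Irr M → ∀ X : Matrix (Fin r) (Fin r) K, (∀ i, X * M i = M i * X) → ∃ c : K, X = c • 1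

/-- Four matrices with sum zero and scalar squares. -/
def S_D4 : Prop :=
  ∀ (K : Type u) [Field K] [IsAlgClosed K] (r : ℕ) (M : Fin 4 → Matrix (Fin r) (Fin r) K),
    Irr M → ∑ i, M i = 0 → (∃ c : Fin 4 → K, ∀ i, M i * M i = c i • 1) → r ≤ 2

/-- Three matrices with sum zero which satisfy reduced cubic equations. -/
def S_E6 : Prop :=
  ∀ (K : Type u) [Field K] [IsAlgClosed K] (r : ℕ) (M : Fin 3 → Matrix (Fin r) (Fin r) K),
    Irr M → ∑ i, M i = 0 →
    (∃ a b : Fin 3 → K, ∀ i, M i * (M i * M i) + a i • M i + b i • 1 = 0) → r ≤ 4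

end Pool.Agent.N858.DS
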