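import Pool.Agent.Y227.SS.Defs
import Pool.Agent.N858.DS.Stm

set_option autoImplicit false

/-!
The residues of an irreducible system have no common invariant subspace.
-/

open Polynomial Pool.Agent.W432.PC Pool.Agent.Y227.SS

namespace Pool.Agent.N858.DS

universe u

/-- Independent rows have a nonzero minor. -/
lemma exists_minor {K : Type*} [Field K] {s r : ℕ} {b : Fin s → Fin r → K}
    (hb : LinearIndependent K b) :
    ∃ J : Fin s → Fin r, (Matrix.of fun i c => b i (J c)).det ≠ 0 := by
  classical
  let M : Matrix (Fin s) (Fin r) K := Matrix.of b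
  let f : (Fin s → K) →ₗ[K] (Fin r → K) := M.vecMulLinear
  have hf : LinearMap.ker f = ⊥ := by
    rw [LinearMap.ker_eq_bot']
    intro v hv
    have h1 : ∑ i, v i • b i = 0 := by
      rw [← hv]
      ext l
      simp [f, M, Matrix.vecMul, dotProduct, Finset.sum_apply]
    exact funext fun i => Fintype.linearIndependent_iff.mp hb v h1 i
  obtain ⟨g, hg⟩ := LinearMap.exists_leftInverse_of_injective f hf
  let N : Matrix (Fin r) (Fin s) K := Matrix.of fun i c => g (Pi.single i 1) c
  have h1 : ∀ w : Fin r → K, g w = Matrix.vecMul w N := by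
    intro w
    have h2 : w = ∑ i, w i • Pi.single (M := fun _ => K) i 1 := by
      ext l
      simp [Finset.sum_apply, Pi.single_apply]
    conv_lhs => rw [h2]
    rw [map_sum]
    ext c
    simp [Finset.sum_apply, N, Matrix.vecMul, dotProduct]
  have h2 : M * N = 1 := by
    ext i c
    have h3 := LinearMap.congr_fun hg (Pi.single i 1)
    rw [LinearMap.comp_apply, h1, LinearMap.id_apply] at h3
    have h4 := congrFun h3 c
    have h5 : f (Pi.single i 1) = M i := by
      simp [f]
      rfl
    rw [h5] at h4
    rw [Matrix.mul_apply, Matrix.one_apply]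
    rw [Matrix.vecMul, dotProduct] at h4
    rw [h4, Pi.single_apply]
    by_cases hic : i = c
    · subst hic; simp
    · rw [if_neg (fun h => hic h.symm), if_neg hic]
  have h3 := det_mul_expand M N
  rw [h2, Matrix.det_one] at h3
  by_contra hcon
  push Not at hcon
  rw [Finset.sum_eq_zero] at h3
  · exact one_ne_zero h3
  · intro J _
    have h4 : (M.submatrix id J).det = 0 := hcon J
    rw [h4, mul_zero]

theorem irr_of_abs {R : Type u} [CommRing R] {n r : ℕ} {α : Fin n → R}
    {A : Fin n → Matrix (Fin r) (Fin r) R} (h : AbsIrreducible α A) (K : Type u) [Field K]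
    (φ : R →+* K) (hφ : Function.Injective φ) : Irr (fun j : Fin n => (A j).map φ) := by
  classical
  intro W hW
  by_contra hcon
  push Not at hcon
  obtain ⟨hbot, htop⟩ := hcon
  have hs0 : 0 < Module.finrank K W := by
    rw [Module.finrank_pos_iff]
    exact (Submodule.nontrivial_iff_ne_bot).mpr hbot
  have hsr : Module.finrank K W < r := by
    have h1 := Submodule.finrank_lt htop
    rwa [Module.finrank_fin_fun] at h1
  refine h K φ hφ _ hs0 hsr ?_
  let b := Module.finBasis K W
  have hb : LinearIndependent K (fun i => (b i : Fin r → K)) :=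
    b.linearIndependent.map' W.subtype (Submodule.ker_subtype W)
  obtain ⟨J, hJ⟩ := exists_minor hb
  choose g hg using fun (j : Fin n) (i : Fin (Module.finrank K W)) =>
    show ∃ g : Fin (Module.finrank K W) → K,
      ((A j).map φ).mulVec (b i : Fin r → K) = ∑ k, g k • (b k : Fin r → K) from by
    have h1 : ((A j).map φ).mulVec (b i : Fin r → K) ∈ W := hW j _ (b i).2
    refine ⟨fun k => b.repr ⟨_, h1⟩ k, ?_⟩
    have h2 := b.sum_repr ⟨_, h1⟩
    have h3 := congrArg (W.subtype) h2
    rw [map_sum] at h3
    simp only [map_smul, Submodule.subtype_apply] at h3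
    exact h3.symm
  refine ⟨Matrix.of fun i l => C ((b i : Fin r → K) l), ⟨J, ?_⟩, 1,
    Matrix.of fun i k => -∑ j, Tc (fun j => φ (α j)) j * C (g j i k), one_ne_zero, ?_⟩
  · unfold mnr
    have h1 : ((Matrix.of fun i l => C ((b i : Fin r → K) l) :
        Matrix (Fin (Module.finrank K W)) (Fin r) K[X]).submatrix id J) =
        (Matrix.of fun i c => (b i : Fin r → K) (J c)).map C := by
      ext i c
      simp
    rw [h1]
    have h2 := RingHom.map_det (C : K →+* K[X]) (Matrix.of fun i c => (b i : Fin r → K) (J c))
    rw [RingHom.mapMatrix_apply] at h2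
    rw [← h2]
    exact C_ne_zero.mpr hJ
  · rw [one_smul]
    ext1 i l
    unfold opRows
    rw [Matrix.mul_apply]
    simp only [Matrix.of_apply, derivative_C, mul_zero, zero_sub]
    rw [mulVec_B]
    have h1 : ∀ j, ∑ m, C ((fun j => (A j).map φ) j l m) * C ((b i : Fin r → K) m) =
        ∑ k, C (g j i k) * C ((b k : Fin r → K) l) := by
      intro j
      have h2 := congrFun (hg j i) l
      rw [Finset.sum_apply] at h2
      simp only [Matrix.mulVec, dotProduct, Pi.smul_apply, smul_eq_mul] at h2
      have h3 := congrArg (C : K → K[X]) h2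
      rw [map_sum, map_sum] at h3
      simp only [C_mul] at h3
      exact h3
    have h4 : ∑ j, Tc (fun j => φ (α j)) j * ∑ m, C ((fun j => (A j).map φ) j l m) *
        C ((b i : Fin r → K) m) = ∑ j, Tc (fun j => φ (α j)) j *
          ∑ k, C (g j i k) * C ((b k : Fin r → K) l) :=
      Finset.sum_congr rfl fun j _ => by rw [← h1 j]
    refine (congrArg Neg.neg h4).trans ?_
    simp only [neg_mul, Finset.sum_neg_distrib, Finset.sum_mul, Finset.mul_sum]
    rw [Finset.sum_comm]
    congr 1
    refine Finset.sum_congr rfl fun k _ => Finset.sum_congr rfl fun j _ => ?_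
    ring

end Pool.Agent.N858.DS
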