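import Pool.Agent.N858.DS.Semi
import Pool.Agent.N858.DS.IrrS
import Pool.Agent.N858.DS.Defs
import Pool.Agent.N858.R3.Idx
import Pool.Agent.N858.PC.FinalSys

set_option autoImplicit false

/-!
Systems of exceptional type with semisimple residues whose eigenvalues do not differ by nonzero
integers have rank two or three.
-/

open Polynomial Pool.Agent.W432.PC Pool.Agent.Y227.SS

namespace Pool.Agent.N858.DS

open Pool.Agent.N858.PC Pool.Agent.N858.R4 Pool.Agent.N858.R3

universe u

section vals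

variable {X : Type*} {n : ℕ} {e : X → Fin n → ℚ}

lemma mult_eq_card (hNS : NoShift e) (x : X) (k : Fin n) :
    mult e x k = (Finset.univ.filter fun l => e x l = e x k).card := by
  classical
  unfold mult
  congr 1
  ext l
  simp only [Finset.mem_filter, Finset.mem_univ, true_and]
  constructor
  · intro h
    exact (hNS x k l h).symm
  · intro h
    exact ⟨0, by rw [h]; simp⟩

lemma fib (hNS : NoShift e) {x : X} {μ : ℕ} (h : ∀ k, mult e x k = μ) (F : ℚ → ℚ) :
    ∑ l, F (e x l) = μ * ∑ c ∈ Finset.univ.image (e x), F c := by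
  classical
  rw [Finset.sum_comp F (e x), Finset.mul_sum]
  refine Finset.sum_congr rfl fun c hc => ?_
  obtain ⟨k, -, rfl⟩ := Finset.mem_image.mp hc
  rw [← mult_eq_card hNS x k, h k, nsmul_eq_mul]

lemma card_image (hNS : NoShift e) {x : X} {μ : ℕ} (h : ∀ k, mult e x k = μ) :
    n = μ * (Finset.univ.image (e x)).card := by
  have h1 := fib hNS h (fun _ => 1)
  simp only [Finset.sum_const, nsmul_eq_mul, mul_one, Finset.card_univ, Fintype.card_fin] at h1
  exact_mod_cast h1

lemma two_vals (hn : 0 < n) (hNS : NoShift e) {x : X} (h : ∀ k, 2 * mult e x k = n) :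
    ∃ a b : ℚ, (∀ l, e x l = a ∨ e x l = b) ∧ 2 * ∑ l, e x l = n * (a + b) := by
  classical
  have h0 : ∀ k, mult e x k = n / 2 := fun k => by have := h k; omega
  have h1 := card_image hNS h0
  have h2 : 2 * (n / 2) = n := by have := h ⟨0, hn⟩; omega
  have h3 : (Finset.univ.image (e x)).card = 2 := by
    have h4 : n / 2 * (Finset.univ.image (e x)).card = n / 2 * 2 := by omega
    exact Nat.eq_of_mul_eq_mul_left (by omega) h4
  obtain ⟨a, b, hab, hI⟩ := Finset.card_eq_two.mp h3
  refine ⟨a, b, fun l => ?_, ?_⟩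
  · have h5 : e x l ∈ Finset.univ.image (e x) := Finset.mem_image_of_mem _ (Finset.mem_univ l)
    rw [hI] at h5
    simpa using h5
  · have h5 := fib hNS h0 id
    rw [hI, Finset.sum_pair hab] at h5
    simp only [id] at h5
    rw [h5]
    have h6 : (n : ℚ) = 2 * ((n / 2 : ℕ) : ℚ) := by exact_mod_cast h2.symm
    rw [h6]
    ring

lemma three_vals (hn : 0 < n) (hNS : NoShift e) {x : X} (h : ∀ k, 3 * mult e x k = n) :
    ∃ a b c : ℚ, (∀ l, e x l = a ∨ e x l = b ∨ e x l = c) ∧
      3 * ∑ l, e x l = n * (a + b + c) := by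
  classical
  have h0 : ∀ k, mult e x k = n / 3 := fun k => by have := h k; omega
  have h1 := card_image hNS h0
  have h2 : 3 * (n / 3) = n := by have := h ⟨0, hn⟩; omega
  have h3 : (Finset.univ.image (e x)).card = 3 := by
    have h4 : n / 3 * (Finset.univ.image (e x)).card = n / 3 * 3 := by omega
    exact Nat.eq_of_mul_eq_mul_left (by omega) h4
  obtain ⟨a, b, c, hab, hac, hbc, hI⟩ := Finset.card_eq_three.mp h3
  refine ⟨a, b, c, fun l => ?_, ?_⟩
  · have h5 : e x l ∈ Finset.univ.image (e x) := Finset.mem_image_of_mem _ (Finset.mem_univ l)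
    rw [hI] at h5
    simpa using h5
  · have h5 := fib hNS h0 id
    rw [hI, Finset.sum_insert (by simp [hab, hac]), Finset.sum_pair hbc] at h5
    simp only [id] at h5
    rw [h5]
    have h6 : (n : ℚ) = 3 * ((n / 3 : ℕ) : ℚ) := by exact_mod_cast h2.symm
    rw [h6]
    ring

end vals

section ann

variable {K : Type*} [Field K] [CharZero K] {r : ℕ}

/-- A matrix annihilated by `qpoly` is annihilated by all polynomials which vanish at the `f l`. -/
lemma ann_of_qpoly {N : ℕ} (hN : 0 < N) {m : Fin r → ℤ} {f : Fin r → ℚ}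
    (hm : ∀ l, (N : ℚ) * f l = m l) {M : Matrix (Fin r) (Fin r) K}
    (h : aeval M (qpoly N m) = 0) (q : K[X]) (hq : ∀ l, q.eval ((f l : ℚ) : K) = 0) :
    aeval M q = 0 := by
  classical
  have hNK : (N : K) ≠ 0 := Nat.cast_ne_zero.mpr hN.ne'
  have h1 : (qpoly N m).map (algebraMap ℤ K) =
      ∏ c ∈ Finset.univ.image m, (C (N : K) * X - C ((c : ℤ) : K)) := by
    unfold qpoly
    rw [Polynomial.map_prod]
    refine Finset.prod_congr rfl fun c _ => ?_
    simp
  have h2 : (∏ c ∈ Finset.univ.image m, (C (N : K) * X - C ((c : ℤ) : K))) ∣ q := by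
    refine Finset.prod_dvd_of_coprime ?_ ?_
    · intro c _ c' _ hcc
      have hne : ((c' - c : ℤ) : K) ≠ 0 := Int.cast_ne_zero.mpr (sub_ne_zero.mpr hcc.symm)
      refine ⟨C (((c' - c : ℤ) : K)⁻¹), -C (((c' - c : ℤ) : K)⁻¹), ?_⟩
      have h3 : C (((c' - c : ℤ) : K)⁻¹) * C ((c' : ℤ) : K) -
          C (((c' - c : ℤ) : K)⁻¹) * C ((c : ℤ) : K) = 1 := by
        rw [← C_mul, ← C_mul, ← C_sub, ← mul_sub, ← Int.cast_sub, inv_mul_cancel₀ hne, C_1]
      linear_combination h3
    · intro c hc
      obtain ⟨l, -, rfl⟩ := Finset.mem_image.mp hc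
      have h3 : (C (N : K) * X - C ((m l : ℤ) : K)) = C (N : K) * (X - C ((f l : ℚ) : K)) := by
        have h4 : (N : K) * ((f l : ℚ) : K) = ((m l : ℤ) : K) := by
          exact_mod_cast congrArg (fun x : ℚ => (x : K)) (hm l)
        rw [mul_sub, ← C_mul, h4]
      rw [h3]
      have h5 : (X - C ((f l : ℚ) : K)) ∣ q := dvd_iff_isRoot.mpr (hq l)
      exact (isUnit_C.mpr (isUnit_iff_ne_zero.mpr hNK)).mul_left_dvd.mpr h5
  obtain ⟨t, rfl⟩ := h2
  rw [map_mul, ← h1, Polynomial.aeval_map_algebraMap, h, zero_mul]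

end ann

end Pool.Agent.N858.DS
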