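import Pool.Agent.N858.DS.Stm

set_option autoImplicit false

/-!
Four matrices with sum zero and scalar squares (project DS, part D4).
-/

namespace Pool.Agent.N858.DS

universe u

namespace D4

variable {K : Type u} [Field K] {r : ℕ}

theorem comm_self (X Y : Matrix (Fin r) (Fin r) K) (c : K) (hX : X * X = c • 1) :
    (X * Y + Y * X) * X = X * (X * Y + Y * X) := by
  rw [add_mul, mul_add, mul_assoc Y X X, hX, ← mul_assoc X X Y, hX, mul_assoc X Y X,
    Matrix.mul_smul, Matrix.smul_mul, Matrix.mul_one, Matrix.one_mul, add_comm]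

/-- the anticommutator commutes with the four matrices -/
theorem comm_all (A B C D : Matrix (Fin r) (Fin r) K) (a b c d : K) (hA : A * A = a • 1)
    (hB : B * B = b • 1) (hC : C * C = c • 1) (hD : D * D = d • 1) (hs : A + B + C + D = 0) :
    (A * B + B * A) * A = A * (A * B + B * A) ∧ (A * B + B * A) * B = B * (A * B + B * A) ∧
    (A * B + B * A) * C = C * (A * B + B * A) ∧ (A * B + B * A) * D = D * (A * B + B * A) := by
  have h1 := comm_self A B a hA
  have h2 : (A * B + B * A) * B = B * (A * B + B * A) := by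
    have := comm_self B A b hB
    rwa [add_comm (B * A) (A * B)] at this
  have hD' : D = -(A + B + C) := by
    rw [eq_neg_iff_add_eq_zero, add_comm]
    exact hs
  have hP : A * B + B * A = (d - a - b - c) • (1 : Matrix (Fin r) (Fin r) K) -
      (C * (A + B) + (A + B) * C) := by
    have h3 : (A + B + C) * (A + B + C) = d • 1 := by
      rw [hD', neg_mul_neg] at hD
      exact hD
    have h4 : (A + B + C) * (A + B + C) = A * A + B * B + C * C + (A * B + B * A) +
        (C * (A + B) + (A + B) * C) := by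
      simp only [add_mul, mul_add]
      abel
    rw [h4, hA, hB, hC] at h3
    rw [eq_sub_iff_add_eq, sub_smul, sub_smul, sub_smul, ← h3]
    abel
  have h5 := comm_self C (A + B) c hC
  have h6 : (A * B + B * A) * C = C * (A * B + B * A) := by
    rw [hP, sub_mul, mul_sub, h5, Matrix.smul_mul, Matrix.mul_smul, Matrix.one_mul, Matrix.mul_one]
  refine ⟨h1, h2, h6, ?_⟩
  obtain ⟨P, hPd⟩ : ∃ P, P = A * B + B * A := ⟨_, rfl⟩
  rw [← hPd] at h1 h2 h6 ⊢
  rw [hD', mul_neg, neg_mul, mul_add, mul_add, add_mul, add_mul, h1, h2, h6]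

end D4

open D4 in
theorem d4 (hB : S_BURN.{u}) (hS : S_SCAL.{u}) : S_D4.{u} := by
  intro K _ _ r M hirr hsum hsq
  obtain ⟨c, hc⟩ := hsq
  obtain ⟨X, hXd⟩ : ∃ X, X = M 0 := ⟨_, rfl⟩
  obtain ⟨Y, hYd⟩ : ∃ Y, Y = M 1 := ⟨_, rfl⟩
  obtain ⟨Z, hZd⟩ : ∃ Z, Z = M 2 := ⟨_, rfl⟩
  obtain ⟨W, hWd⟩ : ∃ W, W = M 3 := ⟨_, rfl⟩
  have hX : X * X = c 0 • 1 := by rw [hXd]; exact hc 0
  have hY : Y * Y = c 1 • 1 := by rw [hYd]; exact hc 1
  have hZ : Z * Z = c 2 • 1 := by rw [hZd]; exact hc 2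
  have hW : W * W = c 3 • 1 := by rw [hWd]; exact hc 3
  have hs : X + Y + Z + W = 0 := by
    rw [hXd, hYd, hZd, hWd, ← hsum, Fin.sum_univ_four]
  have hWe : W = -(X + Y + Z) := by
    rw [eq_neg_iff_add_eq_zero, add_comm]
    exact hs
  have hall : ∀ P : Matrix (Fin r) (Fin r) K, P * X = X * P → P * Y = Y * P → P * Z = Z * P →
      P * W = W * P → ∃ x : K, P = x • 1 := by
    intro P h0 h1 h2 h3
    refine hS K r (Fin 4) M hirr P fun i => ?_
    fin_cases i
    · show P * M 0 = M 0 * P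
      rw [← hXd]; exact h0
    · show P * M 1 = M 1 * P
      rw [← hYd]; exact h1
    · show P * M 2 = M 2 * P
      rw [← hZd]; exact h2
    · show P * M 3 = M 3 * P
      rw [← hWd]; exact h3
  obtain ⟨x01, h01⟩ : ∃ x : K, X * Y + Y * X = x • 1 := by
    obtain ⟨a1, a2, a3, a4⟩ := comm_all X Y Z W _ _ _ _ hX hY hZ hW hs
    exact hall _ a1 a2 a3 a4
  obtain ⟨x02, h02⟩ : ∃ x : K, X * Z + Z * X = x • 1 := by
    obtain ⟨a1, a2, a3, a4⟩ := comm_all X Z Y W _ _ _ _ hX hZ hY hW (by rw [← hs]; abel)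
    exact hall _ a1 a3 a2 a4
  obtain ⟨x12, h12⟩ : ∃ x : K, Y * Z + Z * Y = x • 1 := by
    obtain ⟨a1, a2, a3, a4⟩ := comm_all Y Z X W _ _ _ _ hY hZ hX hW (by rw [← hs]; abel)
    exact hall _ a3 a1 a2 a4
  have r10 : Y * X = x01 • 1 - X * Y := by rw [← h01]; abel
  have r20 : Z * X = x02 • 1 - X * Z := by rw [← h02]; abel
  have r21 : Z * Y = x12 • 1 - Y * Z := by rw [← h12]; abel
  -- the same rules with a factor on the right
  have sX : ∀ T, X * (X * T) = c 0 • T := fun T => by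
    rw [← mul_assoc, hX, Matrix.smul_mul, Matrix.one_mul]
  have sY : ∀ T, Y * (Y * T) = c 1 • T := fun T => by
    rw [← mul_assoc, hY, Matrix.smul_mul, Matrix.one_mul]
  have sZ : ∀ T, Z * (Z * T) = c 2 • T := fun T => by
    rw [← mul_assoc, hZ, Matrix.smul_mul, Matrix.one_mul]
  have t10 : ∀ T, Y * (X * T) = x01 • T - X * (Y * T) := fun T => by
    rw [← mul_assoc, r10, sub_mul, Matrix.smul_mul, Matrix.one_mul, mul_assoc]
  have t20 : ∀ T, Z * (X * T) = x02 • T - X * (Z * T) := fun T => by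
    rw [← mul_assoc, r20, sub_mul, Matrix.smul_mul, Matrix.one_mul, mul_assoc]
  have t21 : ∀ T, Z * (Y * T) = x12 • T - Y * (Z * T) := fun T => by
    rw [← mul_assoc, r21, sub_mul, Matrix.smul_mul, Matrix.one_mul, mul_assoc]
  obtain ⟨f, hf⟩ : ∃ f : Fin 8 → Matrix (Fin r) (Fin r) K,
      f = ![1, Z, Y, Y * Z, X, X * Z, X * Y, X * (Y * Z)] := ⟨_, rfl⟩
  obtain ⟨S, hSd⟩ : ∃ S, S = Submodule.span K (Set.range f) := ⟨_, rfl⟩
  have hm : ∀ j, f j ∈ S := fun j => by
    rw [hSd]
    exact Submodule.subset_span (Set.mem_range_self j)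
  have m0 : (1 : Matrix (Fin r) (Fin r) K) ∈ S := by have := hm 0; rw [hf] at this; exact this
  have m1 : Z ∈ S := by have := hm 1; rw [hf] at this; exact this
  have m2 : Y ∈ S := by have := hm 2; rw [hf] at this; exact this
  have m3 : Y * Z ∈ S := by have := hm 3; rw [hf] at this; exact this
  have m4 : X ∈ S := by have := hm 4; rw [hf] at this; exact this
  have m5 : X * Z ∈ S := by have := hm 5; rw [hf] at this; exact this
  have m6 : X * Y ∈ S := by have := hm 6; rw [hf] at this; exact this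
  have m7 : X * (Y * Z) ∈ S := by have := hm 7; rw [hf] at this; exact this
  have hstep : ∀ A : Matrix (Fin r) (Fin r) K, A * 1 ∈ S → A * Z ∈ S → A * Y ∈ S →
      A * (Y * Z) ∈ S → A * X ∈ S → A * (X * Z) ∈ S → A * (X * Y) ∈ S → A * (X * (Y * Z)) ∈ S →
      ∀ j, A * f j ∈ S := by
    intro A a0 a1 a2 a3 a4 a5 a6 a7 j
    rw [hf]
    fin_cases j
    · exact a0
    · exact a1
    · exact a2
    · exact a3
    · exact a4
    · exact a5
    · exact a6
    · exact a7
  have hXf : ∀ j, X * f j ∈ S := by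
    apply hstep
    · rw [mul_one]; exact m4
    · exact m5
    · exact m6
    · exact m7
    · rw [hX]; exact S.smul_mem _ m0
    · rw [sX]; exact S.smul_mem _ m1
    · rw [sX]; exact S.smul_mem _ m2
    · rw [sX]; exact S.smul_mem _ m3
  have hYf : ∀ j, Y * f j ∈ S := by
    apply hstep
    · rw [mul_one]; exact m2
    · exact m3
    · rw [hY]; exact S.smul_mem _ m0
    · rw [sY]; exact S.smul_mem _ m1
    · rw [r10]; exact S.sub_mem (S.smul_mem _ m0) m6
    · rw [t10]; exact S.sub_mem (S.smul_mem _ m1) m7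
    · rw [t10, hY, Matrix.mul_smul, Matrix.mul_one]
      exact S.sub_mem (S.smul_mem _ m2) (S.smul_mem _ m4)
    · rw [t10, sY, Matrix.mul_smul]
      exact S.sub_mem (S.smul_mem _ m3) (S.smul_mem _ m5)
  have hZf : ∀ j, Z * f j ∈ S := by
    apply hstep
    · rw [mul_one]; exact m1
    · rw [hZ]; exact S.smul_mem _ m0
    · rw [r21]; exact S.sub_mem (S.smul_mem _ m0) m3
    · rw [t21, hZ, Matrix.mul_smul, Matrix.mul_one]
      exact S.sub_mem (S.smul_mem _ m1) (S.smul_mem _ m2)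
    · rw [r20]; exact S.sub_mem (S.smul_mem _ m0) m5
    · rw [t20, hZ, Matrix.mul_smul, Matrix.mul_one]
      exact S.sub_mem (S.smul_mem _ m1) (S.smul_mem _ m4)
    · rw [t20, r21, mul_sub, Matrix.mul_smul, Matrix.mul_one]
      exact S.sub_mem (S.smul_mem _ m2) (S.sub_mem (S.smul_mem _ m4) m7)
    · rw [t20, t21, hZ, mul_sub, Matrix.mul_smul, Matrix.mul_smul, Matrix.mul_smul, Matrix.mul_one]
      exact S.sub_mem (S.smul_mem _ m3) (S.sub_mem (S.smul_mem _ m5) (S.smul_mem _ m6))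
  have hmain : ∀ i j, M i * f j ∈ S := by
    intro i j
    fin_cases i
    · show M 0 * f j ∈ S
      rw [← hXd]; exact hXf j
    · show M 1 * f j ∈ S
      rw [← hYd]; exact hYf j
    · show M 2 * f j ∈ S
      rw [← hZd]; exact hZf j
    · show M 3 * f j ∈ S
      rw [← hWd, hWe, neg_mul, add_mul, add_mul]
      exact S.neg_mem (S.add_mem (S.add_mem (hXf j) (hYf j)) (hZf j))
  rw [hSd] at m0 hmain
  have h8 := hB K r 8 (Fin 4) M hirr f m0 hmain
  by_contra hr
  push Not at hr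
  nlinarith

end Pool.Agent.N858.DS
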