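import Pool.Agent.N858.DS.Stm

set_option autoImplicit false

/-!
Project DS (helper858), part E6: three matrices with sum zero and cubic equations, by helper602.
-/

namespace Pool.Agent.N858.DS

universe u

namespace E6Aux

variable {K : Type*} [Field K] {R : Type*} [Ring R] [Algebra K R]

/-- the four rules -/
structure Rul (A B : R) (a0 a1 b0 b1 s z z' : K) : Prop where
  h1 : A * (A * A) = -(a0 • A) - b0 • (1 : R)
  h2 : B * (B * B) = -(a1 • B) - b1 • (1 : R)
  h3 : B * (A * A) = -(A * (A * B)) - A * (B * A) - a0 • B - s • A + z • (1 : R)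
  h4 : B * (B * A) = -(A * (B * B)) - B * (A * B) - s • B - a1 • A + z' • (1 : R)

/-- the central element -/
def rho (A B : R) (a0 a1 s : K) : R :=
  B * (A * (B * A)) - A * (A * (B * B)) + s • (B * A) - a1 • (A * A) - a0 • (B * B)

variable {A B : R} {a0 a1 b0 b1 s z z' : K}

theorem Rul.h1x (h : Rul A B a0 a1 b0 b1 s z z') (x : R) :
    A * (A * (A * x)) = -(a0 • (A * x)) - b0 • x := by
  have e : A * (A * (A * x)) = (A * (A * A)) * x := by simp only [mul_assoc]
  rw [e, h.h1]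
  simp only [sub_mul, neg_mul, smul_mul_assoc, one_mul]

theorem Rul.h2x (h : Rul A B a0 a1 b0 b1 s z z') (x : R) :
    B * (B * (B * x)) = -(a1 • (B * x)) - b1 • x := by
  have e : B * (B * (B * x)) = (B * (B * B)) * x := by simp only [mul_assoc]
  rw [e, h.h2]
  simp only [sub_mul, neg_mul, smul_mul_assoc, one_mul]

theorem Rul.h3x (h : Rul A B a0 a1 b0 b1 s z z') (x : R) :
    B * (A * (A * x)) = -(A * (A * (B * x))) - A * (B * (A * x)) - a0 • (B * x) - s • (A * x) + z • x := by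
  have e : B * (A * (A * x)) = (B * (A * A)) * x := by simp only [mul_assoc]
  rw [e, h.h3]
  simp only [sub_mul, add_mul, neg_mul, smul_mul_assoc, one_mul, mul_assoc]

theorem Rul.h4x (h : Rul A B a0 a1 b0 b1 s z z') (x : R) :
    B * (B * (A * x)) = -(A * (B * (B * x))) - B * (A * (B * x)) - s • (B * x) - a1 • (A * x) + z' • x := by
  have e : B * (B * (A * x)) = (B * (B * A)) * x := by simp only [mul_assoc]
  rw [e, h.h4]
  simp only [sub_mul, add_mul, neg_mul, smul_mul_assoc, one_mul, mul_assoc]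

theorem rho_A (h : Rul A B a0 a1 b0 b1 s z z') : rho A B a0 a1 s * A = A * rho A B a0 a1 s := by
  unfold rho
  simp only [mul_add, add_mul, mul_sub, sub_mul, mul_assoc, smul_mul_assoc, mul_smul_comm, mul_neg, neg_mul,
    mul_one, one_mul, h.h1, h.h2, h.h3, h.h4, h.h1x, h.h2x, h.h3x, h.h4x]
  module

theorem rho_B (h : Rul A B a0 a1 b0 b1 s z z') : rho A B a0 a1 s * B = B * rho A B a0 a1 s := by
  unfold rho
  simp only [mul_add, add_mul, mul_sub, sub_mul, mul_assoc, smul_mul_assoc, mul_smul_comm, mul_neg, neg_mul,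
    mul_one, one_mul, h.h1, h.h2, h.h3, h.h4, h.h1x, h.h2x, h.h3x, h.h4x]
  module

theorem clos (h : Rul A B a0 a1 b0 b1 s z z') {c : K}
    (h5 : B * (A * (B * A)) = A * (A * (B * B)) - s • (B * A) + a1 • (A * A) + a0 • (B * B) + c • (1 : R))
    (P : Submodule K R)
    (w0 : (1 : R) ∈ P)
    (w1 : B ∈ P)
    (w2 : B * B ∈ P)
    (w3 : A ∈ P)
    (w4 : A * B ∈ P)
    (w5 : A * (B * B) ∈ P)
    (w6 : A * A ∈ P)
    (w7 : A * (A * B) ∈ P)
    (w8 : A * (A * (B * B)) ∈ P)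
    (w9 : B * A ∈ P)
    (w10 : B * (A * B) ∈ P)
    (w11 : B * (A * (B * B)) ∈ P)
    (w12 : A * (B * A) ∈ P)
    (w13 : A * (B * (A * B)) ∈ P)
    (w14 : A * (B * (A * (B * B))) ∈ P)
    (w15 : A * (A * (B * A)) ∈ P)
    (w16 : A * (A * (B * (A * B))) ∈ P)
    (w17 : A * (A * (B * (A * (B * B)))) ∈ P) :
    (A * 1 ∈ P ∧ B * 1 ∈ P) ∧
    (A * B ∈ P ∧ B * B ∈ P) ∧
    (A * (B * B) ∈ P ∧ B * (B * B) ∈ P) ∧
    (A * A ∈ P ∧ B * A ∈ P) ∧
    (A * (A * B) ∈ P ∧ B * (A * B) ∈ P) ∧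
    (A * (A * (B * B)) ∈ P ∧ B * (A * (B * B)) ∈ P) ∧
    (A * (A * A) ∈ P ∧ B * (A * A) ∈ P) ∧
    (A * (A * (A * B)) ∈ P ∧ B * (A * (A * B)) ∈ P) ∧
    (A * (A * (A * (B * B))) ∈ P ∧ B * (A * (A * (B * B))) ∈ P) ∧
    (A * (B * A) ∈ P ∧ B * (B * A) ∈ P) ∧
    (A * (B * (A * B)) ∈ P ∧ B * (B * (A * B)) ∈ P) ∧
    (A * (B * (A * (B * B))) ∈ P ∧ B * (B * (A * (B * B))) ∈ P) ∧
    (A * (A * (B * A)) ∈ P ∧ B * (A * (B * A)) ∈ P) ∧
    (A * (A * (B * (A * B))) ∈ P ∧ B * (A * (B * (A * B))) ∈ P) ∧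
    (A * (A * (B * (A * (B * B)))) ∈ P ∧ B * (A * (B * (A * (B * B)))) ∈ P) ∧
    (A * (A * (A * (B * A))) ∈ P ∧ B * (A * (A * (B * A))) ∈ P) ∧
    (A * (A * (A * (B * (A * B)))) ∈ P ∧ B * (A * (A * (B * (A * B)))) ∈ P) ∧
    (A * (A * (A * (B * (A * (B * B))))) ∈ P ∧ B * (A * (A * (B * (A * (B * B))))) ∈ P) := by
  have h5x : ∀ x : R, B * (A * (B * (A * x))) = A * (A * (B * (B * x))) - s • (B * (A * x)) + a1 • (A * (A * x)) +
      a0 • (B * (B * x)) + c • x := by
    intro x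
    have e : B * (A * (B * (A * x))) = (B * (A * (B * A))) * x := by simp only [mul_assoc]
    rw [e, h5]
    simp only [sub_mul, add_mul, smul_mul_assoc, one_mul, mul_assoc]
  refine ⟨⟨?_, ?_⟩, ⟨?_, ?_⟩, ⟨?_, ?_⟩, ⟨?_, ?_⟩, ⟨?_, ?_⟩, ⟨?_, ?_⟩, ⟨?_, ?_⟩, ⟨?_, ?_⟩, ⟨?_, ?_⟩, ⟨?_, ?_⟩, ⟨?_, ?_⟩, ⟨?_, ?_⟩, ⟨?_, ?_⟩, ⟨?_, ?_⟩, ⟨?_, ?_⟩, ⟨?_, ?_⟩, ⟨?_, ?_⟩, ⟨?_, ?_⟩⟩
  all_goals try simp only [mul_add, add_mul, mul_sub, sub_mul, mul_assoc, smul_mul_assoc, mul_smul_comm, mul_neg, neg_mul,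
    mul_one, one_mul, h.h1, h.h2, h.h3, h.h4, h.h1x, h.h2x, h.h3x, h.h4x, h5, h5x]
  all_goals repeat' first
    | assumption
    | apply P.add_mem
    | apply P.sub_mem
    | apply P.neg_mem
    | apply P.smul_mem

end E6Aux

open E6Aux in
theorem e6 (hB : S_BURN.{u}) (hS : S_SCAL.{u}) : S_E6.{u} := by
  intro K _ _ r M hI hsum ⟨a, b, hab⟩
  obtain ⟨A, hA⟩ : ∃ A, A = M 0 := ⟨_, rfl⟩
  obtain ⟨B, hBM⟩ : ∃ B, B = M 1 := ⟨_, rfl⟩
  have hC : M 2 = -(A + B) := by
    rw [Fin.sum_univ_three] at hsum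
    rw [hA, hBM]
    exact (neg_eq_of_add_eq_zero_right hsum).symm
  have h1 : A * (A * A) = -(a 0 • A) - b 0 • (1 : Matrix (Fin r) (Fin r) K) := by
    have h := hab 0
    rw [← hA] at h
    rw [add_assoc] at h
    rw [eq_neg_of_add_eq_zero_left h]
    module
  have h2 : B * (B * B) = -(a 1 • B) - b 1 • (1 : Matrix (Fin r) (Fin r) K) := by
    have h := hab 1
    rw [← hBM] at h
    rw [add_assoc] at h
    rw [eq_neg_of_add_eq_zero_left h]
    module
  have h1x : ∀ x : Matrix (Fin r) (Fin r) K, A * (A * (A * x)) = -(a 0 • (A * x)) - b 0 • x := by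
    intro x
    have e : A * (A * (A * x)) = (A * (A * A)) * x := by simp only [mul_assoc]
    rw [e, h1]
    simp only [sub_mul, neg_mul, smul_mul_assoc, one_mul]
  have h2x : ∀ x : Matrix (Fin r) (Fin r) K, B * (B * (B * x)) = -(a 1 • (B * x)) - b 1 • x := by
    intro x
    have e : B * (B * (B * x)) = (B * (B * B)) * x := by simp only [mul_assoc]
    rw [e, h2]
    simp only [sub_mul, neg_mul, smul_mul_assoc, one_mul]
  obtain ⟨s, hs⟩ : ∃ s : K, s = a 2 - a 0 - a 1 := ⟨_, rfl⟩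
  obtain ⟨Z, hZ⟩ : ∃ Z, Z = A * (A * B) + A * (B * A) + B * (A * A) + s • A + a 0 • B := ⟨_, rfl⟩
  obtain ⟨Z', hZ'⟩ : ∃ Z', Z' = A * (B * B) + B * (A * B) + B * (B * A) + s • B + a 1 • A := ⟨_, rfl⟩
  have hZZ : Z + Z' = (b 0 + b 1 + b 2) • (1 : Matrix (Fin r) (Fin r) K) := by
    have h := hab 2
    rw [hC] at h
    have e : Z + Z' - (b 0 + b 1 + b 2) • (1 : Matrix (Fin r) (Fin r) K) =
        -(-(A + B) * (-(A + B) * -(A + B)) + a 2 • -(A + B) + b 2 • (1 : Matrix (Fin r) (Fin r) K)) := by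
      rw [hZ, hZ', hs]
      simp only [mul_add, add_mul, mul_assoc, mul_neg, neg_mul, h1, h2]
      module
    rw [h, neg_zero] at e
    exact sub_eq_zero.1 e
  have hZA : Z * A = A * Z := by
    rw [hZ]
    simp only [mul_add, add_mul, mul_sub, sub_mul, mul_assoc, smul_mul_assoc, mul_smul_comm, mul_neg, neg_mul,
      mul_one, one_mul, h1, h1x]
    module
  have hZB' : Z' * B = B * Z' := by
    rw [hZ']
    simp only [mul_add, add_mul, mul_sub, sub_mul, mul_assoc, smul_mul_assoc, mul_smul_comm, mul_neg, neg_mul,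
      mul_one, one_mul, h2, h2x]
    module
  have hZB : Z * B = B * Z := by
    have e : Z = (b 0 + b 1 + b 2) • (1 : Matrix (Fin r) (Fin r) K) - Z' := by
      rw [← hZZ]
      abel
    rw [e, sub_mul, mul_sub, hZB', smul_mul_assoc, mul_smul_comm, one_mul, mul_one]
  have hcen : ∀ X : Matrix (Fin r) (Fin r) K, X * A = A * X → X * B = B * X →
      ∃ c : K, X = c • (1 : Matrix (Fin r) (Fin r) K) := by
    intro X hXA hXB
    refine hS K r (Fin 3) M hI X (fun i => ?_)
    fin_cases i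
    · show X * M 0 = M 0 * X
      rw [← hA]
      exact hXA
    · show X * M 1 = M 1 * X
      rw [← hBM]
      exact hXB
    · show X * M 2 = M 2 * X
      rw [hC, mul_neg, neg_mul, mul_add, add_mul, hXA, hXB]
  obtain ⟨z, hz⟩ := hcen Z hZA hZB
  have hz' : Z' = (b 0 + b 1 + b 2 - z) • (1 : Matrix (Fin r) (Fin r) K) := by
    rw [sub_smul, ← hz, ← hZZ]
    abel
  have hR : Rul A B (a 0) (a 1) (b 0) (b 1) s z (b 0 + b 1 + b 2 - z) := by
    refine ⟨h1, h2, ?_, ?_⟩
    · rw [← hz, hZ]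
      abel
    · rw [← hz', hZ']
      abel
  obtain ⟨c, hc⟩ := hcen (rho A B (a 0) (a 1) s) (rho_A hR) (rho_B hR)
  have h5 : B * (A * (B * A)) = A * (A * (B * B)) - s • (B * A) + a 1 • (A * A) + a 0 • (B * B) +
      c • (1 : Matrix (Fin r) (Fin r) K) := by
    rw [← hc]
    unfold rho
    abel
  have key : r ^ 2 ≤ 18 := by
    refine hB K r 18 (Fin 3) M hI
      ![1, B, B * B, A, A * B, A * (B * B), A * A, A * (A * B), A * (A * (B * B)), B * A, B * (A * B), B * (A * (B * B)), A * (B * A), A * (B * (A * B)), A * (B * (A * (B * B))), A * (A * (B * A)), A * (A * (B * (A * B))), A * (A * (B * (A * (B * B))))] ?_ ?_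
    · exact Submodule.subset_span ⟨0, rfl⟩
    · have hcl := clos hR h5 (Submodule.span K (Set.range (![1, B, B * B, A, A * B, A * (B * B), A * A, A * (A * B), A * (A * (B * B)), B * A, B * (A * B), B * (A * (B * B)), A * (B * A), A * (B * (A * B)), A * (B * (A * (B * B))), A * (A * (B * A)), A * (A * (B * (A * B))), A * (A * (B * (A * (B * B))))] : Fin 18 → Matrix (Fin r) (Fin r) K)))
        (Submodule.subset_span ⟨0, rfl⟩)
        (Submodule.subset_span ⟨1, rfl⟩)
        (Submodule.subset_span ⟨2, rfl⟩)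
        (Submodule.subset_span ⟨3, rfl⟩)
        (Submodule.subset_span ⟨4, rfl⟩)
        (Submodule.subset_span ⟨5, rfl⟩)
        (Submodule.subset_span ⟨6, rfl⟩)
        (Submodule.subset_span ⟨7, rfl⟩)
        (Submodule.subset_span ⟨8, rfl⟩)
        (Submodule.subset_span ⟨9, rfl⟩)
        (Submodule.subset_span ⟨10, rfl⟩)
        (Submodule.subset_span ⟨11, rfl⟩)
        (Submodule.subset_span ⟨12, rfl⟩)
        (Submodule.subset_span ⟨13, rfl⟩)
        (Submodule.subset_span ⟨14, rfl⟩)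
        (Submodule.subset_span ⟨15, rfl⟩)
        (Submodule.subset_span ⟨16, rfl⟩)
        (Submodule.subset_span ⟨17, rfl⟩)
      obtain ⟨k0, k1, k2, k3, k4, k5, k6, k7, k8, k9, k10, k11, k12, k13, k14, k15, k16, k17⟩ := hcl
      intro i j
      have hAB : A * (![1, B, B * B, A, A * B, A * (B * B), A * A, A * (A * B), A * (A * (B * B)), B * A, B * (A * B), B * (A * (B * B)), A * (B * A), A * (B * (A * B)), A * (B * (A * (B * B))), A * (A * (B * A)), A * (A * (B * (A * B))), A * (A * (B * (A * (B * B))))] : Fin 18 → Matrix (Fin r) (Fin r) K) j ∈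
          (Submodule.span K (Set.range (![1, B, B * B, A, A * B, A * (B * B), A * A, A * (A * B), A * (A * (B * B)), B * A, B * (A * B), B * (A * (B * B)), A * (B * A), A * (B * (A * B)), A * (B * (A * (B * B))), A * (A * (B * A)), A * (A * (B * (A * B))), A * (A * (B * (A * (B * B))))] : Fin 18 → Matrix (Fin r) (Fin r) K))) ∧
          B * (![1, B, B * B, A, A * B, A * (B * B), A * A, A * (A * B), A * (A * (B * B)), B * A, B * (A * B), B * (A * (B * B)), A * (B * A), A * (B * (A * B)), A * (B * (A * (B * B))), A * (A * (B * A)), A * (A * (B * (A * B))), A * (A * (B * (A * (B * B))))] : Fin 18 → Matrix (Fin r) (Fin r) K) j ∈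
          (Submodule.span K (Set.range (![1, B, B * B, A, A * B, A * (B * B), A * A, A * (A * B), A * (A * (B * B)), B * A, B * (A * B), B * (A * (B * B)), A * (B * A), A * (B * (A * B)), A * (B * (A * (B * B))), A * (A * (B * A)), A * (A * (B * (A * B))), A * (A * (B * (A * (B * B))))] : Fin 18 → Matrix (Fin r) (Fin r) K))) := by
        fin_cases j
        · exact k0
        · exact k1
        · exact k2
        · exact k3
        · exact k4
        · exact k5
        · exact k6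
        · exact k7
        · exact k8
        · exact k9
        · exact k10
        · exact k11
        · exact k12
        · exact k13
        · exact k14
        · exact k15
        · exact k16
        · exact k17
      fin_cases i
      · show M 0 * _ ∈ _
        rw [← hA]
        exact hAB.1
      · show M 1 * _ ∈ _
        rw [← hBM]
        exact hAB.2
      · show M 2 * _ ∈ _
        rw [hC, neg_mul, add_mul]
        exact Submodule.neg_mem _ (Submodule.add_mem _ hAB.1 hAB.2)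
  by_contra hcon
  push Not at hcon
  have : 5 ^ 2 ≤ r ^ 2 := Nat.pow_le_pow_left hcon 2
  omega

end Pool.Agent.N858.DS
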