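import Pool.Agent.N858.DS.Comb
import Pool.Agent.N858.DS.Burn
import Pool.Agent.N858.DS.D4
import Pool.Agent.N858.DS.E6

set_option autoImplicit false

/-!
Irreducible systems of exceptional type with semisimple residues whose eigenvalues do not differ by
nonzero integers have rank two or three.
-/

open Polynomial Pool.Agent.W432.PC Pool.Agent.Y227.SS

namespace Pool.Agent.N858.DS

open Pool.Agent.N858.PC Pool.Agent.N858.R4 Pool.Agent.N858.R3

universe u

section res

variable {K : Type u} [Field K] {n r : ℕ}

/-- The residues at all points, the point at infinity included. -/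
noncomputable def Res (A : Fin n → Matrix (Fin r) (Fin r) K) :
    Option (Fin n) → Matrix (Fin r) (Fin r) K
  | some j => A j
  | none => -∑ j, A j

lemma sum_Res (A : Fin n → Matrix (Fin r) (Fin r) K) : ∑ x, Res A x = 0 := by
  rw [Fintype.sum_option]
  simp [Res]

variable [CharZero K]

/-- Abstract form: a family `Q x` of matrices with sum zero and no common invariant subspace, each
annihilated by the polynomials which vanish at the exponents. -/
theorem small_rank [IsAlgClosed K] {Y : Type*} [Fintype Y] [DecidableEq Y] (hr : 0 < r)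
    {e : Y → Fin r → ℚ} (Q : Y → Matrix (Fin r) (Fin r) K) (hQ : ∑ x, Q x = 0)
    (hsum : ∑ x, ∑ l, e x l = 0)
    (hann : ∀ x (q : K[X]), (∀ l, q.eval ((e x l : ℚ) : K) = 0) → aeval (Q x) q = 0)
    (hirr : ∀ W : Submodule K (Fin r → K), (∀ x, ∀ w ∈ W, (Q x).mulVec w ∈ W) → W = ⊥ ∨ W = ⊤)
    (hNS : NoShift e) (hE : ExcType e) : r ≤ 3 := by
  classical
  have hrQ : (r : ℚ) ≠ 0 := Nat.cast_ne_zero.mpr hr.ne'
  let c : Y → ℚ := fun x => (∑ l, e x l) / r
  let M : Y → Matrix (Fin r) (Fin r) K := fun x => Q x - ((c x : ℚ) : K) • 1
  have hc0 : ∑ x, ((c x : ℚ) : K) = 0 := by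
    have h1 : ∑ x, c x = 0 := by
      simp only [c]
      rw [← Finset.sum_div, hsum, zero_div]
    exact_mod_cast congrArg (fun q : ℚ => (q : K)) h1
  have hM0 : ∑ x, M x = 0 := by
    simp only [M]
    rw [Finset.sum_sub_distrib, hQ, ← Finset.sum_smul, hc0, zero_smul, sub_zero]
  have hoff : ∀ x, (∀ l l', Cong (e x l) (e x l')) → M x = 0 := by
    intro x hx
    have h1 : ∀ l, e x l = e x ⟨0, hr⟩ := fun l => hNS x _ _ (hx l _)
    have h2 : c x = e x ⟨0, hr⟩ := by
      simp only [c]
      rw [Finset.sum_congr rfl fun l _ => h1 l, Finset.sum_const, Finset.card_univ,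
        Fintype.card_fin, nsmul_eq_mul]
      field_simp
    have h3 := hann x (X - C ((c x : ℚ) : K)) (fun l => by simp [h2, h1 l])
    rw [map_sub, aeval_X, aeval_C, Algebra.algebraMap_eq_smul_one] at h3
    exact h3
  have hpass : ∀ W : Submodule K (Fin r → K), ∀ S : Finset Y,
      (∀ x, x ∉ S → M x = 0) → (∀ x ∈ S, ∀ w ∈ W, (M x).mulVec w ∈ W) → W = ⊥ ∨ W = ⊤ := by
    intro W S hS hW
    refine hirr W fun x w hw => ?_
    have h1 : Q x = M x + ((c x : ℚ) : K) • 1 := by simp [M]
    rw [h1, Matrix.add_mulVec, Matrix.smul_mulVec, Matrix.one_mulVec]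
    refine W.add_mem ?_ (W.smul_mem _ hw)
    by_cases hx : x ∈ S
    · exact hW x hx w hw
    · rw [hS x hx, Matrix.zero_mulVec]
      exact W.zero_mem
  have hsumS : ∀ S : Finset Y, (∀ x, x ∉ S → M x = 0) → ∑ x : S, M x = 0 := by
    intro S hS
    rw [Finset.sum_coe_sort S M, ← hM0]
    exact Finset.sum_subset (Finset.subset_univ S) fun x _ hx => hS x hx
  rcases hE with ⟨S, hcard, hsc, hmul⟩ | ⟨S, hcard, hsc, hmul⟩
  · have hS : ∀ x, x ∉ S → M x = 0 := fun x hx => hoff x (hsc x hx)
    let σ : S ≃ Fin 3 := S.equivFinOfCardEq hcard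
    have h4 : r ≤ 4 := by
      refine e6 burn scal K r (fun i => M (σ.symm i).1) ?_ ?_ ?_
      · intro W hW
        refine hpass W S hS fun x hx w hw => ?_
        have h1 := hW (σ ⟨x, hx⟩) w hw
        simpa using h1
      · rw [← hsumS S hS]
        exact Equiv.sum_comp σ.symm (fun x : S => M x)
      · have h5 : ∀ x ∈ S, ∃ a b : K, M x * (M x * M x) + a • M x + b • 1 = 0 := by
          intro x hx
          obtain ⟨a, b, d, h6, h7⟩ := three_vals hr hNS (hmul x hx)
          have h8 : a + b + d = 3 * c x := by
            simp only [c]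
            field_simp
            linear_combination -h7
          let u : ℚ := (a - c x) * (b - c x) + (a - c x) * (d - c x) + (b - c x) * (d - c x)
          let v : ℚ := -((a - c x) * (b - c x) * (d - c x))
          refine ⟨(u : K), (v : K), ?_⟩
          have key : ∀ t : ℚ, (t = a ∨ t = b ∨ t = d) →
              (t - c x) ^ 3 + u * (t - c x) + v = 0 := by
            intro t ht
            simp only [u, v]
            rcases ht with rfl | rfl | rfl
            · linear_combination (t - c x) ^ 2 * h8
            · linear_combination (t - c x) ^ 2 * h8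
            · linear_combination (t - c x) ^ 2 * h8
          have h9 := hann x ((X - C ((c x : ℚ) : K)) ^ 3 +
            C ((u : ℚ) : K) * (X - C ((c x : ℚ) : K)) + C ((v : ℚ) : K)) (fun l => by
              have h10 := congrArg (fun q : ℚ => (q : K)) (key _ (h6 l))
              simp only [Rat.cast_add, Rat.cast_mul, Rat.cast_pow, Rat.cast_sub,
                Rat.cast_zero] at h10
              simp only [eval_add, eval_mul, eval_pow, eval_sub, eval_X, eval_C]
              exact h10)
          have h11 : aeval (Q x) (X - C ((c x : ℚ) : K)) = M x := by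
            rw [map_sub, aeval_X, aeval_C, Algebra.algebraMap_eq_smul_one]
          rw [map_add, map_add, map_mul, map_pow, h11, aeval_C, aeval_C,
            Algebra.algebraMap_eq_smul_one, Algebra.algebraMap_eq_smul_one, smul_mul_assoc,
            one_mul, pow_three] at h9
          exact h9
        choose! a b hab using h5
        exact ⟨fun i => a (σ.symm i).1, fun i => b (σ.symm i).1,
          fun i => hab _ (σ.symm i).2⟩
    obtain ⟨x, hx⟩ : S.Nonempty := Finset.card_pos.mp (by omega)
    have h12 := hmul x hx ⟨0, hr⟩
    omega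
  · have hS : ∀ x, x ∉ S → M x = 0 := fun x hx => hoff x (hsc x hx)
    let σ : S ≃ Fin 4 := S.equivFinOfCardEq hcard
    have h4 : r ≤ 2 := by
      refine d4 burn scal K r (fun i => M (σ.symm i).1) ?_ ?_ ?_
      · intro W hW
        refine hpass W S hS fun x hx w hw => ?_
        have h1 := hW (σ ⟨x, hx⟩) w hw
        simpa using h1
      · rw [← hsumS S hS]
        exact Equiv.sum_comp σ.symm (fun x : S => M x)
      · have h5 : ∀ x ∈ S, ∃ a : K, M x * M x = a • 1 := by
          intro x hx
          obtain ⟨a, b, h6, h7⟩ := two_vals hr hNS (hmul x hx)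
          have h8 : a + b = 2 * c x := by
            simp only [c]
            field_simp
            linear_combination -h7
          let u : ℚ := c x ^ 2 - a * b
          refine ⟨(u : K), ?_⟩
          have key : ∀ t : ℚ, (t = a ∨ t = b) → (t - c x) ^ 2 - u = 0 := by
            intro t ht
            simp only [u]
            rcases ht with rfl | rfl
            · linear_combination t * h8
            · linear_combination t * h8
          have h9 := hann x ((X - C ((c x : ℚ) : K)) ^ 2 - C ((u : ℚ) : K)) (fun l => by
              have h10 := congrArg (fun q : ℚ => (q : K)) (key _ (h6 l))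
              simp only [Rat.cast_pow, Rat.cast_sub, Rat.cast_zero] at h10
              simp only [eval_pow, eval_sub, eval_X, eval_C]
              exact h10)
          have h11 : aeval (Q x) (X - C ((c x : ℚ) : K)) = M x := by
            rw [map_sub, aeval_X, aeval_C, Algebra.algebraMap_eq_smul_one]
          rw [map_sub, map_pow, h11, aeval_C, Algebra.algebraMap_eq_smul_one, pow_two,
            sub_eq_zero] at h9
          exact h9
        choose! a ha using h5
        exact ⟨fun i => a (σ.symm i).1, fun i => ha _ (σ.symm i).2⟩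
    omega

end res

end Pool.Agent.N858.DS
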