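import Pool.Agent.N858.DS.Exc

set_option autoImplicit false

/-!
Irreducible systems of exceptional type with semisimple residues whose eigenvalues do not differ by
nonzero integers have rank two or three: systems over a ring.
-/

open Polynomial Pool.Agent.W432.PC Pool.Agent.Y227.SS

namespace Pool.Agent.N858.DS

open Pool.Agent.N858.PC Pool.Agent.N858.R4 Pool.Agent.N858.R3

universe u

variable {R : Type u} [CommRing R] [IsDomain R] [CharZero R] {n r : ℕ}

omit [IsDomain R] [CharZero R] in
lemma map_sum_matrix {K : Type*} [CommRing K] (A : Fin n → Matrix (Fin r) (Fin r) R)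
    (φ : R →+* K) : (∑ j, (A j).map φ) = (∑ j, A j).map φ := by
  ext i l
  simp [Matrix.sum_apply]

omit [IsDomain R] [CharZero R] in
lemma map_zero_matrix {K : Type*} [CommRing K] (φ : R →+* K) :
    (0 : Matrix (Fin r) (Fin r) R).map φ = 0 := by
  ext i l
  simp

theorem exc_aux (K : Type u) [Field K] [CharZero K] [IsAlgClosed K] (φ : R →+* K)
    (hφ : Function.Injective φ) (hr : 0 < r) {α : Fin n → R}
    {A : Fin n → Matrix (Fin r) (Fin r) R} {lam : Fin n → Fin r → ℚ} {phi : Fin r → ℚ} {N : ℕ}
    (hirr : AbsIrreducible α A)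
    (hlam : ∀ j, HasExponents (A j) (lam j)) (hphi : HasExponents (∑ j, A j) phi)
    (hN : 0 < N) {m : Fin n → Fin r → ℤ} (hm : ∀ j l, (N : ℚ) * lam j l = m j l)
    {m' : Fin r → ℤ} (hm' : ∀ l, (N : ℚ) * phi l = m' l)
    (hs : (∀ j, aeval (A j) (qpoly N (m j)) = 0) ∧ aeval (∑ j, A j) (qpoly N m') = 0)
    (hNS : NoShift (allExp lam phi)) (hE : ExcType (allExp lam phi)) : r ≤ 3 := by
  refine small_rank hr (Res fun j => (A j).map φ) (sum_Res _) ?_ ?_ ?_ hNS hE
  · rw [Fintype.sum_option]
    simp only [allExp]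
    rw [sum_exponents hlam hphi, Finset.sum_neg_distrib, neg_add_cancel]
  · rintro (_ | j) q hq
    · have h1 : aeval (∑ j, (A j).map φ) (qpoly N m') = 0 := by
        rw [map_sum_matrix, ← aeval_map_ring, hs.2, map_zero_matrix]
      have h2 := ann_of_qpoly hN hm' h1 (q.comp (-X)) (fun l => by
        have h3 := hq l
        simp only [allExp, Rat.cast_neg] at h3
        rw [eval_comp, eval_neg, eval_X]
        exact h3)
      rw [aeval_comp, map_neg, aeval_X] at h2
      exact h2
    · refine ann_of_qpoly hN (hm j) ?_ q hq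
      change aeval ((A j).map φ) (qpoly N (m j)) = 0
      rw [← aeval_map_ring, hs.1 j, map_zero_matrix]
  · intro W hW
    exact irr_of_abs hirr K φ hφ W fun j w hw => hW (some j) w hw

/-- Systems. -/
theorem exc_small (hr : 0 < r) {α : Fin n → R}
    {A : Fin n → Matrix (Fin r) (Fin r) R} {lam : Fin n → Fin r → ℚ} {phi : Fin r → ℚ} {N : ℕ}
    (hirr : AbsIrreducible α A)
    (hlam : ∀ j, HasExponents (A j) (lam j)) (hphi : HasExponents (∑ j, A j) phi)
    (hN : 0 < N) {m : Fin n → Fin r → ℤ} (hm : ∀ j l, (N : ℚ) * lam j l = m j l)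
    {m' : Fin r → ℤ} (hm' : ∀ l, (N : ℚ) * phi l = m' l)
    (hs : (∀ j, aeval (A j) (qpoly N (m j)) = 0) ∧ aeval (∑ j, A j) (qpoly N m') = 0)
    (hNS : NoShift (allExp lam phi)) (hE : ExcType (allExp lam phi)) : r ≤ 3 := by
  have h0 := charZero_fraction (R := R)
  have hK : CharZero (AlgebraicClosure (FractionRing R)) :=
    charZero_of_injective_algebraMap
      (algebraMap (FractionRing R) (AlgebraicClosure (FractionRing R))).injective
  exact exc_aux (AlgebraicClosure (FractionRing R))
    ((algebraMap (FractionRing R) (AlgebraicClosure (FractionRing R))).comp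
      (algebraMap R (FractionRing R)))
    ((algebraMap (FractionRing R) (AlgebraicClosure (FractionRing R))).injective.comp
      (IsFractionRing.injective R (FractionRing R))) hr hirr hlam hphi hN hm hm' hs hNS hE

end Pool.Agent.N858.DS
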