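import Pool.Agent.N858.DS.Stm2
import Pool.Agent.N858.DS.Exc

set_option autoImplicit false

/-!
Stable filtered spaces of exceptional type have dimension two or three.
-/

open Polynomial

namespace Pool.Agent.N858.DS

open Pool.Agent.N858.R4 Pool.Agent.N858.R3

section alg

variable {K : Type*} [Field K] {r : ℕ}

lemma aeval_conj {Q A : Matrix (Fin r) (Fin r) K} (hQ : Q.det ≠ 0) (q : K[X]) :
    aeval (Q⁻¹ * A * Q) q = Q⁻¹ * aeval A q * Q := by
  have hu : IsUnit Q.det := isUnit_iff_ne_zero.mpr hQ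
  have hpow : ∀ n : ℕ, (Q⁻¹ * A * Q) ^ n = Q⁻¹ * A ^ n * Q := by
    intro n
    induction n with
    | zero => rw [pow_zero, pow_zero, mul_one, Matrix.nonsing_inv_mul _ hu]
    | succ n ih =>
      rw [pow_succ, ih, pow_succ]
      calc Q⁻¹ * A ^ n * Q * (Q⁻¹ * A * Q) = Q⁻¹ * A ^ n * (Q * Q⁻¹) * A * Q := by
            simp only [mul_assoc]
        _ = _ := by rw [Matrix.mul_nonsing_inv _ hu, mul_one, mul_assoc Q⁻¹]
  induction q using Polynomial.induction_on' with
  | add p q hp hq => rw [map_add, map_add, hp, hq, mul_add, add_mul]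
  | monomial n a =>
    rw [aeval_monomial, aeval_monomial, hpow, Algebra.algebraMap_eq_smul_one]
    simp only [smul_mul_assoc, one_mul, mul_smul_comm]

lemma aeval_transpose' (A : Matrix (Fin r) (Fin r) K) (q : K[X]) :
    aeval A.transpose q = (aeval A q).transpose := by
  induction q using Polynomial.induction_on' with
  | add p q hp hq => rw [map_add, map_add, hp, hq, Matrix.transpose_add]
  | monomial n a =>
    rw [aeval_monomial, aeval_monomial, Algebra.algebraMap_eq_smul_one, smul_mul_assoc, one_mul,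
      smul_mul_assoc, one_mul, Matrix.transpose_smul, Matrix.transpose_pow]

end alg

/-- Exceptional type of weights. -/
def TType {X : Type} {r : ℕ} (t : X → Fin r → ℝ) : Prop :=
  (∃ S : Finset X, S.card = 3 ∧ (∀ x, x ∉ S → ∀ l l', t x l = t x l') ∧
    ∀ x ∈ S, ∀ k, ∀ F : Finset (Fin r), (∀ l, l ∈ F ↔ t x k = t x l) → 3 * F.card = r) ∨
  (∃ S : Finset X, S.card = 4 ∧ (∀ x, x ∉ S → ∀ l l', t x l = t x l') ∧
    ∀ x ∈ S, ∀ k, ∀ F : Finset (Fin r), (∀ l, l ∈ F ↔ t x k = t x l) → 2 * F.card = r)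

theorem fs (hSch : S_SCH) (hSol : S_SOL) (hInv : S_INV) (hAnn : S_ANN) (hGen : S_GEN)
    {X : Type} [Fintype X] [DecidableEq X] {r : ℕ} (hr : 0 < r)
    (Q : X → Matrix (Fin r) (Fin r) ℂ) (t : X → Fin r → ℝ)
    (hdet : ∀ x, (Q x).det ≠ 0) (hsum : ∑ x, ∑ l, t x l = 0) (hst : FStable Q t)
    (hT : TType t) : r ≤ 3 := by
  classical
  obtain ⟨e, he1, he2, he3, he4⟩ := hGen X r t hsum
  have hschur := hSch X r Q t hdet hsum hst
  obtain ⟨A, hA0, hA⟩ := hSol X r Q t hdet hschur (fun x l => ((e x l : ℚ) : ℂ))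
    (by exact_mod_cast congrArg (fun q : ℚ => (q : ℂ)) he3)
  have hcong : ∀ x l l', Cong (e x l) (e x l') ↔ t x l = t x l' := by
    intro x l l'
    rw [he1]
    constructor
    · rintro ⟨w, hw⟩
      have h1 := abs_lt.mp (he2 x l)
      have h2 := abs_lt.mp (he2 x l')
      have h3 : (w : ℚ) < 1 := by linarith [h1.2, h2.1]
      have h4 : (-1 : ℚ) < w := by linarith [h1.1, h2.2]
      have h5 : w = 0 := by
        have h6 : w < 1 := by exact_mod_cast h3
        have h7 : -1 < w := by exact_mod_cast h4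
        omega
      rw [h5] at hw
      push_cast at hw
      linarith
    · intro h
      exact ⟨0, by rw [h]; simp⟩
  have hNS : NoShift e := fun x l l' h => (he1 x l l').mp ((hcong x l l').mp h)
  have hE : ExcType e := by
    rcases hT with ⟨S, h1, h2, h3⟩ | ⟨S, h1, h2, h3⟩
    · refine Or.inl ⟨S, h1, fun x hx l l' => (hcong x l l').mpr (h2 x hx l l'), fun x hx k => ?_⟩
      refine h3 x hx k _ fun l => ?_
      simp only [Finset.mem_filter, Finset.mem_univ, true_and]
      exact hcong x k l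
    · refine Or.inr ⟨S, h1, fun x hx l l' => (hcong x l l').mpr (h2 x hx l l'), fun x hx k => ?_⟩
      refine h3 x hx k _ fun l => ?_
      simp only [Finset.mem_filter, Finset.mem_univ, true_and]
      exact hcong x k l
  refine small_rank (K := ℂ) hr (e := e) (fun x => (A x).transpose) ?_ he3 ?_ ?_ hNS hE
  · rw [← Matrix.transpose_sum, hA0, Matrix.transpose_zero]
  · intro x q hq
    have h1 := hAnn r (t x) (fun l => ((e x l : ℚ) : ℂ)) ((Q x)⁻¹ * A x * Q x) (hA x)
      (fun l l' => by rw [he1 x l l']; exact Rat.cast_inj.symm) q hq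
    rw [aeval_conj (hdet x)] at h1
    have hu : IsUnit (Q x).det := isUnit_iff_ne_zero.mpr (hdet x)
    have h2 : aeval (A x) q = Q x * ((Q x)⁻¹ * aeval (A x) q * Q x) * (Q x)⁻¹ := by
      rw [mul_assoc, mul_assoc ((Q x)⁻¹ * aeval (A x) q), Matrix.mul_nonsing_inv _ hu, mul_one,
        ← mul_assoc, Matrix.mul_nonsing_inv _ hu, one_mul]
    rw [aeval_transpose', h2, h1, mul_zero, zero_mul, Matrix.transpose_zero]
  · intro W hW
    by_contra hcon
    push Not at hcon
    obtain ⟨hbot, htop⟩ := hcon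
    have hs0 : 0 < Module.finrank ℂ W := by
      rw [Module.finrank_pos_iff]
      exact (Submodule.nontrivial_iff_ne_bot).mpr hbot
    have hsr : Module.finrank ℂ W < r := by
      have h1 := Submodule.finrank_lt htop
      rwa [Module.finrank_fin_fun] at h1
    let b := Module.finBasis ℂ W
    have hb : LinearIndependent ℂ (fun i => (b i : Fin r → ℂ)) :=
      b.linearIndependent.map' W.subtype (Submodule.ker_subtype W)
    let U : Matrix (Fin (Module.finrank ℂ W)) (Fin r) ℂ := Matrix.of fun i => (b i : Fin r → ℂ)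
    have hU : ∃ J, cmn U J ≠ 0 := exists_minor hb
    choose g hg using fun (x : X) (i : Fin (Module.finrank ℂ W)) =>
      show ∃ g : Fin (Module.finrank ℂ W) → ℂ,
        ((A x).transpose).mulVec (b i : Fin r → ℂ) = ∑ k, g k • (b k : Fin r → ℂ) from by
      have h1 : ((A x).transpose).mulVec (b i : Fin r → ℂ) ∈ W := hW x _ (b i).2
      refine ⟨fun k => b.repr ⟨_, h1⟩ k, ?_⟩
      have h2 := b.sum_repr ⟨_, h1⟩
      have h3 := congrArg (W.subtype) h2
      rw [map_sum] at h3
      simp only [map_smul, Submodule.subtype_apply] at h3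
      exact h3.symm
    let Bm : X → Matrix (Fin (Module.finrank ℂ W)) (Fin (Module.finrank ℂ W)) ℂ :=
      fun x => Matrix.of (g x)
    have hUB : ∀ x, U * A x = Bm x * U := by
      intro x
      ext i l
      have h1 := congrFun (hg x i) l
      rw [Matrix.mulVec_transpose, Finset.sum_apply] at h1
      simp only [Pi.smul_apply, smul_eq_mul] at h1
      rw [Matrix.mul_apply, Matrix.mul_apply]
      exact h1
    have hB0 : ∑ x, Bm x = 0 := by
      have h1 : (∑ x, Bm x) * U = 0 := by
        rw [Matrix.sum_mul, ← Finset.sum_congr rfl fun x _ => hUB x, ← Matrix.mul_sum, hA0,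
          Matrix.mul_zero]
      ext i k
      have h2 : ∑ k, (∑ x, Bm x) i k • (b k : Fin r → ℂ) = 0 := by
        ext l
        have h3 := congrFun (congrFun h1 i) l
        rw [Matrix.mul_apply] at h3
        rw [Finset.sum_apply]
        exact h3
      exact Fintype.linearIndependent_iff.mp hb _ h2 k
    have hinv : ∀ x, ∃ J, cmn (U * Q x) J ≠ 0 ∧
        (∀ J', cmn (U * Q x) J' ≠ 0 → ∑ i, t x (J i) ≤ ∑ i, t x (J' i)) ∧
        (Bm x).trace = ∑ i, ((e x (J i) : ℚ) : ℂ) := by
      intro x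
      have hu : IsUnit (Q x).det := isUnit_iff_ne_zero.mpr (hdet x)
      refine hInv r _ (t x) (fun l => ((e x l : ℚ) : ℂ)) ((Q x)⁻¹ * A x * Q x) (hA x)
        (U * Q x) (Bm x) ?_ ?_
      · calc U * Q x * ((Q x)⁻¹ * A x * Q x) = U * (Q x * (Q x)⁻¹) * A x * Q x := by
              simp only [mul_assoc, Matrix.mul_assoc]
          _ = U * A x * Q x := by rw [Matrix.mul_nonsing_inv _ hu, Matrix.mul_one]
          _ = Bm x * (U * Q x) := by rw [hUB x, Matrix.mul_assoc]
      · have h1 : LinearIndependent ℂ (fun i => Matrix.vecMul (b i : Fin r → ℂ) (Q x)) := by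
          have h2 := hb.map' (Matrix.vecMulLinear (Q x)) (by
            rw [LinearMap.ker_eq_bot]
            exact Matrix.vecMul_injective_of_isUnit ((Matrix.isUnit_iff_isUnit_det _).mpr hu))
          exact h2
        obtain ⟨J, hJ⟩ := exists_minor h1
        exact ⟨J, hJ⟩
    choose J hJ1 hJ2 hJ3 using hinv
    have h1 : ∑ x, ∑ i, e x (J x i) = 0 := by
      have h2 : (∑ x, Bm x).trace = 0 := by rw [hB0, Matrix.trace_zero]
      rw [Matrix.trace_sum, Finset.sum_congr rfl fun x _ => hJ3 x] at h2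
      exact_mod_cast h2
    have h3 := he4 _ J hsr.le h1
    have h4 := hst _ hs0 hsr U hU (fun x => ∑ i, t x (J x i)) (fun x J' h => hJ2 x J' h)
    rw [h3] at h4
    exact lt_irrefl _ h4

end Pool.Agent.N858.DS
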