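import Pool.Agent.N858.DS.Exc2
import Pool.Agent.N858.R3.AllE

set_option autoImplicit false

/-!
Irreducible systems with index of rigidity at least zero: the exceptional types in rank at least four.
-/

open Finset

namespace Pool.Agent.N858.DS

open Pool.Agent.N858.PC Pool.Agent.N858.R3 Pool.Agent.N858.R4
open Pool.Agent.W432.PC Pool.Agent.W432.TC Pool.Agent.Y227.SS

universe u

/-- Systems. -/
theorem all_sys2 (n r : ℕ) (hr : 1 < r) :
    ∃ (ε : ℝ) (B : ℕ), 0 < ε ∧
      ∀ (R : Type u) [CommRing R] [IsDomain R] [CharZero R] [Algebra.FiniteType ℤ R]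
        (α : Fin n → R) (A : Fin n → Matrix (Fin r) (Fin r) R)
        (lam : Fin n → Fin r → ℚ) (phi : Fin r → ℚ) (N : ℕ),
        (∀ i j, i ≠ j → IsUnit (α i - α j)) → AbsIrreducible α A →
        (∀ j, HasExponents (A j) (lam j)) → HasExponents (∑ j, A j) phi →
        0 < N → (∀ j l, ∃ m : ℤ, (N : ℚ) * lam j l = m) → (∀ l, ∃ m : ℤ, (N : ℚ) * phi l = m) →
        (RoughSums (2 * r) (allExp lam phi) ∨ MildDen (allExp lam phi) ∨
          Rough B (allExp lam phi)) →
        (LargeMult (allExp lam phi) ∨ IndexNonneg (allExp lam phi)) →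
        (ExcType (allExp lam phi) ∧ ¬ LargeMult (allExp lam phi) ∧
          (Rough B (allExp lam phi) → Refined (allExp lam phi)) ∧
          (NoShift (allExp lam phi) → r ≤ 3)) ∨
          ((∃ g : R, g ≠ 0 ∧ BadClasses α A N ε g) ∧ ¬ CondII α A) := by
  obtain ⟨ε, B, hε, h⟩ := all_sys.{u} n r hr
  refine ⟨min ε 1, B, lt_min hε one_pos, ?_⟩
  intro R _ _ _ _ α A lam phi N hα hirr hlam hphi hN hNlam hNphi hor hI
  choose m hm using hNlam
  choose m' hm' using hNphi
  rcases h R α A lam phi N hα hirr hlam hphi hN (fun j l => ⟨m j l, hm j l⟩)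
    (fun l => ⟨m' l, hm' l⟩) hor hI with ⟨h1, h2, h3⟩ | ⟨⟨g, hg, hB⟩, h4⟩
  · rcases semi_or_bad hα hlam hphi hN hm hm' with h5 | ⟨⟨g, hg, hB⟩, h6⟩
    · exact Or.inl ⟨h1, h2, h3, fun hNS =>
        exc_small (by omega) hirr hlam hphi hN hm hm' h5 hNS h1⟩
    · exact Or.inr ⟨⟨g, hg, badClasses_mono (min_le_right _ _) hB⟩, h6⟩
  · exact Or.inr ⟨⟨g, hg, badClasses_mono (min_le_left _ _) hB⟩, h4⟩

/-- Systems on the thrice punctured line. -/
theorem index_thrice2 (r : ℕ) (hr : 1 < r) :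
    ∃ (ε : ℝ) (B : ℕ), 0 < ε ∧
      ∀ (R : Type u) [CommRing R] [IsDomain R] [CharZero R] [Algebra.FiniteType ℤ R]
        (b c : Matrix (Fin r) (Fin r) R) (lam : Fin 3 → Fin r → ℚ) (N : ℕ),
        AbsIrreducible (![0, 1] : Fin 2 → R) ![b, c] →
        HasExponents b (lam 0) → HasExponents c (lam 1) →
        HasExponents (b + c) (fun l => -lam 2 l) →
        0 < N → (∀ j l, ∃ m : ℤ, (N : ℚ) * lam j l = m) →
        (RoughSums (2 * r) lam ∨ MildDen lam ∨ Rough B lam) →
        (LargeMult lam ∨ (IndexNonneg lam ∧ (¬ ExcType lam ∨ (NoShift lam ∧ 3 < r)))) →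
          (∃ g : R, g ≠ 0 ∧ BadClasses ![0, 1] ![b, c] N ε g) ∧ ¬ CondII ![0, 1] ![b, c] := by
  obtain ⟨ε, B, hε, h⟩ := all_sys2.{u} 2 r hr
  refine ⟨ε, B, hε, ?_⟩
  intro R _ _ _ _ b c lam N hirr h0 h1 h2 hN hNlam hR hor
  obtain ⟨p, hpdef⟩ : ∃ p : Fin 3 → Option (Fin 2), p = ![some 0, some 1, none] := ⟨_, rfl⟩
  have hp : Function.Injective p := by rw [hpdef]; decide
  have hps : Function.Surjective p := by rw [hpdef]; decide
  have hE' : ∀ x, allExp (fun j : Fin 2 => lam j.castSucc) (fun l => -lam 2 l) (p x) = lam x :=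
    fun x => by rw [hpdef]; exact thrice_aux lam x
  let φ : Fin 3 ≃ Option (Fin 2) := Equiv.ofBijective p ⟨hp, hps⟩
  have hφ : ∀ x, allExp (fun j : Fin 2 => lam j.castSucc) (fun l => -lam 2 l) (φ x) = lam x := hE'
  have hφ' : ∀ y, lam (φ.symm y) = allExp (fun j : Fin 2 => lam j.castSucc) (fun l => -lam 2 l) y :=
    fun y => by rw [← hφ (φ.symm y), Equiv.apply_symm_apply]
  have key := h R ![0, 1] ![b, c] (fun j => lam j.castSucc) (fun l => -lam 2 l) N (by
      intro i j hij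
      fin_cases i <;> fin_cases j
      · exact absurd rfl hij
      · simp
      · simp
      · exact absurd rfl hij) hirr (by
      intro j
      fin_cases j
      · exact h0
      · exact h1) (by
      rw [Fin.sum_univ_two]
      exact h2) hN (fun j l => hNlam _ l) (fun l => by
      obtain ⟨m, hm⟩ := hNlam 2 l
      exact ⟨-m, by push_cast; rw [← hm]; ring⟩) (hR.imp (move_rough φ hφ) (Or.imp (move_mild φ hφ) (by
        rintro ⟨q, k1, k2, k3⟩
        refine ⟨q, k1, k2, fun y l l' => ?_⟩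
        rw [← hφ' y]
        exact k3 _ l l'))) (hor.imp (move_large φ hφ) fun hh => move_index φ hφ hh.1)
  rcases key with ⟨k1, k2, -, k3⟩ | k
  · rcases hor with h3 | ⟨-, h3 | ⟨h3, h4⟩⟩
    · exact absurd (move_large φ hφ h3) k2
    · exact absurd (move_exc φ.symm hφ' k1) h3
    · have h5 := k3 (by
        intro y l l' hc
        rw [← hφ' y] at hc ⊢
        exact h3 _ l l' hc)
      omega
  · exact k

end Pool.Agent.N858.DS
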