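import Pool.Agent.N858.DS.Stm2

set_option autoImplicit false

/-!
Generic rational weights.
-/

namespace Pool.Agent.N858.DS

/-- A `ℚ`-linear form on `ℝ` which does not vanish at finitely many given nonzero numbers. -/
private theorem gen_form (F : Finset ℝ) : (∀ v ∈ F, v ≠ 0) → ∃ g : ℝ →ₗ[ℚ] ℚ, ∀ v ∈ F, g v ≠ 0 := by
  classical
  induction F using Finset.induction_on with
  | empty => exact fun _ => ⟨0, fun v hv => absurd hv (Finset.notMem_empty v)⟩
  | insert v F _ ih =>
    intro h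
    obtain ⟨g, hg⟩ := ih fun w hw => h w (Finset.mem_insert_of_mem hw)
    have hv : v ≠ 0 := h v (Finset.mem_insert_self v F)
    obtain ⟨φ, hφ⟩ : ∃ φ : ℝ →ₗ[ℚ] ℚ, φ v ≠ 0 := by
      by_contra hcon
      push Not at hcon
      exact hv ((Module.forall_dual_apply_eq_zero_iff ℚ v).1 hcon)
    by_cases hgv : g v = 0
    · obtain ⟨c, hc⟩ := Infinite.exists_notMem_finset (insert (0 : ℚ) (F.image fun w => -g w / φ w))
      rw [Finset.mem_insert, not_or, Finset.mem_image, not_exists] at hc
      refine ⟨g + c • φ, fun w hw => ?_⟩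
      rw [LinearMap.add_apply, LinearMap.smul_apply, smul_eq_mul]
      rcases Finset.mem_insert.1 hw with rfl | hw
      · rw [hgv, zero_add]
        exact mul_ne_zero hc.1 hφ
      · intro h0
        by_cases hw0 : φ w = 0
        · rw [hw0, mul_zero, add_zero] at h0
          exact hg w hw h0
        · refine hc.2 w ⟨hw, ?_⟩
          rw [div_eq_iff hw0]
          linarith
    · refine ⟨g, fun w hw => ?_⟩
      rcases Finset.mem_insert.1 hw with rfl | hw
      · exact hgv
      · exact hg w hw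

theorem gen : S_GEN := by
  classical
  intro X _ r t ht
  have hfin : (Set.range (fun p : X × Fin r × Fin r => t p.1 p.2.1 - t p.1 p.2.2) ∪
      Set.range (fun p : (Σ s : Fin (r + 1), X → Fin s → Fin r) => ∑ x, ∑ i, t x (p.2 x i))).Finite :=
    (Set.finite_range _).union (Set.finite_range _)
  obtain ⟨g, hg⟩ := gen_form (hfin.toFinset.filter fun v => v ≠ 0) fun v hv => (Finset.mem_filter.1 hv).2
  have hg1 : ∀ x l l', g (t x l - t x l') = 0 → t x l = t x l' := by
    intro x l l' h
    by_contra hne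
    refine hg (t x l - t x l') ?_ h
    rw [Finset.mem_filter, Set.Finite.mem_toFinset]
    exact ⟨Or.inl ⟨(x, l, l'), rfl⟩, sub_ne_zero.2 hne⟩
  have hg2 : ∀ (s : ℕ) (J : X → Fin s → Fin r), s ≤ r → g (∑ x, ∑ i, t x (J x i)) = 0 →
      ∑ x, ∑ i, t x (J x i) = 0 := by
    intro s J hs h
    by_contra hne
    refine hg (∑ x, ∑ i, t x (J x i)) ?_ h
    rw [Finset.mem_filter, Set.Finite.mem_toFinset]
    exact ⟨Or.inr ⟨⟨⟨s, Nat.lt_succ_of_le hs⟩, J⟩, rfl⟩, hne⟩
  set S : ℚ := ∑ x, ∑ l, |g (t x l)| with hS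
  have hle : ∀ x l, |g (t x l)| ≤ S := by
    intro x l
    calc |g (t x l)| ≤ ∑ l, |g (t x l)| :=
          Finset.single_le_sum (f := fun l => |g (t x l)|) (fun l _ => abs_nonneg _) (Finset.mem_univ l)
      _ ≤ S := Finset.single_le_sum (f := fun x => ∑ l, |g (t x l)|)
          (fun x _ => Finset.sum_nonneg fun l _ => abs_nonneg _) (Finset.mem_univ x)
  have hS0 : 0 ≤ S := Finset.sum_nonneg fun x _ => Finset.sum_nonneg fun l _ => abs_nonneg _
  set K : ℚ := 4 * (S + 1) with hK
  have hK0 : 0 < K := by positivity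
  have hdiv : ∀ a : ℚ, a / K = 0 → a = 0 := fun a h => (div_eq_zero_iff.1 h).resolve_right hK0.ne'
  have hsum : ∀ (s : ℕ) (J : X → Fin s → Fin r), ∑ x, ∑ i, g (t x (J x i)) / K =
      g (∑ x, ∑ i, t x (J x i)) / K := by
    intro s J
    rw [map_sum, Finset.sum_div]
    refine Finset.sum_congr rfl fun x _ => ?_
    rw [map_sum, Finset.sum_div]
  refine ⟨fun x l => g (t x l) / K, fun x l l' => ⟨fun h => ?_, fun h => ?_⟩, fun x l => ?_, ?_, ?_⟩
  · show g (t x l) / K = g (t x l') / K
    rw [h]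
  · apply hg1
    have h1 : g (t x l) / K - g (t x l') / K = 0 := sub_eq_zero.2 h
    rw [← sub_div] at h1
    rw [map_sub]
    exact hdiv _ h1
  · show |g (t x l) / K| < 1 / 4
    rw [abs_div, abs_of_pos hK0, div_lt_iff₀ hK0]
    have := hle x l
    rw [hK]
    linarith
  · show ∑ x, ∑ l, g (t x l) / K = 0
    rw [hsum r fun _ i => i, ht, map_zero, zero_div]
  · intro s J hs h
    refine hg2 s J hs (hdiv _ ?_)
    rw [← hsum s J]
    exact h

end Pool.Agent.N858.DS
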