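import Pool.Agent.N858.DS.Stm2

/-!
Project DT (helper858), the trace on an invariant subspace (DT/INV), by helper744.
-/

set_option autoImplicit false

open Polynomial

namespace Pool.Agent.N858.DS

open Pool.Agent.Y227.SS Pool.Agent.N858.PC

lemma inv_charmatrix {r s : ℕ} (M : Matrix (Fin r) (Fin r) ℂ) (U : Matrix (Fin s) (Fin r) ℂ)
    (B : Matrix (Fin s) (Fin s) ℂ) (h : U * M = B * U) :
    U.map C * Matrix.charmatrix M = Matrix.charmatrix B * U.map C := by
  unfold Matrix.charmatrix
  rw [Matrix.mul_sub, Matrix.sub_mul]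
  congr 1
  · refine Matrix.ext fun i j => ?_
    simp only [Matrix.scalar_apply, Matrix.mul_diagonal, Matrix.diagonal_mul]
    ring
  · have e1 : (C.mapMatrix M : Matrix (Fin r) (Fin r) ℂ[X]) = M.map C := rfl
    have e2 : (C.mapMatrix B : Matrix (Fin s) (Fin s) ℂ[X]) = B.map C := rfl
    rw [e1, e2, ← Matrix.map_mul, ← Matrix.map_mul, h]

lemma inv_cmn {r s : ℕ} (U : Matrix (Fin s) (Fin r) ℂ) (J : Fin s → Fin r) :
    ((U.map C).submatrix id J).det = C (cmn U J) := by
  unfold cmn
  have e : (U.map C).submatrix id J = (U.submatrix id J).map C := rfl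
  rw [e, ← RingHom.mapMatrix_apply, ← RingHom.map_det]

theorem inv : S_INV := by
  classical
  intro r s t lam M hM U B hUB hne
  obtain ⟨J, hJ, hmin⟩ := Set.exists_min_image {J : Fin s → Fin r | cmn U J ≠ 0}
    (fun J => ∑ i, t (J i)) (Set.toFinite _) hne
  refine ⟨J, hJ, fun J' hJ' => hmin J' hJ', ?_⟩
  have hJ0 : cmn U J ≠ 0 := hJ
  have hdiag : ∀ l, M l l = lam l := by
    intro l
    by_contra hcon
    have := hM l l (by
      rw [Matrix.sub_apply, Matrix.diagonal_apply_eq]
      exact sub_ne_zero.2 hcon)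
    exact lt_irrefl _ this
  have hoff : ∀ l l', l ≠ l' → M l l' ≠ 0 → t l < t l' := by
    intro l l' hll h0
    apply hM
    rw [Matrix.sub_apply, Matrix.diagonal_apply_ne _ hll, sub_zero]
    exact h0
  have h1 : (U.map C * (Matrix.charmatrix M).submatrix id J).det = B.charpoly * C (cmn U J) := by
    have e1 : U.map C * (Matrix.charmatrix M).submatrix id J =
        Matrix.charmatrix B * (U.map C).submatrix id J := by
      refine Matrix.ext fun i j => ?_
      have e2 := congrFun (congrFun (inv_charmatrix M U B hUB) i) (J j)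
      rw [Matrix.mul_apply, Matrix.mul_apply] at e2
      rw [Matrix.mul_apply, Matrix.mul_apply]
      exact e2
    rw [e1, Matrix.det_mul, inv_cmn]
    rfl
  rw [det_mul_expand] at h1
  rw [Finset.sum_eq_single J] at h1
  · rw [inv_cmn] at h1
    have h2 : B.charpoly = ∏ i, (X - C (lam (J i))) := by
      have h3 : (C (cmn U J) : ℂ[X]) ≠ 0 := C_ne_zero.2 hJ0
      rw [← mul_right_cancel₀ h3 h1]
      refine Finset.prod_congr rfl fun i _ => ?_
      rw [Matrix.submatrix_apply, id, Matrix.charmatrix_apply_eq, hdiag]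
    rw [Matrix.trace_eq_neg_charpoly_nextCoeff, h2, prod_X_sub_C_nextCoeff, neg_neg]
  · intro L _ hL
    by_contra hcon
    obtain ⟨ha, hb⟩ := mul_ne_zero_iff.1 hcon
    rw [inv_cmn] at hb
    have hb' : cmn U L ≠ 0 := C_ne_zero.1 hb
    rw [Finset.prod_ne_zero_iff] at ha
    have hle : ∀ i, L i ≠ J i → t (L i) < t (J i) := by
      intro i hi
      apply hoff _ _ hi
      have h4 := ha i (Finset.mem_univ i)
      rw [Matrix.submatrix_apply, id, Matrix.charmatrix_apply_ne _ _ _ hi] at h4
      intro h0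
      apply h4
      rw [h0]
      simp
    obtain ⟨i0, hi0⟩ : ∃ i, L i ≠ J i := by
      by_contra hcon2
      push Not at hcon2
      exact hL (funext hcon2)
    have h5 : ∑ i, t (L i) < ∑ i, t (J i) := by
      apply Finset.sum_lt_sum
      · intro i _
        by_cases hi : L i = J i
        · rw [hi]
        · exact (hle i hi).le
      · exact ⟨i0, Finset.mem_univ _, hle i0 hi0⟩
    exact absurd (hmin L hb') (not_le.2 h5)
  · intro h
    exact absurd (Finset.mem_univ J) h

end Pool.Agent.N858.DS
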