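import Pool.Agent.N858.DS.Stm2

set_option autoImplicit false

/-!
Trivialization of a stable parabolic bundle with nearly equal weights.
-/

open Polynomial

namespace Pool.Agent.N858.DS

open Pool.Agent.Y227.SS Pool.Agent.N858.PC

namespace LatAX

lemma mean_close {r : ℕ} (hr : 0 < r) {δ : ℝ} (x : Fin r → ℝ) (h : ∀ l l', |x l - x l'| ≤ δ)
    (l : Fin r) : |x l - (∑ l', x l') / r| ≤ δ := by
  have hr0 : (0 : ℝ) < r := by exact_mod_cast hr
  have h1 : x l - (∑ l', x l') / r = (∑ l', (x l - x l')) / r := by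
    rw [Finset.sum_sub_distrib, Finset.sum_const, Finset.card_univ, Fintype.card_fin, nsmul_eq_mul]
    field_simp
  rw [h1, abs_div, abs_of_pos hr0, div_le_iff₀ hr0]
  refine (Finset.abs_sum_le_sum_abs _ _).trans ?_
  refine (Finset.sum_le_sum fun l' _ => h l l').trans ?_
  rw [Finset.sum_const, Finset.card_univ, Fintype.card_fin, nsmul_eq_mul, mul_comm]

lemma choose_k {r : ℕ} (hr : 0 < r) {κ : ℝ} (hκ : 0 < κ) (hκ1 : κ < 1) (w : Fin r → ℝ)
    (hw : ∀ l, 0 ≤ w l ∧ w l ≤ 1) (h : ∀ l l', ∃ z : ℤ, |w l - w l' - z| ≤ κ / 4) :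
    ∃ k : Fin r → ℕ, (∀ l, k l ≤ 1) ∧ ∀ l l', |(w l + k l) - (w l' + k l')| ≤ κ / 2 := by
  obtain ⟨l0, -⟩ : ∃ l0 : Fin r, True := ⟨⟨0, hr⟩, trivial⟩
  choose z hz using fun l => h l l0
  have key : ∀ (t : ℤ), (∀ l, 0 ≤ t - z l ∧ t - z l ≤ 1) →
      ∃ k : Fin r → ℕ, (∀ l, k l ≤ 1) ∧ ∀ l l', |(w l + k l) - (w l' + k l')| ≤ κ / 2 := by
    intro t ht
    refine ⟨fun l => (t - z l).toNat, fun l => ?_, fun l l' => ?_⟩
    · have := ht l
      show (t - z l).toNat ≤ 1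
      omega
    · have h1 : (((t - z l).toNat : ℕ) : ℝ) = t - z l := by
        have h2 : (((t - z l).toNat : ℕ) : ℤ) = t - z l := Int.toNat_of_nonneg (ht l).1
        exact_mod_cast h2
      have h1' : (((t - z l').toNat : ℕ) : ℝ) = t - z l' := by
        have h2 : (((t - z l').toNat : ℕ) : ℤ) = t - z l' := Int.toNat_of_nonneg (ht l').1
        exact_mod_cast h2
      rw [h1, h1']
      have h3 := abs_le.mp (hz l)
      have h4 := abs_le.mp (hz l')
      rw [abs_le]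
      constructor <;> linarith [h3.1, h3.2, h4.1, h4.2]
  have hzb : ∀ l, -1 ≤ z l ∧ z l ≤ 1 := by
    intro l
    have h3 := abs_le.mp (hz l)
    have h4 := hw l
    have h5 := hw l0
    have h6 : (z l : ℝ) < 2 := by linarith [h3.1, h3.2, h4.1, h4.2, h5.1, h5.2]
    have h7 : (-2 : ℝ) < z l := by linarith [h3.1, h3.2, h4.1, h4.2, h5.1, h5.2]
    have h8 : z l < 2 := by exact_mod_cast h6
    have h9 : -2 < z l := by exact_mod_cast h7
    omega
  by_cases hex : ∃ l1, z l1 = 1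
  · obtain ⟨l1, hl1⟩ := hex
    refine key 1 fun l => ?_
    have h3 := abs_le.mp (hz l1)
    have h4 := abs_le.mp (hz l)
    rw [hl1] at h3
    push_cast at h3
    have h5 : (-1 : ℝ) < z l := by linarith [h3.1, h3.2, h4.1, h4.2, (hw l1).2, (hw l).1]
    have h6 : -1 < z l := by exact_mod_cast h5
    have := hzb l
    omega
  · push Not at hex
    refine key 0 fun l => ?_
    have := hzb l
    have := hex l
    omega

lemma choose_m {r : ℕ} (hr : 0 < r) {κ : ℝ} (e : Fin r → ℝ)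
    (h : ∀ l l', ∃ z : ℤ, |e l - e l' - z| ≤ κ / 4) :
    ∃ m : Fin r → ℤ, ∀ l l', |(e l - m l) - (e l' - m l')| ≤ κ / 2 := by
  choose z hz using fun l => h l ⟨0, hr⟩
  refine ⟨z, fun l l' => ?_⟩
  have h3 := abs_le.mp (hz l)
  have h4 := abs_le.mp (hz l')
  rw [abs_le]
  constructor <;> linarith [h3.1, h3.2, h4.1, h4.2]

/-- `v * P j` -/
noncomputable def vP {n r : ℕ} (P : Fin n → Matrix (Fin r) (Fin r) ℂ) (v : Fin r → ℂ[X]) (j : Fin n)
    (l : Fin r) : ℂ[X] := ∑ a, v a * C (P j a l)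

lemma key_ineq {n r : ℕ} (hr : 1 < r) {β : Fin n → ℂ} {P : Fin n → Matrix (Fin r) (Fin r) ℂ}
    {w : Fin n → Fin r → ℝ} {e : Fin r → ℝ} (hSt : Stable β P w e) (v : Fin r → ℂ[X])
    (hv : v ≠ 0) (τ : Fin n → ℝ)
    (hτ : ∀ j l, vP P v j l ≠ 0 → τ j ≤ (vP P v j l).rootMultiplicity (β j) + w j l) :
    ∃ l, v l ≠ 0 ∧ ∑ j, τ j < (v l).natDegree + e l := by
  have hm : ∀ (U : Matrix (Fin 1) (Fin r) ℂ[X]) (J : Fin 1 → Fin r), mnr U J = U 0 (J 0) := by
    intro U J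
    simp [mnr]
  have hP : ∀ j l, ((Matrix.of fun (_ : Fin 1) a => v a) * (P j).map C) 0 l = vP P v j l := by
    intro j l
    rw [Matrix.mul_apply]
    rfl
  obtain ⟨l0, hl0⟩ : ∃ l, v l ≠ 0 := by
    by_contra hcon
    push Not at hcon
    exact hv (funext hcon)
  obtain ⟨J, hJ, h1⟩ := hSt 1 one_pos hr (Matrix.of fun (_ : Fin 1) a => v a)
    ⟨fun _ => l0, by rw [hm]; exact hl0⟩ τ (fun j J hJ => by
      rw [hm, hP] at hJ ⊢
      simpa using hτ j (J 0) hJ)
  refine ⟨J 0, ?_, ?_⟩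
  · rw [hm] at hJ
    exact hJ
  · rw [hm] at h1
    simpa using h1

/-- the vectors of polynomials with given coefficients -/
noncomputable def Psi {r : ℕ} (D : Fin r → ℕ) : ((Σ l : Fin r, Fin (D l)) → ℂ) →ₗ[ℂ] (Fin r → ℂ[X]) where
  toFun c l := ∑ i : Fin (D l), monomial (i : ℕ) (c ⟨l, i⟩)
  map_add' c c' := by
    funext l
    simp only [Pi.add_apply, map_add, Finset.sum_add_distrib]
  map_smul' a c := by
    funext l
    simp only [Pi.smul_apply, Finset.smul_sum, RingHom.id_apply, smul_monomial]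

lemma Psi_coeff {r : ℕ} (D : Fin r → ℕ) (c : (Σ l : Fin r, Fin (D l)) → ℂ) (l : Fin r)
    (i : Fin (D l)) : (Psi D c l).coeff i = c ⟨l, i⟩ := by
  show (∑ i : Fin (D l), monomial (i : ℕ) (c ⟨l, i⟩)).coeff i = c ⟨l, i⟩
  rw [finsetSum_coeff, Finset.sum_eq_single i]
  · rw [coeff_monomial, if_pos rfl]
  · intro b _ hb
    rw [coeff_monomial, if_neg]
    exact fun h => hb (Fin.ext h)
  · intro h
    exact absurd (Finset.mem_univ _) h

lemma Psi_coeff' {r : ℕ} (D : Fin r → ℕ) (c : (Σ l : Fin r, Fin (D l)) → ℂ) (l : Fin r)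
    (i : ℕ) (hi : D l ≤ i) : (Psi D c l).coeff i = 0 := by
  show (∑ i : Fin (D l), monomial (i : ℕ) (c ⟨l, i⟩)).coeff i = 0
  rw [finsetSum_coeff]
  refine Finset.sum_eq_zero fun b _ => ?_
  rw [coeff_monomial, if_neg]
  have := b.2
  omega

/-- the value at `β j` -/
noncomputable def evl {n r : ℕ} (β : Fin n → ℂ) (P : Fin n → Matrix (Fin r) (Fin r) ℂ) (j : Fin n)
    (l : Fin r) : (Fin r → ℂ[X]) →ₗ[ℂ] ℂ where
  toFun v := (vP P v j l).eval (β j)
  map_add' v v' := by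
    simp only [vP, Pi.add_apply, add_mul, Finset.sum_add_distrib, eval_add]
  map_smul' c v := by
    simp only [vP, Pi.smul_apply, smul_mul_assoc, ← Finset.smul_sum, eval_smul, RingHom.id_apply]

lemma exists_indep {n r : ℕ} (β : Fin n → ℂ) (P : Fin n → Matrix (Fin r) (Fin r) ℂ)
    (k : Fin n → Fin r → ℕ) (hk : ∀ j l, k j l ≤ 1) (D : Fin r → ℕ) (d : ℕ)
    (hd : d + ∑ j, ∑ l, k j l ≤ ∑ l, D l) :
    ∃ Y : Fin d → Fin r → ℂ[X], LinearIndependent ℂ Y ∧ ∀ i, (∀ l a, D l ≤ a → (Y i l).coeff a = 0) ∧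
      ∀ j l, k j l = 1 → (vP P (Y i) j l).eval (β j) = 0 := by
  classical
  obtain ⟨Φ, hΦ⟩ : ∃ Φ : ((Σ l : Fin r, Fin (D l)) → ℂ) →ₗ[ℂ]
      ({x : Fin n × Fin r // k x.1 x.2 = 1} → ℂ), ∀ c x, Φ c x = evl β P x.1.1 x.1.2 (Psi D c) :=
    ⟨LinearMap.pi fun x => evl β P x.1.1 x.1.2 ∘ₗ Psi D, fun c x => rfl⟩
  have h1 : Module.finrank ℂ ((Σ l : Fin r, Fin (D l)) → ℂ) = ∑ l, D l := by
    rw [Module.finrank_fintype_fun_eq_card, Fintype.card_sigma]
    simp
  have h2 : Module.finrank ℂ ({x : Fin n × Fin r // k x.1 x.2 = 1} → ℂ) = ∑ j, ∑ l, k j l := by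
    rw [Module.finrank_fintype_fun_eq_card, Fintype.card_subtype, Finset.card_filter,
      ← Fintype.sum_prod_type']
    refine Finset.sum_congr rfl fun x _ => ?_
    have := hk x.1 x.2
    split_ifs <;> omega
  have h3 := LinearMap.finrank_range_add_finrank_ker Φ
  have h4 : Module.finrank ℂ (LinearMap.range Φ) ≤ ∑ j, ∑ l, k j l := by
    rw [← h2]; exact Submodule.finrank_le _
  have h5 : d ≤ Module.finrank ℂ (LinearMap.ker Φ) := by omega
  obtain ⟨f, hf⟩ := exists_linearIndependent_of_le_finrank h5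
  have h6 : LinearIndependent ℂ fun i => (f i).1 :=
    hf.map' (LinearMap.ker Φ).subtype (Submodule.ker_subtype _)
  have h7 : LinearMap.ker (Psi D) = ⊥ := by
    rw [LinearMap.ker_eq_bot]
    intro c c' hcc
    funext x
    rw [← Psi_coeff D c x.1 x.2, ← Psi_coeff D c' x.1 x.2, hcc]
  refine ⟨fun i => Psi D (f i).1, h6.map' (Psi D) h7, fun i => ⟨fun l a ha => ?_, fun j l hjl => ?_⟩⟩
  · exact Psi_coeff' D _ l a ha
  · have h8 : Φ (f i).1 = 0 := (f i).2
    have h9 := congrFun h8 ⟨(j, l), hjl⟩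
    rw [hΦ] at h9
    exact h9


lemma eval_vP_dvd {n r : ℕ} {β : Fin n → ℂ} {P : Fin n → Matrix (Fin r) (Fin r) ℂ} {v : Fin r → ℂ[X]}
    {j : Fin n} {l : Fin r} {k : ℕ} (hk : k ≤ 1) (h : k = 1 → (vP P v j l).eval (β j) = 0) :
    ∃ z : ℂ[X], vP P v j l = (X - C (β j)) ^ k * z := by
  interval_cases k
  · exact ⟨vP P v j l, by simp⟩
  · obtain ⟨z, hz⟩ := dvd_iff_isRoot.mpr (h rfl)
    exact ⟨z, by rw [pow_one]; exact hz⟩

lemma mult_ge {b : ℂ} {p z : ℂ[X]} {k : ℕ} (hp : p ≠ 0) (h : p = (X - C b) ^ k * z) :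
    k ≤ p.rootMultiplicity b := (le_rootMultiplicity_iff hp).mpr ⟨z, h⟩

/-- linear combinations of the rows -/
noncomputable def comb {r d : ℕ} (Y : Fin d → Fin r → ℂ[X]) (u : Fin d → ℂ) : Fin r → ℂ[X] :=
  ∑ i, u i • Y i

lemma comb_apply {r d : ℕ} (Y : Fin d → Fin r → ℂ[X]) (u : Fin d → ℂ) (l : Fin r) :
    comb Y u l = ∑ i, C (u i) * Y i l := by
  unfold comb
  rw [Finset.sum_apply]
  refine Finset.sum_congr rfl fun i _ => ?_
  rw [Pi.smul_apply, smul_eq_C_mul]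

lemma comb_ne {r d : ℕ} {Y : Fin d → Fin r → ℂ[X]} (hY : LinearIndependent ℂ Y) {u : Fin d → ℂ}
    (hu : u ≠ 0) : comb Y u ≠ 0 := by
  intro h
  exact hu (funext fun i => Fintype.linearIndependent_iff.mp hY u h i)

lemma vP_comb {n r d : ℕ} (P : Fin n → Matrix (Fin r) (Fin r) ℂ) (Y : Fin d → Fin r → ℂ[X])
    (u : Fin d → ℂ) (j : Fin n) (l : Fin r) :
    vP P (comb Y u) j l = ∑ i, C (u i) * vP P (Y i) j l := by
  unfold vP
  simp only [comb_apply, Finset.sum_mul, Finset.mul_sum]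
  rw [Finset.sum_comm]
  refine Finset.sum_congr rfl fun i _ => Finset.sum_congr rfl fun a _ => ?_
  ring

end LatAX

open LatAX in
theorem latA : S_LATA := by
  intro n r hr κ hκ hκr β P w e hP hw hsum hSt hcw hce
  have hr0 : 0 < r := by omega
  have hrR : (0 : ℝ) < r := by exact_mod_cast hr0
  have hrR1 : (1 : ℝ) < r := by exact_mod_cast hr
  have hnR : (0 : ℝ) ≤ n := Nat.cast_nonneg n
  have hκn : ((n : ℝ) + 1) * κ < 1 := by
    have h1 : 0 < ((n : ℝ) + 1) * κ := by positivity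
    nlinarith
  have hκ1 : κ < 1 := by nlinarith
  choose k hk1 hk2 using fun j => choose_k hr0 hκ hκ1 (w j) (hw j) (hcw j)
  obtain ⟨m, hm⟩ := choose_m hr0 e hce
  obtain ⟨c, hc⟩ : ∃ c : Fin n → ℝ, c = fun j => (∑ l, (w j l + k j l)) / r := ⟨_, rfl⟩
  obtain ⟨c', hc'⟩ : ∃ c' : ℝ, c' = (∑ l, (e l - m l)) / r := ⟨_, rfl⟩
  have hclose : ∀ j l, |w j l + k j l - c j| ≤ κ := by
    intro j l
    have h1 := mean_close hr0 (fun l => w j l + k j l) (hk2 j) l
    rw [hc]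
    exact h1.trans (by linarith)
  have hclose' : ∀ l, |e l - m l - c'| ≤ κ := by
    intro l
    have h1 := mean_close hr0 (fun l => e l - m l) hm l
    rw [hc']
    exact h1.trans (by linarith)
  have hmean : ∀ j, ∑ l, (w j l + k j l) = r * c j := by
    intro j
    rw [hc]
    field_simp
  have hmean' : ∑ l, (e l - m l) = r * c' := by
    rw [hc']
    field_simp
  obtain ⟨T, hT⟩ : ∃ T : ℤ, T = ∑ l, m l + ((∑ j, ∑ l, k j l : ℕ) : ℤ) := ⟨_, rfl⟩
  have hTγ : (T : ℝ) = r * (∑ j, c j - c') := by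
    rw [mul_sub, Finset.mul_sum, ← hmean', Finset.sum_congr rfl fun j _ => (hmean j).symm, hT]
    push_cast
    simp only [Finset.sum_add_distrib, Finset.sum_sub_distrib]
    rw [hsum]
    ring
  -- the key inequality
  have key : ∀ (M0 : ℤ) (v : Fin r → ℂ[X]) (a : Fin n → ℕ), v ≠ 0 →
      (∀ l, v l ≠ 0 → ((v l).natDegree : ℤ) ≤ M0 - m l) →
      (∀ j l, ∃ z : ℂ[X], vP P v j l = (X - C (β j)) ^ (k j l + a j) * z) →
      ∑ j, c j + ∑ j, (a j : ℝ) < M0 + c' + (n + 1) * κ := by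
    intro M0 v a hv hdeg hdv
    obtain ⟨l, hl, h1⟩ := key_ineq hr hSt v hv (fun j => c j + a j - κ) (fun j l hjl => by
      obtain ⟨z, hz⟩ := hdv j l
      have h2 := mult_ge hjl hz
      have h3 : ((k j l + a j : ℕ) : ℝ) ≤ (vP P v j l).rootMultiplicity (β j) := by exact_mod_cast h2
      have h4 := abs_le.mp (hclose j l)
      push_cast at h3
      linarith [h4.1])
    have h2 : ((v l).natDegree : ℝ) ≤ M0 - m l := by exact_mod_cast hdeg l hl
    have h4 := abs_le.mp (hclose' l)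
    have h5 : ∑ j : Fin n, (c j + a j - κ) = ∑ j, c j + ∑ j, (a j : ℝ) - n * κ := by
      rw [Finset.sum_sub_distrib, Finset.sum_add_distrib, Finset.sum_const, Finset.card_univ,
        Fintype.card_fin, nsmul_eq_mul]
    rw [h5] at h1
    linarith [h4.2]
  -- existence of sections
  have exi : ∀ (M0 : ℤ) (d : ℕ), (d : ℤ) + T ≤ r * (M0 + 1) →
      ∃ Y : Fin d → Fin r → ℂ[X], LinearIndependent ℂ Y ∧
        (∀ i l a, (M0 - m l + 1).toNat ≤ a → (Y i l).coeff a = 0) ∧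
        ∀ i j l, k j l = 1 → (vP P (Y i) j l).eval (β j) = 0 := by
    intro M0 d hd
    obtain ⟨Y, h1, h2⟩ := exists_indep β P k hk1 (fun l => (M0 - m l + 1).toNat) d (by
      have h3 : ∑ l, (M0 - m l + 1) ≤ ((∑ l, (M0 - m l + 1).toNat : ℕ) : ℤ) := by
        push_cast
        exact Finset.sum_le_sum fun l _ => Int.self_le_toNat _
      have h4 : ∑ l : Fin r, (M0 - m l + 1) = r * (M0 + 1) - ∑ l, m l := by
        rw [Finset.sum_add_distrib, Finset.sum_sub_distrib]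
        simp
        ring
      rw [h4] at h3
      rw [hT] at hd
      zify at hd ⊢
      push_cast at h3 hd ⊢
      linarith)
    exact ⟨Y, h1, fun i l a ha => (h2 i).1 l a ha, fun i j l hjl => (h2 i).2 j l hjl⟩
  have hdegY : ∀ (M0 : ℤ) (v : ℂ[X]) (l : Fin r),
      (∀ a, (M0 - m l + 1).toNat ≤ a → v.coeff a = 0) → v ≠ 0 →
      ((v.natDegree : ℕ) : ℤ) ≤ M0 - m l := by
    intro M0 v l h hv
    by_contra hcon
    push Not at hcon
    have h1 := h v.natDegree (by omega)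
    rw [coeff_natDegree, leadingCoeff_eq_zero] at h1
    exact hv h1
  -- γ is an integer
  obtain ⟨γ, hγ⟩ : ∃ γ : ℝ, γ = ∑ j, c j - c' := ⟨_, rfl⟩
  rw [← hγ] at hTγ
  have hγint : γ = (⌈γ⌉ : ℤ) := by
    by_contra hne
    have h1 : γ < (⌈γ⌉ : ℤ) := lt_of_le_of_ne (Int.le_ceil γ) hne
    have h2 : ((⌈γ⌉ : ℤ) : ℝ) < γ + 1 := Int.ceil_lt_add_one γ
    have h3 : (T : ℝ) < r * (⌈γ⌉ : ℤ) := by rw [hTγ]; exact mul_lt_mul_of_pos_left h1 hrR
    have h4 : T < r * ⌈γ⌉ := by exact_mod_cast h3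
    obtain ⟨Y, hY, hY1, hY2⟩ := exi (⌈γ⌉ - 1) 1 (by push_cast; rw [sub_add_cancel]; omega)
    have h5 := key (⌈γ⌉ - 1) (Y 0) (fun _ => 0) (hY.ne_zero 0)
      (fun l hl => hdegY _ _ l (fun a ha => hY1 0 l a ha) hl)
      (fun j l => by
        rw [add_zero]
        exact eval_vP_dvd (hk1 j l) (hY2 0 j l))
    have h6 : γ < (⌈γ⌉ : ℤ) - 1 + (n + 1) * κ := by
      push_cast at h5
      simp only [Finset.sum_const_zero, add_zero] at h5
      rw [hγ]
      rw [hγ] at h5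
      linarith
    have h7 : (T : ℝ) < r * ((⌈γ⌉ : ℤ) - 1) + 1 := by
      rw [hTγ]
      nlinarith
    have h8 : T < r * (⌈γ⌉ - 1) + 1 := by exact_mod_cast h7
    have h9 : T ≤ r * (⌈γ⌉ - 1) := by omega
    have h10 : (T : ℝ) ≤ r * ((⌈γ⌉ : ℤ) - 1) := by exact_mod_cast h9
    rw [hTγ] at h10
    have h11 := le_of_mul_le_mul_left h10 hrR
    linarith
  obtain ⟨M, hM⟩ : ∃ M : ℤ, M = ⌈γ⌉ := ⟨_, rfl⟩
  rw [← hM] at hγint
  have hTM : T = r * M := by
    have h1 : (T : ℝ) = r * M := by rw [hTγ, hγint]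
    exact_mod_cast h1
  obtain ⟨Y, hY, hY1, hY2⟩ := exi M r (by rw [hTM]; linarith)
  choose Z hZ using fun j i l => eval_vP_dvd (β := β) (hk1 j l) (hY2 i j l)
  have hcombdeg : ∀ (u : Fin r → ℂ) (l : Fin r) a, (M - m l + 1).toNat ≤ a →
      (comb Y u l).coeff a = 0 := by
    intro u l a ha
    rw [comb_apply, finsetSum_coeff]
    refine Finset.sum_eq_zero fun i _ => ?_
    rw [coeff_C_mul, hY1 i l a ha, mul_zero]
  have hcombZ : ∀ (u : Fin r → ℂ) (j : Fin n) (l : Fin r),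
      vP P (comb Y u) j l = (X - C (β j)) ^ (k j l) * ∑ i, C (u i) * Z j i l := by
    intro u j l
    rw [vP_comb, Finset.mul_sum]
    refine Finset.sum_congr rfl fun i _ => ?_
    rw [hZ j i l]
    ring
  refine ⟨c, c', k, m, M, Matrix.of Y, fun j => Matrix.of fun i l => Z j i l,
    hclose, hclose', ?_, hmean, hmean', ?_, ?_, ?_, ?_⟩
  · rw [← hγint, hγ]
    ring
  · intro i l hil
    exact hdegY M _ l (fun a ha => hY1 i l a ha) hil
  · intro j i l
    rw [Matrix.of_apply, ← hZ j i l, Matrix.mul_apply]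
    rfl
  · intro j hdet
    obtain ⟨u, hu, huQ⟩ := Matrix.exists_vecMul_eq_zero_iff.mpr hdet
    have h5 := key M (comb Y u) (fun j' => if j' = j then 1 else 0) (comb_ne hY hu)
      (fun l hl => hdegY _ _ l (hcombdeg u l) hl)
      (fun j' l => by
        by_cases hj : j' = j
        · subst hj
          have h6 : (∑ i, C (u i) * Z j' i l).eval (β j') = 0 := by
            have h7 := congrFun huQ l
            rw [eval_finsetSum]
            simp only [eval_mul, eval_C]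
            simpa [Matrix.vecMul, dotProduct] using h7
          obtain ⟨z, hz⟩ := dvd_iff_isRoot.mpr h6
          refine ⟨z, ?_⟩
          rw [hcombZ, hz, if_pos rfl, pow_succ]
          ring
        · refine ⟨∑ i, C (u i) * Z j' i l, ?_⟩
          rw [hcombZ, if_neg hj, add_zero])
    have h8 : ∑ j' : Fin n, (((if j' = j then 1 else 0 : ℕ) : ℕ) : ℝ) = 1 := by
      simp
    rw [h8] at h5
    rw [← hγint] at h5
    linarith
  · intro hdet
    obtain ⟨u, hu, huQ⟩ := Matrix.exists_vecMul_eq_zero_iff.mpr hdet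
    have h5 := key (M - 1) (comb Y u) (fun _ => 0) (comb_ne hY hu)
      (fun l hl => by
        have h6 := hdegY _ _ l (hcombdeg u l) hl
        have h7 : m l ≤ M := by omega
        have h8 : (comb Y u l).coeff (M - m l).toNat = 0 := by
          have h9 := congrFun huQ l
          rw [comb_apply, finsetSum_coeff]
          simp only [coeff_C_mul]
          simpa [Matrix.vecMul, dotProduct, h7] using h9
        have h9 : (comb Y u l).natDegree ≠ (M - m l).toNat := by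
          intro h10
          rw [← h10, coeff_natDegree, leadingCoeff_eq_zero] at h8
          exact hl h8
        omega)
      (fun j l => ⟨_, by rw [hcombZ, add_zero]⟩)
    push_cast at h5
    simp only [Finset.sum_const_zero, add_zero] at h5
    rw [← hγint] at h5
    linarith

end Pool.Agent.N858.DS
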