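import Pool.Agent.N858.DS.Stm2

set_option autoImplicit false

/-!
# Project DT, part LATB (helper51): stability of the filtered space of global sections
-/

open Polynomial

namespace Pool.Agent.N858.DS

open Pool.Agent.Y227.SS Pool.Agent.N858.PC

namespace LatBAux

section
variable {n r s : ℕ}

lemma exists_cmn {U : Matrix (Fin s) (Fin r) ℂ} {Q : Matrix (Fin r) (Fin r) ℂ}
    (hU : ∃ J, cmn U J ≠ 0) (hQ : Q.det ≠ 0) : ∃ J, cmn (U * Q) J ≠ 0 := by
  by_contra hcon
  push Not at hcon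
  obtain ⟨J, hJ⟩ := hU
  apply hJ
  have hu : IsUnit Q.det := isUnit_iff_ne_zero.2 hQ
  have h0 : U = (U * Q) * Q⁻¹ := by
    rw [Matrix.mul_assoc, Matrix.mul_nonsing_inv Q hu, Matrix.mul_one]
  have h1 : U.submatrix id J = (U * Q) * (Q⁻¹.submatrix id J) := by
    conv_lhs => rw [h0]
    rfl
  unfold cmn
  rw [h1, det_mul_expand]
  refine Finset.sum_eq_zero fun J' _ => ?_
  have h2 := hcon J'
  unfold cmn at h2
  rw [h2, mul_zero]

lemma mnr_fac {β : Fin n → ℂ} {P : Fin n → Matrix (Fin r) (Fin r) ℂ} {k : Fin n → Fin r → ℕ}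
    {Y : Matrix (Fin r) (Fin r) ℂ[X]} {Z : Fin n → Matrix (Fin r) (Fin r) ℂ[X]}
    (fac : ∀ j i l, (Y * (P j).map C) i l = (X - C (β j)) ^ (k j l) * Z j i l)
    (U : Matrix (Fin s) (Fin r) ℂ) (j : Fin n) (J : Fin s → Fin r) :
    mnr (U.map C * Y * (P j).map C) J =
      (X - C (β j)) ^ (∑ i, k j (J i)) * mnr (U.map C * Z j) J := by
  unfold mnr
  have h1 : (U.map C * Y * (P j).map C).submatrix id J =
      Matrix.of fun i i' => (X - C (β j)) ^ (k j (J i')) *
        ((U.map C * Z j).submatrix id J) i i' := by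
    refine Matrix.ext fun i i' => ?_
    rw [Matrix.mul_assoc]
    show ∑ a, (U.map C) i a * (Y * (P j).map C) a (J i') =
      (X - C (β j)) ^ (k j (J i')) * ∑ a, (U.map C) i a * Z j a (J i')
    rw [Finset.mul_sum]
    refine Finset.sum_congr rfl fun a _ => ?_
    rw [fac]
    ring
  rw [h1, Matrix.det_mul_row, Finset.prod_pow_eq_pow_sum]

lemma eval_mnr (U : Matrix (Fin s) (Fin r) ℂ) (W : Matrix (Fin r) (Fin r) ℂ[X]) (b : ℂ)
    (J : Fin s → Fin r) :
    (mnr (U.map C * W) J).eval b = cmn (U * Matrix.of fun i l => (W i l).eval b) J := by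
  unfold mnr cmn
  rw [← coe_evalRingHom, RingHom.map_det]
  congr 1
  refine Matrix.ext fun i i' => ?_
  simp [Matrix.mul_apply, eval_finset_sum]

lemma natDegree_det_le (A : Matrix (Fin s) (Fin s) ℂ[X]) (d : Fin s → ℕ)
    (h : ∀ i l, (A i l).natDegree ≤ d l) : A.det.natDegree ≤ ∑ l, d l := by
  rw [Matrix.det_apply']
  refine natDegree_sum_le_of_forall_le _ _ fun σ _ => ?_
  refine natDegree_mul_le.trans ?_
  rw [natDegree_intCast, zero_add]
  exact (natDegree_prod_le _ _).trans (Finset.sum_le_sum fun i _ => h _ _)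

variable {m : Fin r → ℤ} {M : ℤ} {Y : Matrix (Fin r) (Fin r) ℂ[X]}

/-- the leading matrix -/
noncomputable def Qn (m : Fin r → ℤ) (M : ℤ) (Y : Matrix (Fin r) (Fin r) ℂ[X]) :
    Matrix (Fin r) (Fin r) ℂ :=
  Matrix.of fun i l => if m l ≤ M then (Y i l).coeff (M - m l).toNat else 0

lemma natDeg_Y (hdeg : ∀ i l, Y i l ≠ 0 → ((Y i l).natDegree : ℤ) ≤ M - m l) (i l : Fin r) :
    (Y i l).natDegree ≤ (M - m l).toNat := by
  by_cases h : Y i l = 0
  · rw [h, natDegree_zero]
    exact Nat.zero_le _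
  · have h1 := hdeg i l h
    omega

lemma natDeg_V (hdeg : ∀ i l, Y i l ≠ 0 → ((Y i l).natDegree : ℤ) ≤ M - m l)
    (U : Matrix (Fin s) (Fin r) ℂ) (i : Fin s) (l : Fin r) :
    ((U.map C * Y) i l).natDegree ≤ (M - m l).toNat := by
  rw [Matrix.mul_apply]
  refine natDegree_sum_le_of_forall_le _ _ fun a _ => ?_
  rw [Matrix.map_apply]
  exact (natDegree_C_mul_le _ _).trans (natDeg_Y hdeg a l)

lemma coeff_V (U : Matrix (Fin s) (Fin r) ℂ) (i : Fin s) {l : Fin r} (hm : m l ≤ M) :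
    ((U.map C * Y) i l).coeff (M - m l).toNat = (U * Qn m M Y) i l := by
  rw [Matrix.mul_apply, Matrix.mul_apply, finset_sum_coeff]
  refine Finset.sum_congr rfl fun a _ => ?_
  rw [Matrix.map_apply, coeff_C_mul]
  unfold Qn
  rw [Matrix.of_apply, if_pos hm]

lemma mnr_zero (hdeg : ∀ i l, Y i l ≠ 0 → ((Y i l).natDegree : ℤ) ≤ M - m l)
    (U : Matrix (Fin s) (Fin r) ℂ) {J : Fin s → Fin r} (hJ : mnr (U.map C * Y) J ≠ 0) :
    ∀ i, m (J i) ≤ M := by
  intro i
  by_contra hcon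
  apply hJ
  unfold mnr
  refine Matrix.det_eq_zero_of_column_eq_zero i fun i' => ?_
  show ∑ a, (U.map C) i' a * Y a (J i) = 0
  refine Finset.sum_eq_zero fun a _ => ?_
  have : Y a (J i) = 0 := by
    by_contra h
    have h1 := hdeg a (J i) h
    omega
  rw [this, mul_zero]

lemma natDeg_mnr (hdeg : ∀ i l, Y i l ≠ 0 → ((Y i l).natDegree : ℤ) ≤ M - m l)
    (U : Matrix (Fin s) (Fin r) ℂ) (J : Fin s → Fin r) :
    (mnr (U.map C * Y) J).natDegree ≤ ∑ i, (M - m (J i)).toNat := by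
  unfold mnr
  exact natDegree_det_le _ _ fun i l => natDeg_V hdeg U i (J l)

lemma coeff_mnr (hdeg : ∀ i l, Y i l ≠ 0 → ((Y i l).natDegree : ℤ) ≤ M - m l)
    (U : Matrix (Fin s) (Fin r) ℂ) {J : Fin s → Fin r} (hJ : ∀ i, m (J i) ≤ M) :
    (mnr (U.map C * Y) J).coeff (∑ i, (M - m (J i)).toNat) = cmn (U * Qn m M Y) J := by
  unfold mnr cmn
  have h1 := Pool.Agent.W432.PC.coeff_det_of_natDegree_le
    (((U.map C * Y).submatrix id J).transpose) (fun i => (M - m (J i)).toNat)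
    (fun i l => natDeg_V hdeg U l (J i))
  rw [Matrix.det_transpose] at h1
  rw [h1, ← Matrix.det_transpose]
  congr 1
  refine Matrix.ext fun i l => ?_
  exact coeff_V U i (hJ l)

/-- the independence of the rows of `V` -/
lemma exists_mnr (hdeg : ∀ i l, Y i l ≠ 0 → ((Y i l).natDegree : ℤ) ≤ M - m l)
    (hQ : (Qn m M Y).det ≠ 0) (U : Matrix (Fin s) (Fin r) ℂ) (hU : ∃ J, cmn U J ≠ 0) :
    ∃ J, mnr (U.map C * Y) J ≠ 0 := by
  obtain ⟨J, hJ⟩ := exists_cmn hU hQ
  have hm : ∀ i, m (J i) ≤ M := by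
    intro i
    by_contra hcon
    apply hJ
    unfold cmn
    refine Matrix.det_eq_zero_of_column_eq_zero i fun i' => ?_
    show ∑ a, U i' a * Qn m M Y a (J i) = 0
    refine Finset.sum_eq_zero fun a _ => ?_
    unfold Qn
    rw [Matrix.of_apply, if_neg hcon, mul_zero]
  refine ⟨J, fun h => hJ ?_⟩
  rw [← coeff_mnr hdeg U hm, h, coeff_zero]

/-- the weights at infinity -/
lemma top_le (hdeg : ∀ i l, Y i l ≠ 0 → ((Y i l).natDegree : ℤ) ≤ M - m l)
    (U : Matrix (Fin s) (Fin r) ℂ) {J : Fin s → Fin r} (hJ : mnr (U.map C * Y) J ≠ 0) :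
    ((mnr (U.map C * Y) J).natDegree : ℝ) ≤ ∑ i, ((M : ℝ) - m (J i)) ∧
    (cmn (U * Qn m M Y) J = 0 →
      ((mnr (U.map C * Y) J).natDegree : ℝ) ≤ ∑ i, ((M : ℝ) - m (J i)) - 1) := by
  have hm := mnr_zero hdeg U hJ
  have h1 : ((∑ i, (M - m (J i)).toNat : ℕ) : ℝ) = ∑ i, ((M : ℝ) - m (J i)) := by
    push_cast
    refine Finset.sum_congr rfl fun i _ => ?_
    have h2 : (((M - m (J i)).toNat : ℤ) : ℝ) = ((M - m (J i) : ℤ) : ℝ) := by
      rw [Int.toNat_of_nonneg (by have := hm i; omega)]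
    push_cast at h2
    exact_mod_cast h2
  have h2 := natDeg_mnr hdeg U J
  refine ⟨by rw [← h1]; exact_mod_cast h2, fun h0 => ?_⟩
  have h3 : (mnr (U.map C * Y) J).natDegree ≠ ∑ i, (M - m (J i)).toNat := by
    intro h4
    have h5 := coeff_mnr hdeg U hm
    rw [h0, ← h4] at h5
    exact hJ (leadingCoeff_eq_zero.1 h5)
  have h4 : (mnr (U.map C * Y) J).natDegree + 1 ≤ ∑ i, (M - m (J i)).toNat := by omega
  have h5 : ((mnr (U.map C * Y) J).natDegree : ℝ) + 1 ≤ ((∑ i, (M - m (J i)).toNat : ℕ) : ℝ) := by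
    exact_mod_cast h4
  rw [h1] at h5
  linarith

end

end LatBAux

open LatBAux in
theorem latB : S_LATB := by
  intro n r hr κ hκ hrκ β P w e c c' k m M Y Z h hP hS
  let Q : Option (Fin n) → Matrix (Fin r) (Fin r) ℂ := fun x => match x with
    | some j => Matrix.of fun i l => (Z j i l).eval (β j)
    | none => Qn m M Y
  have hQs : ∀ j, Q (some j) = Matrix.of fun i l => (Z j i l).eval (β j) := fun j => rfl
  have hQn : Q none = Qn m M Y := rfl
  have hQd : ∀ x, (Q x).det ≠ 0 := by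
    intro x
    rcases x with _ | j
    · exact h.lead
    · exact h.ev j
  refine ⟨Q, hQd, ?_⟩
  intro s hs0 hsr U hU τ hτ
  have hs0' : (0 : ℝ) < s := by exact_mod_cast hs0
  have hsr' : (s : ℝ) < r := by exact_mod_cast hsr
  have hsκ : 2 * (s * κ) < 1 := by nlinarith
  have hτs : ∀ j J, cmn (U * Q (some j)) J ≠ 0 → τ (some j) ≤ ∑ i, (w j (J i) + k j (J i) - c j) :=
    fun j J hJ => hτ (some j) J hJ
  have hτn : ∀ J, cmn (U * Q none) J ≠ 0 → τ none ≤ ∑ i, -(e (J i) - m (J i) - c') :=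
    fun J hJ => hτ none J hJ
  have hdeg := h.deg
  -- the bounds of the weights
  have hb1 : ∀ j (J : Fin s → Fin r), -(s * κ) ≤ ∑ i, (w j (J i) + k j (J i) - c j) ∧
      ∑ i, (w j (J i) + k j (J i) - c j) ≤ s * κ := by
    intro j J
    constructor
    · have h1 : ∑ _i : Fin s, -κ ≤ ∑ i, (w j (J i) + k j (J i) - c j) :=
        Finset.sum_le_sum fun i _ => (abs_le.1 (h.close j (J i))).1
      rw [Finset.sum_const, Finset.card_univ, Fintype.card_fin, nsmul_eq_mul] at h1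
      linarith
    · have h1 : ∑ i, (w j (J i) + k j (J i) - c j) ≤ ∑ _i : Fin s, κ :=
        Finset.sum_le_sum fun i _ => (abs_le.1 (h.close j (J i))).2
      rw [Finset.sum_const, Finset.card_univ, Fintype.card_fin, nsmul_eq_mul] at h1
      exact h1
  have hb2 : ∀ (J : Fin s → Fin r), -(s * κ) ≤ ∑ i, (e (J i) - m (J i) - c') ∧
      ∑ i, (e (J i) - m (J i) - c') ≤ s * κ := by
    intro J
    constructor
    · have h1 : ∑ _i : Fin s, -κ ≤ ∑ i, (e (J i) - m (J i) - c') :=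
        Finset.sum_le_sum fun i _ => (abs_le.1 (h.close' (J i))).1
      rw [Finset.sum_const, Finset.card_univ, Fintype.card_fin, nsmul_eq_mul] at h1
      linarith
    · have h1 : ∑ i, (e (J i) - m (J i) - c') ≤ ∑ _i : Fin s, κ :=
        Finset.sum_le_sum fun i _ => (abs_le.1 (h.close' (J i))).2
      rw [Finset.sum_const, Finset.card_univ, Fintype.card_fin, nsmul_eq_mul] at h1
      exact h1
  -- the orders
  have hord : ∀ j J, mnr (U.map C * Y * (P j).map C) J ≠ 0 →
      τ (some j) + s * c j ≤ (mnr (U.map C * Y * (P j).map C) J).rootMultiplicity (β j) +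
        ∑ i, w j (J i) := by
    intro j J hJ
    rw [mnr_fac h.fac] at hJ ⊢
    have hg : mnr (U.map C * Z j) J ≠ 0 := right_ne_zero_of_mul hJ
    have hmul : ((X - C (β j)) ^ (∑ i, k j (J i)) * mnr (U.map C * Z j) J).rootMultiplicity (β j) =
        (∑ i, k j (J i)) + (mnr (U.map C * Z j) J).rootMultiplicity (β j) := by
      rw [rootMultiplicity_mul hJ, rootMultiplicity_X_sub_C_pow]
    rw [hmul]
    have hsum : ∑ i, (w j (J i) + k j (J i) - c j) =
        ∑ i, w j (J i) + ((∑ i, k j (J i) : ℕ) : ℝ) - s * c j := by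
      rw [Finset.sum_sub_distrib, Finset.sum_add_distrib, Finset.sum_const, Finset.card_univ,
        Fintype.card_fin, nsmul_eq_mul]
      push_cast
      ring
    push_cast
    push_cast at hsum
    by_cases h0 : cmn (U * Q (some j)) J = 0
    · -- the order is larger
      have h1 : (mnr (U.map C * Z j) J).IsRoot (β j) := by
        show (mnr (U.map C * Z j) J).eval (β j) = 0
        rw [eval_mnr]
        exact h0
      have h2 : 1 ≤ (mnr (U.map C * Z j) J).rootMultiplicity (β j) :=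
        (rootMultiplicity_pos hg).2 h1
      have h2' : (1 : ℝ) ≤ ((mnr (U.map C * Z j) J).rootMultiplicity (β j) : ℕ) := by
        exact_mod_cast h2
      obtain ⟨J', hJ'⟩ := exists_cmn hU (hQd (some j))
      have h3 := (hτs j J' hJ').trans (hb1 j J').2
      have h4 := (hb1 j J).1
      linarith
    · have h3 := hτs j J h0
      have h4 : (0 : ℝ) ≤ ((mnr (U.map C * Z j) J).rootMultiplicity (β j) : ℕ) :=
        Nat.cast_nonneg _
      linarith
  obtain ⟨J, hJ, hJlt⟩ := hS s hs0 hsr (U.map C * Y) (exists_mnr hdeg h.lead U hU)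
    (fun j => τ (some j) + s * c j) hord
  have htop := top_le hdeg U hJ
  have hsumτ : ∑ j, (τ (some j) + s * c j) = ∑ j, τ (some j) + s * ∑ j, c j := by
    rw [Finset.sum_add_distrib, Finset.mul_sum]
  rw [hsumτ, ← h.total] at hJlt
  have hsumM : ∑ i, ((M : ℝ) - m (J i)) = s * M - ∑ i, (m (J i) : ℝ) := by
    rw [Finset.sum_sub_distrib, Finset.sum_const, Finset.card_univ, Fintype.card_fin, nsmul_eq_mul]
  have hsume : ∑ i, (e (J i) - m (J i) - c') = ∑ i, e (J i) - ∑ i, (m (J i) : ℝ) - s * c' := by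
    rw [Finset.sum_sub_distrib, Finset.sum_sub_distrib, Finset.sum_const, Finset.card_univ,
      Fintype.card_fin, nsmul_eq_mul]
  rw [hsumM] at htop
  rw [Fintype.sum_option]
  by_cases h0 : cmn (U * Q none) J = 0
  · have h1 := htop.2 h0
    have h2 := (hb2 J).2
    obtain ⟨J', hJ'⟩ := exists_cmn hU (hQd none)
    have h3 := hτn J' hJ'
    rw [Finset.sum_neg_distrib] at h3
    have h4 := (hb2 J').1
    rw [hsume] at h2
    nlinarith
  · have h1 := htop.1
    have h3 := hτn J h0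
    rw [Finset.sum_neg_distrib, hsume] at h3
    nlinarith

end Pool.Agent.N858.DS
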