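import Pool.Agent.N858.DS.Stm2

set_option autoImplicit false

/-!
Conjugates with nearly equal exponents: by Dirichlet's simultaneous approximation theorem some
`1 ≤ t ≤ M`, `M` depending on the number of exponents and `η` only, brings all differences close to
integers; `t` is prime to the denominator `q` because all prime factors of `q` are greater than `M`.
-/

open Polynomial

namespace Pool.Agent.N858.DS

open Pool.Agent.Y227.SS Pool.Agent.N858.PC

/-- An integer with a given residue which is prime to `N` (copy of `Pool.Agent.N858.R3.exists_lift`). -/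
lemma near_lift {q N : ℕ} (hq : 0 < q) (hN : 0 < N) {u : ℤ} (hu : IsCoprime u (q : ℤ)) :
    ∃ a : ℤ, IsCoprime a (N : ℤ) ∧ (q : ℤ) ∣ a - u := by
  have : NeZero (N * q) := ⟨(Nat.mul_pos hN hq).ne'⟩
  have hdvd : q ∣ N * q := Dvd.intro_left N rfl
  obtain ⟨v, hv⟩ := ZMod.unitsMap_surjective hdvd (ZMod.unitOfIsCoprime u hu)
  refine ⟨((v : ZMod (N * q)).val : ℤ), ?_, ?_⟩
  · have h1 : Nat.Coprime (v : ZMod (N * q)).val (N * q) := ZMod.val_coe_unit_coprime v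
    exact Nat.isCoprime_iff_coprime.2 (Nat.Coprime.coprime_mul_right_right h1)
  · rw [← ZMod.intCast_zmod_eq_zero_iff_dvd]
    have h1 := congrArg (fun w : (ZMod q)ˣ => (w : ZMod q)) hv
    simp only [ZMod.unitsMap_def, Units.coe_map, ZMod.coe_unitOfIsCoprime] at h1
    push_cast
    rw [sub_eq_zero, ← h1]
    exact (ZMod.natCast_val _)

/-- Dirichlet's simultaneous approximation theorem. -/
lemma near_dirichlet {I : Type} [Fintype I] (θ : I → ℝ) (K : ℕ) (hK : 0 < K) :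
    ∃ t : ℕ, 0 < t ∧ t ≤ K ^ Fintype.card I ∧ ∀ i, ∃ z : ℤ, |(t : ℝ) * θ i - z| ≤ 1 / K := by
  classical
  have hK0 : (0 : ℝ) < K := by exact_mod_cast hK
  have hlt : ∀ x : ℝ, ⌊(K : ℝ) * Int.fract x⌋₊ < K := by
    intro x
    rw [Nat.floor_lt (mul_nonneg hK0.le (Int.fract_nonneg x))]
    calc (K : ℝ) * Int.fract x < K * 1 := mul_lt_mul_of_pos_left (Int.fract_lt_one x) hK0
      _ = K := mul_one _
  let f : Fin (K ^ Fintype.card I + 1) → I → Fin K := fun t i =>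
    ⟨⌊(K : ℝ) * Int.fract (((t : ℕ) : ℝ) * θ i)⌋₊, hlt _⟩
  obtain ⟨t, t', hne, heq⟩ := Fintype.exists_ne_map_eq_of_card_lt f (by simp)
  have key : ∀ t t' : Fin (K ^ Fintype.card I + 1), t < t' → f t = f t' →
      ∃ t : ℕ, 0 < t ∧ t ≤ K ^ Fintype.card I ∧ ∀ i, ∃ z : ℤ, |(t : ℝ) * θ i - z| ≤ 1 / K := by
    intro t t' hlt' heq
    have h1 : (t : ℕ) < (t' : ℕ) := hlt'
    refine ⟨(t' : ℕ) - (t : ℕ), by omega, by omega, fun i => ?_⟩
    refine ⟨⌊((t' : ℕ) : ℝ) * θ i⌋ - ⌊((t : ℕ) : ℝ) * θ i⌋, ?_⟩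
    have h2 : ⌊(K : ℝ) * Int.fract (((t : ℕ) : ℝ) * θ i)⌋₊ =
        ⌊(K : ℝ) * Int.fract (((t' : ℕ) : ℝ) * θ i)⌋₊ := by
      have := congrFun heq i
      simp only [f, Fin.mk.injEq] at this
      exact this
    have h3 : 0 ≤ (K : ℝ) * Int.fract (((t : ℕ) : ℝ) * θ i) :=
      mul_nonneg hK0.le (Int.fract_nonneg _)
    have h4 : 0 ≤ (K : ℝ) * Int.fract (((t' : ℕ) : ℝ) * θ i) :=
      mul_nonneg hK0.le (Int.fract_nonneg _)
    have h5 := Nat.floor_le h3
    have h6 := Nat.lt_floor_add_one ((K : ℝ) * Int.fract (((t : ℕ) : ℝ) * θ i))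
    have h7 := Nat.floor_le h4
    have h8 := Nat.lt_floor_add_one ((K : ℝ) * Int.fract (((t' : ℕ) : ℝ) * θ i))
    rw [← h2] at h7 h8
    have h9 : (((t' : ℕ) - (t : ℕ) : ℕ) : ℝ) * θ i -
        ((⌊((t' : ℕ) : ℝ) * θ i⌋ - ⌊((t : ℕ) : ℝ) * θ i⌋ : ℤ) : ℝ) =
        Int.fract (((t' : ℕ) : ℝ) * θ i) - Int.fract (((t : ℕ) : ℝ) * θ i) := by
      rw [Nat.cast_sub h1.le, Int.fract, Int.fract]
      push_cast
      ring
    rw [h9, abs_le]
    constructor
    · rw [← sub_nonneg]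
      have : 0 ≤ (K : ℝ) * (Int.fract (((t' : ℕ) : ℝ) * θ i) - Int.fract (((t : ℕ) : ℝ) * θ i)) + 1 := by
        linarith
      have h10 : Int.fract (((t' : ℕ) : ℝ) * θ i) - Int.fract (((t : ℕ) : ℝ) * θ i) - -(1 / (K : ℝ)) =
          ((K : ℝ) * (Int.fract (((t' : ℕ) : ℝ) * θ i) - Int.fract (((t : ℕ) : ℝ) * θ i)) + 1) / K := by
        field_simp
        ring
      rw [h10]
      exact div_nonneg this hK0.le
    · rw [le_div_iff₀ hK0]
      linarith
  rcases lt_or_gt_of_ne hne with h | h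
  · exact key t t' h heq
  · exact key t' t h heq.symm

theorem near : S_NEAR := by
  intro X _ r η hη
  obtain ⟨K, hK⟩ := exists_nat_gt (1 / η)
  have hK0 : (0 : ℝ) < K := lt_trans (by positivity) hK
  have hK1 : 0 < K := by exact_mod_cast hK0
  refine ⟨K ^ Fintype.card (X × Fin r × Fin r), fun e N hN _ hR => ?_⟩
  obtain ⟨q, hq, hr, hd⟩ := hR
  obtain ⟨t, ht, htK, hθ⟩ := near_dirichlet (I := X × Fin r × Fin r)
    (fun i => ((e i.1 i.2.1 - e i.1 i.2.2 : ℚ) : ℝ)) K hK1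
  have hco : IsCoprime (t : ℤ) (q : ℤ) := by
    rw [Nat.isCoprime_iff_coprime]
    by_contra hnc
    obtain ⟨p, hp, h2, h3⟩ := Nat.Prime.not_coprime_iff_dvd.1 hnc
    have h4 := hr p hp h3
    have h5 := Nat.le_of_dvd ht h2
    omega
  obtain ⟨a, ha, hau⟩ := near_lift hq hN hco
  refine ⟨a, ha, fun x l l' => ?_⟩
  obtain ⟨z, hz⟩ := hθ (x, l, l')
  obtain ⟨w, hw⟩ := hd x l l'
  obtain ⟨s, hs⟩ := hau
  refine ⟨z + s * w, ?_⟩
  have hw' : (q : ℝ) * ((e x l - e x l' : ℚ) : ℝ) = w := by exact_mod_cast hw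
  have ha' : (a : ℝ) = t + q * s := by
    have : a = t + q * s := by linarith
    exact_mod_cast this
  have h1 : (a : ℝ) * ((e x l - e x l' : ℚ) : ℝ) - ((z + s * w : ℤ) : ℝ) =
      (t : ℝ) * ((e x l - e x l' : ℚ) : ℝ) - z := by
    rw [ha']
    push_cast at hw' ⊢
    rw [← hw']
    ring
  rw [h1]
  refine hz.trans ?_
  rw [div_le_iff₀ hK0]
  rw [div_lt_iff₀ hη] at hK
  linarith

end Pool.Agent.N858.DS
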