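import Pool.Agent.N858.DS.Stm2

set_option autoImplicit false

/-!
Project DT, leaf SCH: Schur's lemma for stable filtered spaces.
-/

namespace Pool.Agent.N858.DS

open Matrix

/-- A matrix with linearly independent rows has a nonzero maximal minor. -/
lemma sch_exists_minor {s r : ℕ} (U : Matrix (Fin s) (Fin r) ℂ)
    (hU : LinearIndependent ℂ (fun i => U i)) :
    ∃ J : Fin s → Fin r, cmn U J ≠ 0 := by
  have hr : U.rank = s := by
    have := LinearIndependent.rank_matrix (M := U) hU
    simpa using this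
  have hspan : Module.finrank ℂ (Submodule.span ℂ (Set.range U.col)) = s := by
    rw [← Matrix.rank_eq_finrank_span_cols, hr]
  obtain ⟨κ, a, ha, hsp, hli⟩ := exists_linearIndependent' ℂ U.col
  have hfin : Finite κ := Finite.of_injective a ha
  have hfint : Fintype κ := Fintype.ofFinite κ
  have hcard : Fintype.card κ = s := by
    have h1 := finrank_span_eq_card hli
    rw [hsp, hspan] at h1
    exact h1.symm
  let e : Fin s ≃ κ := Fintype.equivOfCardEq (by simp [hcard])
  refine ⟨a ∘ e, ?_⟩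
  have h2 : LinearIndependent ℂ ((U.col ∘ a) ∘ e) := hli.comp e e.injective
  have h3 : LinearIndependent ℂ (U.submatrix id (a ∘ e)).col := h2
  rw [Matrix.linearIndependent_cols_iff_isUnit, Matrix.isUnit_iff_isUnit_det] at h3
  exact h3.ne_zero

lemma sch_minor_inj {s r : ℕ} (U : Matrix (Fin s) (Fin r) ℂ) (J : Fin s → Fin r)
    (h : cmn U J ≠ 0) : Function.Injective J := by
  intro i j hij
  by_contra hne
  apply h
  unfold cmn
  apply Matrix.det_zero_of_column_eq hne
  intro k
  simp [hij]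

/-- The rows of `U * Q` are linearly independent when those of `U` are. -/
lemma sch_li_mul {s r : ℕ} (U : Matrix (Fin s) (Fin r) ℂ) (Q : Matrix (Fin r) (Fin r) ℂ)
    (hU : LinearIndependent ℂ (fun i => U i)) (hQ : Q.det ≠ 0) :
    LinearIndependent ℂ (fun i => (U * Q) i) := by
  have h1 : Function.Injective (Q.vecMulLinear) := by
    have hu : IsUnit Q := (Matrix.isUnit_iff_isUnit_det Q).mpr (isUnit_iff_ne_zero.mpr hQ)
    exact Matrix.vecMul_injective_iff_isUnit.mpr hu
  have h2 := hU.map' Q.vecMulLinear (LinearMap.ker_eq_bot.mpr h1)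
  exact h2

/-- The estimate at one point. -/
lemma sch_core {r s s' : ℕ} (hs : s + s' = r) (Q Z0 : Matrix (Fin r) (Fin r) ℂ)
    (hQ : Q.det ≠ 0) (t : Fin r → ℝ) (hP : Pres Q t Z0)
    (U : Matrix (Fin s) (Fin r) ℂ) (hU : U * Z0 = 0) (R : Matrix (Fin s') (Fin r) ℂ)
    (J : Fin s → Fin r) (hJ : cmn (U * Q) J ≠ 0) (J' : Fin s' → Fin r)
    (hJ' : cmn (R * Z0 * Q) J' ≠ 0) :
    ∑ l, t l ≤ ∑ i, t (J i) + ∑ i, t (J' i) := by
  classical
  have hJi := sch_minor_inj _ _ hJ
  have hQu : IsUnit Q.det := isUnit_iff_ne_zero.mpr hQ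
  set Z' := Q⁻¹ * Z0 * Q with hZ'
  set U' := U * Q with hU'
  set R' := R * Q with hR'
  have h1 : U' * Z' = 0 := by
    rw [hU', hZ']
    calc U * Q * (Q⁻¹ * Z0 * Q) = U * (Q * Q⁻¹) * Z0 * Q := by simp only [Matrix.mul_assoc]
      _ = U * Z0 * Q := by rw [Matrix.mul_nonsing_inv _ hQu, Matrix.mul_one]
      _ = 0 := by rw [hU, Matrix.zero_mul]
  have h2 : R' * Z' = R * Z0 * Q := by
    rw [hR', hZ']
    calc R * Q * (Q⁻¹ * Z0 * Q) = R * (Q * Q⁻¹) * Z0 * Q := by simp only [Matrix.mul_assoc]
      _ = R * Z0 * Q := by rw [Matrix.mul_nonsing_inv _ hQu, Matrix.mul_one]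
  set B := U'.submatrix id J with hB
  have hBu : IsUnit B.det := isUnit_iff_ne_zero.mpr hJ
  set R2 := R' - R'.submatrix id J * B⁻¹ * U' with hR2
  have h3 : R2 * Z' = R * Z0 * Q := by
    rw [hR2, Matrix.sub_mul, Matrix.mul_assoc _ U' Z', h1, Matrix.mul_zero, sub_zero, h2]
  have h4 : ∀ i k, R2 i (J k) = 0 := by
    intro i k
    have h5 : R2.submatrix id J = 0 := by
      have h6 : (R'.submatrix id J * B⁻¹ * U').submatrix id J
          = R'.submatrix id J * B⁻¹ * B := by
        ext a b
        simp [Matrix.mul_apply, hB]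
      rw [hR2, Matrix.submatrix_sub]
      simp only [Pi.sub_apply]
      rw [h6, Matrix.mul_assoc, Matrix.nonsing_inv_mul _ hBu, Matrix.mul_one, sub_self]
    have := congrFun (congrFun h5 i) k
    simpa using this
  -- the complement of the range of `J`
  have hcard : Fintype.card (Fin s') = Fintype.card ((Set.range J)ᶜ : Set (Fin r)) := by
    have h7 := Fintype.card_congr (Equiv.Set.sumCompl (Set.range J))
    have h8 := Fintype.card_congr (Equiv.ofInjective J hJi)
    rw [Fintype.card_sum] at h7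
    rw [Fintype.card_fin] at h7 h8
    rw [← h8] at h7
    rw [Fintype.card_fin]
    omega
  let e : Fin s' ≃ ((Set.range J)ᶜ : Set (Fin r)) := Fintype.equivOfCardEq hcard
  let E : Fin s ⊕ Fin s' ≃ Fin r :=
    (Equiv.sumCongr (Equiv.ofInjective J hJi) e).trans (Equiv.Set.sumCompl (Set.range J))
  have hEl : ∀ i, E (Sum.inl i) = J i := fun i => by simp [E]
  have hsum : ∀ {A : Type} [AddCommMonoid A] (f : Fin r → A),
      ∑ l, f l = ∑ i, f (J i) + ∑ k, f (E (Sum.inr k)) := by
    intro A _ f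
    rw [← Equiv.sum_comp E f, Fintype.sum_sum_type]
    simp only [hEl]
  have h9 : (R2 * Z').submatrix id J' =
      (R2.submatrix id (fun k => E (Sum.inr k))) * (Z'.submatrix (fun k => E (Sum.inr k)) J') := by
    ext a b
    simp only [Matrix.submatrix_apply, Matrix.mul_apply, id_eq]
    rw [hsum (fun l => R2 a l * Z' l (J' b))]
    simp [h4]
  have h10 : (Z'.submatrix (fun k => E (Sum.inr k)) J').det ≠ 0 := by
    intro h0
    apply hJ'
    unfold cmn
    rw [← h3, h9, Matrix.det_mul, h0, mul_zero]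
  have h11 : ∃ σ : Equiv.Perm (Fin s'), ∏ i, Z' (E (Sum.inr (σ i))) (J' i) ≠ 0 := by
    by_contra hno
    push Not at hno
    apply h10
    rw [Matrix.det_apply]
    apply Finset.sum_eq_zero
    intro σ _
    simp only [Matrix.submatrix_apply]
    rw [hno σ, smul_zero]
  obtain ⟨σ, hσ⟩ := h11
  rw [Finset.prod_ne_zero_iff] at hσ
  have h12 : ∑ k, t (E (Sum.inr k)) ≤ ∑ i, t (J' i) := by
    rw [← Equiv.sum_comp σ (fun k => t (E (Sum.inr k)))]
    apply Finset.sum_le_sum
    intro i hi
    exact hP _ _ (hσ i hi)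
  rw [hsum t]
  linarith

theorem sch : S_SCH := by
  intro X _ r Q t hQ ht hst Z hZ
  classical
  rcases Nat.eq_zero_or_pos r with hr | hr
  · subst hr
    exact ⟨0, Subsingleton.elim _ _⟩
  haveI : Nonempty (Fin r) := ⟨⟨0, hr⟩⟩
  obtain ⟨z, hz⟩ := Module.End.exists_eigenvalue (K := ℂ) (V := Fin r → ℂ) Z.vecMulLinear
  refine ⟨z, ?_⟩
  obtain ⟨v, hv⟩ := hz.exists_hasEigenvector
  set Z0 := Z - z • (1 : Matrix (Fin r) (Fin r) ℂ) with hZ0
  set φ : (Fin r → ℂ) →ₗ[ℂ] (Fin r → ℂ) := Z0.vecMulLinear with hφ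
  have hφv : φ v = 0 := by
    have h1 := hv.apply_eq_smul
    have h1' : v ᵥ* Z = z • v := h1
    show v ᵥ* Z0 = 0
    rw [hZ0, Matrix.vecMul_sub, h1', Matrix.vecMul_smul, Matrix.vecMul_one, sub_self]
  have hv0 : v ≠ 0 := hv.2
  have hPres : ∀ x, Pres (Q x) (t x) Z0 := by
    intro x l l' hne
    by_cases hll : l = l'
    · rw [hll]
    · apply hZ x l l'
      intro h0
      apply hne
      have hQu : IsUnit (Q x).det := isUnit_iff_ne_zero.mpr (hQ x)
      have h2 : (Q x)⁻¹ * Z0 * Q x = (Q x)⁻¹ * Z * Q x - z • 1 := by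
        rw [hZ0, Matrix.mul_sub, Matrix.sub_mul, Matrix.mul_smul, Matrix.mul_one, Matrix.smul_mul,
          Matrix.nonsing_inv_mul _ hQu]
      rw [h2, Matrix.sub_apply, h0, Matrix.smul_apply, Matrix.one_apply_ne hll]
      simp
  set s := Module.finrank ℂ (LinearMap.ker φ) with hs
  set s' := Module.finrank ℂ (LinearMap.range φ) with hs'
  have hss : s + s' = r := by
    have := LinearMap.finrank_range_add_finrank_ker φ
    rw [Module.finrank_fin_fun] at this
    omega
  have hspos : 0 < s := by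
    rw [hs]
    have : Nontrivial (LinearMap.ker φ) := by
      refine ⟨⟨v, hφv⟩, 0, ?_⟩
      intro h
      exact hv0 (congrArg Subtype.val h)
    exact Module.finrank_pos
  have hmain : Z0 = 0 := by
    by_contra hne
    have hs'pos : 0 < s' := by
      rw [Nat.pos_iff_ne_zero]
      intro h0
      apply hne
      have h1 : LinearMap.range φ = ⊥ := by
        rw [← Submodule.finrank_eq_zero (R := ℂ)]
        exact h0
      have h2 : φ = 0 := LinearMap.range_eq_bot.mp h1
      ext i j
      have h3 : (Pi.single i 1 : Fin r → ℂ) ᵥ* Z0 = 0 := by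
        have := congrArg (fun g : (Fin r → ℂ) →ₗ[ℂ] (Fin r → ℂ) => g (Pi.single i 1)) h2
        exact this
      rw [Matrix.single_one_vecMul] at h3
      exact congrFun h3 j
    -- the kernel
    let b := Module.finBasis ℂ (LinearMap.ker φ)
    let U : Matrix (Fin s) (Fin r) ℂ := Matrix.of fun i => ((b i : LinearMap.ker φ) : Fin r → ℂ)
    have hUli : LinearIndependent ℂ (fun i => U i) := by
      have h1 := b.linearIndependent.map' (Submodule.subtype (LinearMap.ker φ))
        (Submodule.ker_subtype _)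
      exact h1
    have hU0 : U * Z0 = 0 := by
      ext i j
      have h1 : φ ((b i : LinearMap.ker φ) : Fin r → ℂ) = 0 := (b i).2
      have h2 := congrFun h1 j
      exact h2
    -- the image
    let b' := Module.finBasis ℂ (LinearMap.range φ)
    have hpre : ∀ i, ∃ w : Fin r → ℂ, φ w = ((b' i : LinearMap.range φ) : Fin r → ℂ) :=
      fun i => (b' i).2
    choose w hw using hpre
    let R : Matrix (Fin s') (Fin r) ℂ := Matrix.of w
    have hRli : LinearIndependent ℂ (fun i => (R * Z0) i) := by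
      have h1 := b'.linearIndependent.map' (Submodule.subtype (LinearMap.range φ))
        (Submodule.ker_subtype _)
      have h2 : (fun i => (R * Z0) i) = (Submodule.subtype (LinearMap.range φ)) ∘ b' := by
        funext i
        exact hw i
      rw [h2]
      exact h1
    have hex : ∀ x, ∃ J : Fin s → Fin r, cmn (U * Q x) J ≠ 0 ∧
        ∀ J2 : Fin s → Fin r, cmn (U * Q x) J2 ≠ 0 → ∑ i, t x (J i) ≤ ∑ i, t x (J2 i) := by
      intro x
      obtain ⟨J1, hJ1⟩ := sch_exists_minor _ (sch_li_mul U (Q x) hUli (hQ x))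
      obtain ⟨J, hJ, hJm⟩ := Finset.exists_min_image
        (Finset.univ.filter (fun J : Fin s → Fin r => cmn (U * Q x) J ≠ 0))
        (fun J => ∑ i, t x (J i)) ⟨J1, by simp [hJ1]⟩
      refine ⟨J, by simpa using hJ, ?_⟩
      intro J2 hJ2
      exact hJm J2 (by simp [hJ2])
    choose J hJ hJm using hex
    have h1 := hst s hspos (by omega) U (sch_exists_minor U hUli) (fun x => ∑ i, t x (J x i))
      (fun x J2 hJ2 => hJm x J2 hJ2)
    have h2 := hst s' hs'pos (by omega) (R * Z0) (sch_exists_minor _ hRli)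
      (fun x => ∑ l, t x l - ∑ i, t x (J x i)) (by
        intro x J' hJ'
        have := sch_core hss (Q x) Z0 (hQ x) (t x) (hPres x) U hU0 R (J x) (hJ x) J' hJ'
        linarith)
    rw [Finset.sum_sub_distrib, ht] at h2
    linarith
  rw [hZ0, sub_eq_zero] at hmain
  exact hmain

end Pool.Agent.N858.DS
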