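import Pool.Agent.N858.DS.Stm2

set_option autoImplicit false

/-!
Matrices with sum zero which preserve the filtrations, with given diagonal parts.
-/

open Matrix

namespace Pool.Agent.N858.DS

open Pool.Agent.Y227.SS Pool.Agent.N858.PC

namespace SOL

variable {X : Type} [Fintype X] {r : ℕ}

/-- the space of the sums of conjugates of strictly triangular matrices -/
def W (Q : X → Matrix (Fin r) (Fin r) ℂ) (t : X → Fin r → ℝ) :
    Submodule ℂ (Matrix (Fin r) (Fin r) ℂ) where
  carrier := {T | ∃ N : X → Matrix (Fin r) (Fin r) ℂ, (∀ x l l', ¬ t x l < t x l' → N x l l' = 0) ∧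
    T = ∑ x, Q x * N x * (Q x)⁻¹}
  zero_mem' := ⟨0, fun _ _ _ _ => rfl, by simp⟩
  add_mem' := by
    rintro _ _ ⟨N, hN, rfl⟩ ⟨N', hN', rfl⟩
    refine ⟨N + N', fun x l l' h => ?_, ?_⟩
    · simp only [Pi.add_apply, Matrix.add_apply, hN x l l' h, hN' x l l' h, add_zero]
    · rw [← Finset.sum_add_distrib]
      refine Finset.sum_congr rfl fun x _ => ?_
      rw [Pi.add_apply, Matrix.mul_add, Matrix.add_mul]
  smul_mem' := by
    rintro c _ ⟨N, hN, rfl⟩
    refine ⟨c • N, fun x l l' h => ?_, ?_⟩
    · simp only [Pi.smul_apply, Matrix.smul_apply, hN x l l' h, smul_zero]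
    · rw [Finset.smul_sum]
      refine Finset.sum_congr rfl fun x _ => ?_
      rw [Pi.smul_apply, Matrix.mul_smul, Matrix.smul_mul]

/-- linear functionals are traces -/
lemma fun_eq (f : Matrix (Fin r) (Fin r) ℂ →ₗ[ℂ] ℂ) (Y : Matrix (Fin r) (Fin r) ℂ) :
    f Y = (Matrix.of (fun i j => f (Matrix.single j i 1)) * Y).trace := by
  conv_lhs => rw [Matrix.matrix_eq_sum_single Y]
  simp only [map_sum, Matrix.trace, Matrix.diag_apply, Matrix.mul_apply, Matrix.of_apply]
  rw [Finset.sum_comm]
  refine Finset.sum_congr rfl fun i _ => Finset.sum_congr rfl fun j _ => ?_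
  have : Matrix.single j i (Y j i) = Y j i • Matrix.single j i (1 : ℂ) := by
    rw [Matrix.smul_single, smul_eq_mul, mul_one]
  rw [this, map_smul, smul_eq_mul, mul_comm]

lemma trace_mul_single (A : Matrix (Fin r) (Fin r) ℂ) (l l' : Fin r) :
    (A * Matrix.single l l' 1).trace = A l' l := by
  rw [Matrix.trace, Finset.sum_eq_single l']
  · rw [Matrix.diag_apply, Matrix.mul_apply, Finset.sum_eq_single l]
    · simp
    · intro b _ hb
      rw [Matrix.single_apply_of_row_ne hb.symm, mul_zero]
    · intro h; exact absurd (Finset.mem_univ _) h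
  · intro b _ hb
    rw [Matrix.diag_apply, Matrix.mul_apply]
    refine Finset.sum_eq_zero fun j _ => ?_
    rw [Matrix.single_apply_of_col_ne _ _ hb.symm, mul_zero]
  · intro h; exact absurd (Finset.mem_univ _) h

end SOL

open SOL in
theorem sol : S_SOL := by
  classical
  intro X _ r Q t hQ hZ lam hlam
  have hu : ∀ x, IsUnit (Q x).det := fun x => isUnit_iff_ne_zero.2 (hQ x)
  set T : Matrix (Fin r) (Fin r) ℂ := -∑ x, Q x * Matrix.diagonal (lam x) * (Q x)⁻¹ with hT
  have hmem : T ∈ W Q t := by
    by_contra hcon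
    obtain ⟨f, hf, hW⟩ := Submodule.exists_le_ker_of_notMem hcon
    set Z : Matrix (Fin r) (Fin r) ℂ := Matrix.of (fun i j => f (Matrix.single j i 1)) with hZdef
    have hfZ : ∀ Y, f Y = (Z * Y).trace := fun Y => fun_eq f Y
    have hent : ∀ x l l', t x l < t x l' → ((Q x)⁻¹ * Z * Q x) l' l = 0 := by
      intro x l l' hlt
      have h1 : Q x * Matrix.single l l' 1 * (Q x)⁻¹ ∈ W Q t := by
        refine ⟨Pi.single x (Matrix.single l l' 1), fun y a b h => ?_, ?_⟩
        · by_cases hy : y = x
          · subst hy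
            rw [Pi.single_eq_same]
            by_cases ha : l = a
            · by_cases hb : l' = b
              · exfalso
                subst ha; subst hb
                exact h hlt
              · exact Matrix.single_apply_of_col_ne _ _ hb _
            · exact Matrix.single_apply_of_row_ne ha _ _ _
          · rw [Pi.single_eq_of_ne hy]; rfl
        · rw [Finset.sum_eq_single x]
          · rw [Pi.single_eq_same]
          · intro b _ hb
            rw [Pi.single_eq_of_ne hb]; simp
          · intro h; exact absurd (Finset.mem_univ _) h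
      have h2 : f (Q x * Matrix.single l l' 1 * (Q x)⁻¹) = 0 := LinearMap.mem_ker.1 (hW h1)
      rw [hfZ, ← Matrix.mul_assoc, Matrix.trace_mul_comm, ← Matrix.mul_assoc, ← Matrix.mul_assoc,
        SOL.trace_mul_single] at h2
      exact h2
    have hpres : ∀ x, Pres (Q x) (t x) Z := by
      intro x a b hab
      by_contra hlt
      exact hab (hent x b a (not_le.1 hlt))
    obtain ⟨c, hc⟩ := hZ Z hpres
    apply hf
    rw [hfZ, hc, hT, Matrix.smul_mul, Matrix.one_mul, Matrix.trace_smul, Matrix.trace_neg,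
      Matrix.trace_sum]
    have h3 : ∀ x, (Q x * Matrix.diagonal (lam x) * (Q x)⁻¹).trace = ∑ l, lam x l := by
      intro x
      rw [Matrix.trace_mul_comm, ← Matrix.mul_assoc, Matrix.nonsing_inv_mul _ (hu x),
        Matrix.one_mul, Matrix.trace_diagonal]
    simp only [h3, hlam, neg_zero, smul_zero]
  obtain ⟨N, hN, hTN⟩ := hmem
  refine ⟨fun x => Q x * (Matrix.diagonal (lam x) + N x) * (Q x)⁻¹, ?_, fun x l l' h => ?_⟩
  · have h4 : ∑ x, Q x * (Matrix.diagonal (lam x) + N x) * (Q x)⁻¹ =
        ∑ x, Q x * Matrix.diagonal (lam x) * (Q x)⁻¹ + ∑ x, Q x * N x * (Q x)⁻¹ := by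
      rw [← Finset.sum_add_distrib]
      refine Finset.sum_congr rfl fun x _ => ?_
      rw [Matrix.mul_add, Matrix.add_mul]
    rw [h4, ← hTN, hT]
    exact add_neg_cancel _
  · by_contra hlt
    apply h
    have h5 : (Q x)⁻¹ * (Q x * (Matrix.diagonal (lam x) + N x) * (Q x)⁻¹) * Q x =
        Matrix.diagonal (lam x) + N x := by
      rw [← Matrix.mul_assoc, ← Matrix.mul_assoc, Matrix.nonsing_inv_mul _ (hu x), Matrix.one_mul,
        Matrix.mul_assoc, Matrix.nonsing_inv_mul _ (hu x), Matrix.mul_one]
    simp only [h5, add_sub_cancel_left]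
    exact hN x l l' hlt

end Pool.Agent.N858.DS
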