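import Pool.Agent.N858.DS.All3
import Pool.Agent.N858.DS.LatAx
import Pool.Agent.N858.DS.LatB
import Pool.Agent.N858.DS.Near
import Pool.Agent.N858.DS.Sch
import Pool.Agent.N858.DS.Sol
import Pool.Agent.N858.DS.Inv
import Pool.Agent.N858.DS.Ann
import Pool.Agent.N858.DS.Gen

set_option autoImplicit false

/-!
Irreducible systems and operators with index of rigidity at least zero: final statements.
-/

open Finset

namespace Pool.Agent.N858.DS

open Pool.Agent.N858.PC Pool.Agent.N858.R3 Pool.Agent.N858.R4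
open Pool.Agent.W432.PC Pool.Agent.W432.TC Pool.Agent.Y227.SS

universe u

/-- The exceptional types of rank at least four. -/
theorem exc : S_EXC := near_exc latA latB near sch sol inv ann gen

/-- Systems. -/
theorem all_sys4 (n r : ℕ) (hr : 1 < r) :
    ∃ (ε : ℝ) (B : ℕ), 0 < ε ∧
      ∀ (R : Type u) [CommRing R] [IsDomain R] [CharZero R] [Algebra.FiniteType ℤ R]
        (α : Fin n → R) (A : Fin n → Matrix (Fin r) (Fin r) R)
        (lam : Fin n → Fin r → ℚ) (phi : Fin r → ℚ) (N : ℕ),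
        (∀ i j, i ≠ j → IsUnit (α i - α j)) → AbsIrreducible α A →
        (∀ j, HasExponents (A j) (lam j)) → HasExponents (∑ j, A j) phi →
        0 < N → (∀ j l, ∃ m : ℤ, (N : ℚ) * lam j l = m) → (∀ l, ∃ m : ℤ, (N : ℚ) * phi l = m) →
        (RoughSums (2 * r) (allExp lam phi) ∨ MildDen (allExp lam phi) ∨
          Rough B (allExp lam phi)) →
        (LargeMult (allExp lam phi) ∨ IndexNonneg (allExp lam phi)) →
        (ExcType (allExp lam phi) ∧ ¬ LargeMult (allExp lam phi) ∧
          (Rough B (allExp lam phi) → r ≤ 3 ∧ Refined (allExp lam phi)) ∧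
          (NoShift (allExp lam phi) → r ≤ 3)) ∨
          ((∃ g : R, g ≠ 0 ∧ BadClasses α A N ε g) ∧ ¬ CondII α A) :=
  all_sys3 exc n r hr

/-- Systems on the thrice punctured line. -/
theorem index_thrice4 (r : ℕ) (hr : 1 < r) :
    ∃ (ε : ℝ) (B : ℕ), 0 < ε ∧
      ∀ (R : Type u) [CommRing R] [IsDomain R] [CharZero R] [Algebra.FiniteType ℤ R]
        (b c : Matrix (Fin r) (Fin r) R) (lam : Fin 3 → Fin r → ℚ) (N : ℕ),
        AbsIrreducible (![0, 1] : Fin 2 → R) ![b, c] →
        HasExponents b (lam 0) → HasExponents c (lam 1) →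
        HasExponents (b + c) (fun l => -lam 2 l) →
        0 < N → (∀ j l, ∃ m : ℤ, (N : ℚ) * lam j l = m) →
        (RoughSums (2 * r) lam ∨ MildDen lam ∨ Rough B lam) →
        (LargeMult lam ∨ (IndexNonneg lam ∧
          (¬ ExcType lam ∨ (3 < r ∧ (Rough B lam ∨ NoShift lam))))) →
          (∃ g : R, g ≠ 0 ∧ BadClasses ![0, 1] ![b, c] N ε g) ∧ ¬ CondII ![0, 1] ![b, c] :=
  index_thrice3 exc r hr

open Polynomial Pool.Agent.W432.WB Pool.Agent.W432.HK Pool.Agent.Y227.SO in
/-- Operators. -/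
theorem all_op4 (m n : ℕ) (hm : 1 ≤ m) (hn : 1 < n) :
    ∃ (ε : ℝ) (B : ℕ), 0 < ε ∧ ∀ (b : Fin (n + 1) → ℤ[X]) (α : Fin m → AlgebraicClosure ℚ),
      ¬ Reducible b →
      (∀ lam phi, FuchsianWith b α lam phi →
        (RoughSums (2 * n) (allExp lam phi) ∨ MildDen (allExp lam phi) ∨
          Rough B (allExp lam phi)) →
        (LargeMult (allExp lam phi) ∨ IndexNonneg (allExp lam phi)) →
        (ExcType (allExp lam phi) ∧ ¬ LargeMult (allExp lam phi) ∧
          (Rough B (allExp lam phi) → n ≤ 3 ∧ Refined (allExp lam phi))) ∨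
        (¬ Cond b ∧ ¬ FewBad b ε ∧ ∀ N, CommonDen lam phi N → BadPrimes b N ε)) ∧
      (ZerosAmong b α → FewBad b ε → ∃ lam phi, FuchsianWith b α lam phi ∧
        ((RoughSums (2 * n) (allExp lam phi) ∨ MildDen (allExp lam phi) ∨
          Rough B (allExp lam phi)) →
          ¬ LargeMult (allExp lam phi) ∧ (IndexNonneg (allExp lam phi) →
            ExcType (allExp lam phi) ∧
              (Rough B (allExp lam phi) → n ≤ 3 ∧ Refined (allExp lam phi))))) :=
  all_op3 exc m n hm hn

end Pool.Agent.N858.DS
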