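import Pool.Agent.Y227.SS.Defs

set_option autoImplicit false

/-!
If the residues of a system with rational exponents are not semisimple, the `p`-curvatures are nonzero
at almost all closed points.
-/

open Polynomial Pool.Agent.W432.PC Pool.Agent.Y227.SS

namespace Pool.Agent.N858.DS

universe u

/-- The product of the polynomials `N X - c` over the different values `c` of `m`. -/
noncomputable def qpoly {r : ℕ} (N : ℕ) (m : Fin r → ℤ) : ℤ[X] :=
  ∏ c ∈ Finset.univ.image m, (C (N : ℤ) * X - C c)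

section field

variable {K : Type*} [Field K] {r : ℕ}

lemma pow_mulVec {M : Matrix (Fin r) (Fin r) K} {v : Fin r → K} {μ : K}
    (h : M.mulVec v = μ • v) (n : ℕ) : (M ^ n).mulVec v = μ ^ n • v := by
  induction n with
  | zero => simp
  | succ n ih => rw [pow_succ, ← Matrix.mulVec_mulVec, h, Matrix.mulVec_smul, ih, smul_smul,
      pow_succ, mul_comm]

lemma aeval_mulVec {M : Matrix (Fin r) (Fin r) K} {v : Fin r → K} {μ : K}
    (h : M.mulVec v = μ • v) (q : ℤ[X]) : (aeval M q).mulVec v = (aeval μ q) • v := by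
  induction q using Polynomial.induction_on' with
  | add p q hp hq => rw [map_add, map_add, Matrix.add_mulVec, hp, hq, add_smul]
  | monomial n a =>
    rw [aeval_monomial, aeval_monomial, ← Matrix.mulVec_mulVec, pow_mulVec h, Matrix.mulVec_smul]
    have h1 : (algebraMap ℤ (Matrix (Fin r) (Fin r) K) a).mulVec v = (a : K) • v := by
      rw [eq_intCast]
      have h2 : ((a : ℤ) : Matrix (Fin r) (Fin r) K) = (a : K) • (1 : Matrix (Fin r) (Fin r) K) := by
        rw [Int.cast_smul_eq_zsmul, zsmul_eq_mul, mul_one]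
      rw [h2, Matrix.smul_mulVec, Matrix.one_mulVec]
    rw [h1, smul_smul, eq_intCast, mul_comm]

lemma aeval_eq_zero_of_eigenrows (M c : Matrix (Fin r) (Fin r) K)
    (μ : Fin r → K) (hc : ∀ i, M.mulVec (c i) = μ i • c i) (hdet : c.det ≠ 0) (q : ℤ[X])
    (hq : ∀ i, aeval (μ i) q = 0) : aeval M q = 0 := by
  have h1 : c * (aeval M q).transpose = 0 := by
    ext i l
    have h2 := congrFun (aeval_mulVec (hc i) q) l
    rw [hq i, zero_smul] at h2
    rw [Matrix.mul_apply, Matrix.zero_apply]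
    rw [Pi.zero_apply] at h2
    rw [← h2]
    simp only [Matrix.transpose_apply, Matrix.mulVec, dotProduct]
    exact Finset.sum_congr rfl fun x _ => mul_comm _ _
  have hu : IsUnit c := (Matrix.isUnit_iff_isUnit_det c).mpr (isUnit_iff_ne_zero.mpr hdet)
  have h3 : (aeval M q).transpose = 0 := by
    rw [← mul_zero c] at h1
    exact hu.mul_left_cancel h1
  rw [← Matrix.transpose_transpose (aeval M q), h3, Matrix.transpose_zero]

/-- If the residue has an eigenbasis and the eigenvalues `m l / N`, it is annihilated by `qpoly`. -/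
lemma aeval_qpoly_of_eigenrows {N : ℕ} {m : Fin r → ℤ} {e : Fin r → ℕ}
    (he : ∀ l, (N : K) * (e l : K) = (m l : K)) (M c : Matrix (Fin r) (Fin r) K)
    (hchar : M.charpoly = ∏ l, (X - C ((e l : ℕ) : K)))
    (μ : Fin r → K) (hc : ∀ i, M.mulVec (c i) = μ i • c i) (hdet : c.det ≠ 0) :
    aeval M (qpoly N m) = 0 := by
  refine aeval_eq_zero_of_eigenrows M c μ hc hdet _ fun i => ?_
  have h1 := charpoly_of_eigenrows M c μ hc hdet
  have h2 : (∏ l, (X - C ((e l : ℕ) : K))).eval (μ i) = 0 := by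
    rw [← hchar, h1, eval_prod]
    exact Finset.prod_eq_zero (Finset.mem_univ i) (by simp)
  rw [eval_prod, Finset.prod_eq_zero_iff] at h2
  obtain ⟨l, -, hl⟩ := h2
  have h3 : μ i = (e l : K) := by simpa [sub_eq_zero] using hl
  unfold qpoly
  rw [map_prod]
  refine Finset.prod_eq_zero (Finset.mem_image.mpr ⟨l, Finset.mem_univ l, rfl⟩) ?_
  have h4 : aeval (μ i) (C (N : ℤ) * X - C (m l)) = (N : K) * μ i - (m l : K) := by
    simp
  rw [h4, h3, he l, sub_self]

end field

/-- At a geometric point of characteristic `p` with a full family of solutions. -/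
lemma aeval_of_full {K : Type*} [Field K] {p : ℕ} [Fact p.Prime] [CharP K p] {n r : ℕ}
    {α : Fin n → K} {A : Fin n → Matrix (Fin r) (Fin r) K} (hα : Function.Injective α)
    (hfull : Full α A) {N : ℕ} {m : Fin n → Fin r → ℤ} {e : Fin n → Fin r → ℕ}
    (he : ∀ j l, (N : K) * (e j l : K) = (m j l : K))
    (hchar : ∀ j, (A j).charpoly = ∏ l, (X - C ((e j l : ℕ) : K)))
    {m' : Fin r → ℤ} {e' : Fin r → ℕ} (he' : ∀ l, (N : K) * (e' l : K) = (m' l : K))
    (hchar' : (∑ j, A j).charpoly = ∏ l, (X - C ((e' l : ℕ) : K))) :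
    (∀ j, aeval (A j) (qpoly N (m j)) = 0) ∧ aeval (∑ j, A j) (qpoly N m') = 0 := by
  obtain ⟨Y₀, hY₀, hdet₀⟩ := hfull
  obtain ⟨Y, h⟩ := exists_minFam hY₀ hdet₀
  constructor
  · intro j
    obtain ⟨e₁, P, z, hb⟩ := h.exists_locBasis hα p j
    exact aeval_qpoly_of_eigenrows (he j) (A j) (Matrix.of fun i l => (z i l).eval (α j))
      (hchar j) _ (fun i => local_sing hα j (h.sol_row (P i)) (hb.eq i)) hb.detz
  · exact aeval_qpoly_of_eigenrows he' _ (Matrix.of fun i l => (Y i l).coeff (vdeg (Y i)))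
      hchar' _ (fun i => infinity_eq (h.sol i) (natDegree_le_vdeg (Y i))) (h.lead_det p)

lemma exists_nat_rep {K : Type*} [Field K] {p : ℕ} [Fact p.Prime] [CharP K p] {N : ℕ}
    (hN : (N : K) ≠ 0) (m : ℤ) : ∃ e : ℕ, (N : K) * (e : K) = (m : K) := by
  have hp : Nat.Coprime N p := by
    rw [Nat.coprime_comm]
    refine ((Fact.out : p.Prime).coprime_iff_not_dvd).mpr fun h => hN ?_
    exact (CharP.cast_eq_zero_iff K p N).mpr h
  obtain ⟨u, v, huv⟩ := Nat.Coprime.isCoprime hp
  refine ⟨((m * u) % p).toNat, ?_⟩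
  have hp0 : (0 : ℤ) < p := by exact_mod_cast (Fact.out : p.Prime).pos
  have h1 : ((((m * u) % p).toNat : ℕ) : ℤ) = m * u % p :=
    Int.toNat_of_nonneg (Int.emod_nonneg _ hp0.ne')
  have h2 : ((((m * u) % p).toNat : ℕ) : K) = ((m * u % p : ℤ) : K) := by
    rw [← Int.cast_natCast, h1]
  rw [h2]
  have h3 : (m * u % p : ℤ) = m * u - p * (m * u / p) := by
    rw [Int.emod_def]
  rw [h3]
  push_cast
  rw [CharP.cast_eq_zero K p]
  have h4 : ((u * N + v * p : ℤ) : K) = 1 := by rw [huv]; simp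
  push_cast at h4
  rw [CharP.cast_eq_zero K p] at h4
  linear_combination (m : K) * h4

lemma aeval_map_ring {R K : Type*} [CommRing R] [CommRing K] {r : ℕ} (φ : R →+* K)
    (M : Matrix (Fin r) (Fin r) R) (q : ℤ[X]) :
    (aeval M q).map φ = aeval (M.map φ) q := by
  have h1 := Polynomial.aeval_algHom_apply (φ.mapMatrix (m := Fin r)).toIntAlgHom M q
  exact h1.symm

section main

variable {R : Type u} [CommRing R] [IsDomain R] [CharZero R] {n r : ℕ}

/-- The residues are semisimple or the `p`-curvatures are nonzero. -/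
theorem semi_or_bad [Algebra.FiniteType ℤ R] {α : Fin n → R}
    {A : Fin n → Matrix (Fin r) (Fin r) R} {lam : Fin n → Fin r → ℚ} {phi : Fin r → ℚ} {N : ℕ}
    (hα : ∀ i j, i ≠ j → IsUnit (α i - α j))
    (hlam : ∀ j, HasExponents (A j) (lam j)) (hphi : HasExponents (∑ j, A j) phi)
    (hN : 0 < N) {m : Fin n → Fin r → ℤ} (hm : ∀ j l, (N : ℚ) * lam j l = m j l)
    {m' : Fin r → ℤ} (hm' : ∀ l, (N : ℚ) * phi l = m' l) :
    ((∀ j, aeval (A j) (qpoly N (m j)) = 0) ∧ aeval (∑ j, A j) (qpoly N m') = 0) ∨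
      ((∃ g : R, g ≠ 0 ∧ BadClasses α A N 1 g) ∧ ¬ CondII α A) := by
  classical
  by_cases hcase : (∀ j, aeval (A j) (qpoly N (m j)) = 0) ∧ aeval (∑ j, A j) (qpoly N m') = 0
  · exact Or.inl hcase
  right
  -- a nonzero entry
  obtain ⟨g, hg, hgd⟩ : ∃ g : R, g ≠ 0 ∧ ∀ (K : Type u) [Field K] (φ : R →+* K),
      ((∀ j, aeval ((A j).map φ) (qpoly N (m j)) = 0) ∧
        aeval (∑ j, (A j).map φ) (qpoly N m') = 0) → φ g = 0 := by
    have hsum : ∀ (K : Type u) [Field K] (φ : R →+* K),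
        (∑ j, (A j).map φ) = (∑ j, A j).map φ := by
      intro K _ φ
      ext i l
      simp [Matrix.sum_apply]
    rw [not_and_or] at hcase
    rcases hcase with h | h
    · push Not at h
      obtain ⟨j, hj⟩ := h
      obtain ⟨i, l, hil⟩ : ∃ i l, aeval (A j) (qpoly N (m j)) i l ≠ 0 := by
        by_contra hcon
        push Not at hcon
        exact hj (by ext i l; exact hcon i l)
      refine ⟨_, hil, fun K _ φ hK => ?_⟩
      have h1 := congrFun (congrFun (hK.1 j) i) l
      rw [← aeval_map_ring] at h1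
      exact h1
    · obtain ⟨i, l, hil⟩ : ∃ i l, aeval (∑ j, A j) (qpoly N m') i l ≠ 0 := by
        by_contra hcon
        push Not at hcon
        exact h (by ext i l; exact hcon i l)
      refine ⟨_, hil, fun K _ φ hK => ?_⟩
      have h1 := congrFun (congrFun (hK.2) i) l
      rw [hsum, ← aeval_map_ring] at h1
      exact h1
  have key : ∀ p : ℕ, p.Prime → N < p → ∀ (𝔪 : Ideal R) [𝔪.IsMaximal], (p : R) ∈ 𝔪 → g ∉ 𝔪 →
      ¬ PCurvZeroAt α A 𝔪 := by
    intro p hp hpN 𝔪 _ hpm hgm hpc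
    have : Fact p.Prime := ⟨hp⟩
    obtain ⟨K, iF, iA, iC, φ, h1, h2, h3⟩ := geometric_point hα hp hpm hpc
    have hNK : (N : K) ≠ 0 := by
      intro h0
      have h4 := (CharP.cast_eq_zero_iff K p N).mp h0
      exact absurd (Nat.le_of_dvd hN h4) (by omega)
    choose e he using fun j l => exists_nat_rep (K := K) (p := p) hNK (m j l)
    choose e' he' using fun l => exists_nat_rep (K := K) (p := p) hNK (m' l)
    have h5 : ∀ j, ((A j).map φ).charpoly = ∏ l, (X - C ((e j l : ℕ) : K)) := fun j =>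
      (hlam j).charpoly_map hN (hm j) φ hNK (he j)
    have hsum : (∑ j, (A j).map φ) = (∑ j, A j).map φ := by
      ext i l
      simp [Matrix.sum_apply]
    have h6 : (∑ j, (A j).map φ).charpoly = ∏ l, (X - C ((e' l : ℕ) : K)) := by
      rw [hsum]
      exact hphi.charpoly_map hN hm' φ hNK he'
    refine h1 g hgm (hgd K φ ?_)
    refine aeval_of_full (p := p) (α := fun j => φ (α j)) ?_ h3 he h5 he' h6
    intro i j hij
    by_contra hne
    exact h2 i j hne hij
  refine ⟨⟨g, hg, ?_⟩, ?_⟩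
  · have : NeZero N := ⟨hN.ne'⟩
    refine ⟨Finset.univ, N, ?_, fun p hp hpN _ 𝔪 _ hpm hgm => key p hp hpN 𝔪 hpm hgm⟩
    rw [Finset.card_univ, ZMod.card_units_eq_totient, one_mul]
  · exact not_condII_of α A N hN 1 isCoprime_one_left
      ⟨g, hg, N, fun p hp hpN _ 𝔪 _ hpm hgm => key p hp hpN 𝔪 hpm hgm⟩

end main

lemma badClasses_mono {R : Type*} [CommRing R] {n r : ℕ} {α : Fin n → R}
    {A : Fin n → Matrix (Fin r) (Fin r) R} {N : ℕ} {ε ε' : ℝ} {g : R} (h : ε' ≤ ε)
    (hB : BadClasses α A N ε g) : BadClasses α A N ε' g := by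
  obtain ⟨S, P₀, h1, h2⟩ := hB
  exact ⟨S, P₀, (mul_le_mul_of_nonneg_right h (Nat.cast_nonneg _)).trans h1, h2⟩

end Pool.Agent.N858.DS
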