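import Pool.Agent.Y227.SS.Defs
import Pool.Agent.N858.PC.Defs

set_option autoImplicit false

/-!
Statements of project DT: stable parabolic bundles with nearly equal weights.
-/

open Polynomial

namespace Pool.Agent.N858.DS

open Pool.Agent.Y227.SS Pool.Agent.N858.PC

/-- The minor of a constant matrix on the columns `J`. -/
noncomputable def cmn {s r : ℕ} (U : Matrix (Fin s) (Fin r) ℂ) (J : Fin s → Fin r) : ℂ :=
  (U.submatrix id J).det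

/-- Stability of the space `ℂ ^ r` (row vectors) with the filtrations given by the weights `t x l` of the
coordinates of `v * Q x`. -/
def FStable {X : Type} [Fintype X] {r : ℕ} (Q : X → Matrix (Fin r) (Fin r) ℂ) (t : X → Fin r → ℝ) :
    Prop :=
  ∀ s, 0 < s → s < r → ∀ U : Matrix (Fin s) (Fin r) ℂ, (∃ J, cmn U J ≠ 0) → ∀ τ : X → ℝ,
    (∀ x J, cmn (U * Q x) J ≠ 0 → τ x ≤ ∑ i, t x (J i)) → ∑ x, τ x < 0

/-- `v ↦ v * Z` preserves the filtration. -/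
def Pres {r : ℕ} (Q : Matrix (Fin r) (Fin r) ℂ) (t : Fin r → ℝ) (Z : Matrix (Fin r) (Fin r) ℂ) : Prop :=
  ∀ l l', (Q⁻¹ * Z * Q) l l' ≠ 0 → t l ≤ t l'

/-- Schur's lemma for stable filtered spaces. -/
def S_SCH : Prop :=
  ∀ (X : Type) [Fintype X] (r : ℕ) (Q : X → Matrix (Fin r) (Fin r) ℂ) (t : X → Fin r → ℝ),
    (∀ x, (Q x).det ≠ 0) → ∑ x, ∑ l, t x l = 0 → FStable Q t →
    ∀ Z : Matrix (Fin r) (Fin r) ℂ, (∀ x, Pres (Q x) (t x) Z) → ∃ c : ℂ, Z = c • 1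

/-- Matrices with sum zero which preserve the filtrations, with given diagonal parts. -/
def S_SOL : Prop :=
  ∀ (X : Type) [Fintype X] (r : ℕ) (Q : X → Matrix (Fin r) (Fin r) ℂ) (t : X → Fin r → ℝ),
    (∀ x, (Q x).det ≠ 0) →
    (∀ Z : Matrix (Fin r) (Fin r) ℂ, (∀ x, Pres (Q x) (t x) Z) → ∃ c : ℂ, Z = c • 1) →
    ∀ lam : X → Fin r → ℂ, ∑ x, ∑ l, lam x l = 0 →
    ∃ A : X → Matrix (Fin r) (Fin r) ℂ, ∑ x, A x = 0 ∧
      ∀ x l l', ((Q x)⁻¹ * A x * Q x - Matrix.diagonal (lam x)) l l' ≠ 0 → t x l < t x l'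

/-- The trace on an invariant subspace. -/
def S_INV : Prop :=
  ∀ (r s : ℕ) (t : Fin r → ℝ) (lam : Fin r → ℂ) (M : Matrix (Fin r) (Fin r) ℂ),
    (∀ l l', (M - Matrix.diagonal lam) l l' ≠ 0 → t l < t l') →
    ∀ (U : Matrix (Fin s) (Fin r) ℂ) (B : Matrix (Fin s) (Fin s) ℂ), U * M = B * U →
    (∃ J, cmn U J ≠ 0) →
    ∃ J, cmn U J ≠ 0 ∧ (∀ J', cmn U J' ≠ 0 → ∑ i, t (J i) ≤ ∑ i, t (J' i)) ∧
      B.trace = ∑ i, lam (J i)

/-- A matrix which is triangular with respect to the weights, with different scalars on the graded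
parts, is annihilated by the polynomials which vanish at these scalars. -/
def S_ANN : Prop :=
  ∀ (r : ℕ) (t : Fin r → ℝ) (lam : Fin r → ℂ) (M : Matrix (Fin r) (Fin r) ℂ),
    (∀ l l', (M - Matrix.diagonal lam) l l' ≠ 0 → t l < t l') →
    (∀ l l', t l = t l' ↔ lam l = lam l') →
    ∀ q : ℂ[X], (∀ l, q.eval (lam l) = 0) → aeval M q = 0

/-- Generic rational weights. -/
def S_GEN : Prop :=
  ∀ (X : Type) [Fintype X] (r : ℕ) (t : X → Fin r → ℝ), ∑ x, ∑ l, t x l = 0 →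
    ∃ e : X → Fin r → ℚ, (∀ x l l', t x l = t x l' ↔ e x l = e x l') ∧
      (∀ x l, |e x l| < 1 / 4) ∧ ∑ x, ∑ l, e x l = 0 ∧
      ∀ (s : ℕ) (J : X → Fin s → Fin r), s ≤ r → ∑ x, ∑ i, e x (J x i) = 0 →
        ∑ x, ∑ i, t x (J x i) = 0

/-- Normal form of a stable parabolic bundle with nearly equal weights: after a change of the lattices
it is the trivial bundle. -/
structure Triv {n r : ℕ} (κ : ℝ) (β : Fin n → ℂ) (P : Fin n → Matrix (Fin r) (Fin r) ℂ)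
    (w : Fin n → Fin r → ℝ) (e : Fin r → ℝ) (c : Fin n → ℝ) (c' : ℝ) (k : Fin n → Fin r → ℕ)
    (m : Fin r → ℤ) (M : ℤ) (Y : Matrix (Fin r) (Fin r) ℂ[X])
    (Z : Fin n → Matrix (Fin r) (Fin r) ℂ[X]) : Prop where
  close : ∀ j l, |w j l + k j l - c j| ≤ κ
  close' : ∀ l, |e l - m l - c'| ≤ κ
  total : M + c' = ∑ j, c j
  mean : ∀ j, ∑ l, (w j l + k j l) = r * c j
  mean' : ∑ l, (e l - m l) = r * c'
  deg : ∀ i l, Y i l ≠ 0 → ((Y i l).natDegree : ℤ) ≤ M - m l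
  fac : ∀ j i l, (Y * (P j).map C) i l = (X - C (β j)) ^ (k j l) * Z j i l
  ev : ∀ j, (Matrix.of fun i l => (Z j i l).eval (β j)).det ≠ 0
  lead : (Matrix.of fun i l => if m l ≤ M then (Y i l).coeff (M - m l).toNat else 0).det ≠ 0

def S_LATA : Prop :=
  ∀ (n r : ℕ), 1 < r → ∀ κ : ℝ, 0 < κ → (n + 1) * κ * r < 1 →
    ∀ (β : Fin n → ℂ) (P : Fin n → Matrix (Fin r) (Fin r) ℂ)
    (w : Fin n → Fin r → ℝ) (e : Fin r → ℝ),
    (∀ j, (P j).det ≠ 0) → (∀ j l, 0 ≤ w j l ∧ w j l ≤ 1) →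
    ∑ j, ∑ l, w j l = ∑ l, e l → Stable β P w e →
    (∀ j l l', ∃ z : ℤ, |w j l - w j l' - z| ≤ κ / 4) → (∀ l l', ∃ z : ℤ, |e l - e l' - z| ≤ κ / 4) →
    ∃ c c' k m M Y Z, Triv κ β P w e c c' k m M Y Z

def S_LATB : Prop :=
  ∀ (n r : ℕ), 1 < r → ∀ κ : ℝ, 0 < κ → 2 * r * κ < 1 →
    ∀ (β : Fin n → ℂ) (P : Fin n → Matrix (Fin r) (Fin r) ℂ)
    (w : Fin n → Fin r → ℝ) (e : Fin r → ℝ) (c : Fin n → ℝ) (c' : ℝ) (k : Fin n → Fin r → ℕ)
    (m : Fin r → ℤ) (M : ℤ) (Y : Matrix (Fin r) (Fin r) ℂ[X])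
    (Z : Fin n → Matrix (Fin r) (Fin r) ℂ[X]), Triv κ β P w e c c' k m M Y Z →
    (∀ j, (P j).det ≠ 0) → Stable β P w e →
    ∃ Q : Option (Fin n) → Matrix (Fin r) (Fin r) ℂ, (∀ x, (Q x).det ≠ 0) ∧
      FStable Q (fun x l => match x with
        | some j => w j l + k j l - c j
        | none => -(e l - m l - c'))

/-- Exponents with differences without small prime factors have conjugates with nearly equal
exponents. -/
def S_NEAR : Prop :=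
  ∀ (X : Type) [Fintype X] (r : ℕ) (η : ℝ), 0 < η → ∃ B : ℕ, ∀ (e : X → Fin r → ℚ) (N : ℕ), 0 < N →
    (∀ x l, ∃ m : ℤ, (N : ℚ) * e x l = m) → Rough B e →
    ∃ a : ℤ, IsCoprime a (N : ℤ) ∧ ∀ x l l', ∃ z : ℤ, |(a : ℝ) * ((e x l - e x l' : ℚ) : ℝ) - z| ≤ η

end Pool.Agent.N858.DS
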